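import Mathlib
import Pool.Agent.MP_a2d820_lc.h22.Iface

/-!
Statements of the blocks of the construction of an oracle with monotone chain codes at all levels.
-/

set_option autoImplicit false

namespace Pool.Agent.MP_a2d820_lc.h31p

open Finset Pool.Agent.MP_a2d820_lc.h69

section Cube

variable {V : Type} [Fintype V] [DecidableEq V]

/-- The product weight: every element is missing with probability `q`. -/
noncomputable def wt (q : ℝ) (z : Finset V) : ℝ := (1 - q) ^ z.card * q ^ zᶜ.card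

open Classical in
/-- The probability of an event. -/
noncomputable def Pr (q : ℝ) (E : Finset V → Prop) : ℝ := ∑ z, if E z then wt q z else 0

/-- Two points agree on `D`. -/
def Agr (D y y' : Finset V) : Prop := ∀ v ∈ D, v ∈ y' ↔ v ∈ y

/-- Above `b`, every point of `f` has a certificate of size `c` inside `S`. -/
def One (b S : Finset V) (c : ℕ) (f : Finset V → Prop) : Prop :=
  ∀ y, b ⊆ y → f y → ∃ D ⊆ S, D.card ≤ c ∧ ∀ y', b ⊆ y' → Agr D y y' → f y'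

/-- Certificates for both values. -/
def Cert (b S : Finset V) (c : ℕ) (f : Finset V → Prop) : Prop :=
  One b S c f ∧ One b S c fun y => ¬f y

/-- Small positive certificates. -/
def Sm (b S : Finset V) (τ : ℕ) (f : Finset V → Prop) : Prop :=
  ∀ y, b ⊆ y → f y → ∃ W ⊆ S, W ⊆ y ∧ W.card ≤ τ ∧ f (b ∪ W)

/-- Strictly increasing chains whose steps can be read off the upper point. -/
def Up (U : Finset V → Finset V) : ℕ → Finset V → Prop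
  | 0, _ => True
  | j + 1, a => ∃ c, a ⊂ c ∧ c \ a ⊆ U c ∧ Up U j c

/-- Alternating chains between `b` and a point. -/
def Ch (b : Finset V) (A : Bool → Finset V → Prop) : ℕ → Finset V → Prop
  | 0, _ => True
  | j + 1, y => ∃ c, b ⊆ c ∧ c ⊆ y ∧ Ch b A j c ∧ A (!j.bodd) c

/-- Chains are short and have small certificates. -/
def Nice (b S : Finset V) (p τ : ℕ) (A : Bool → Finset V → Prop) : Prop :=
  (∀ y, ¬Ch b A p y) ∧ ∀ j, Sm b S τ (Ch b A j)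

/-- Many elements of the sets `C π` are outside `b`. -/
def Fat {ι : Type} (P : Finset ι) (C : ι → Finset V) (f : ι → ℕ) (Q s : ℕ) (b : Finset V) : Prop :=
  ∀ π ∈ P, f π * Q ^ s ≤ (C π \ b).card

/-- The old point: everything except the keys of the regions that are on. -/
def pt (κ : V → V) (O : Finset V) : Finset V := (O.image κ)ᶜ

/-- The free variables of rank below `t`. -/
def low (Fr : Finset V) (rk : V → ℕ) (t : ℕ) : Finset V := Fr.filter fun v => rk v < t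

/-- Monotone systems of regions that are local in the keys. -/
structure Sys (Rel b : Finset V) (On : (V → V) → Finset V → Finset V) : Prop where
  mono : ∀ κ y y', b ⊆ y → y ⊆ y' → On κ y ⊆ On κ y'
  loc : ∀ κ κ' y, b ⊆ y → (∀ r ∈ On κ y, κ' r = κ r) → On κ' y = On κ y
  rel : ∀ κ y, On κ y ⊆ Rel

/-- The sets of candidate keys and the weights of the variables. -/
structure Keys (K : V → Finset V) (Rel b₀ Fr : Finset V) (rk : V → ℕ) (lam : V → ℝ) : Prop where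
  disj : ∀ r ∈ Rel, ∀ r' ∈ Rel, ∀ x ∈ K r, x ∈ K r' → r = r'
  ne : ∀ r, (K r).Nonempty
  out : ∀ r ∈ Rel, ∀ x ∈ K r, x ∉ b₀ ∧ rk x = rk r
  lam0 : ∀ v, 0 ≤ lam v
  lam1 : ∑ v, lam v ≤ 1
  lam2 : ∀ v ∈ Fr, (1 / 2 : ℝ) ^ (3 * rk v) ≤ lam v

/-- A cheap certificate of a region. -/
def Chp (K : V → Finset V) (Fr : Finset V) (rk : V → ℕ) (lam : V → ℝ) (Γ : ℕ) (r : V)
    (W : Finset V) : Prop :=
  W ⊆ low Fr rk (rk r + 1) ∧ W.card ≤ rk r ∧ (Γ : ℝ) ≤ (K r).card * (∏ v ∈ W, lam v) ^ 2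

/-- Every region that is on has a positive certificate of the kind `P`. -/
def Cer (P : V → Finset V → Prop) (b : Finset V) (O : Finset V → Finset V) : Prop :=
  ∀ y, b ⊆ y → ∀ r ∈ O y, ∃ W ⊆ y, P r W ∧ r ∈ O (b ∪ W)

/-- The state after the layers below `i`. -/
structure Out {ι : Type} (Fr : Finset V) (rk : V → ℕ) (Cd : Finset ι) (ly m P : ι → ℕ)
    (reg : ι → ℕ → V) (A : ι → Bool → Finset V → Prop) (i : ℕ) (b : Finset V)
    (O : Finset V → Finset V) : Prop where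
  fr : Frᶜ ⊆ b
  free : ∀ y, b ⊆ y → ∀ v ∈ Fr, v ∈ O y ↔ v ∈ y
  sub : ∀ y, b ⊆ y → ∀ r ∈ O y, r ∈ Fr ∨ ∃ u ∈ Cd, ly u < i ∧ ∃ j < 5 * m u + 1, r = reg u j
  cert : ∀ r, Cert b (low Fr rk (rk r + 1)) (rk r) fun y => r ∈ O y
  code : ∀ u ∈ Cd, ly u < i → ∀ y, b ⊆ y → ∀ β, A u β (O y) →
    ((range (P u)).filter fun j => reg u j ∈ O y).card.bodd = β

end Cube

/-- Long readable chains are unlikely. -/
def UpStmt : Prop :=
  ∀ (V : Type) [Fintype V] [DecidableEq V] (q : ℝ) (b : Finset V) (U : Finset V → Finset V)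
    (σ j : ℕ), 0 < q → q ≤ 1 / 2 → 8 * q * σ ≤ 1 → (∀ c, (U c).card ≤ σ) →
    Pr q (fun z => Up U j (b ∪ z)) ≤ (1 / 2) ^ j

/-- Chains of two disjoint sets with small certificates. -/
def PeelStmt : Prop :=
  ∀ (V : Type) [Fintype V] [DecidableEq V] (b S : Finset V) (s : ℕ) (A : Bool → Finset V → Prop),
    (∀ β, One b S s (A β)) → (∀ y, b ⊆ y → ¬(A true y ∧ A false y)) →
    ∃ U : Finset V → Finset V, (∀ c, (U c).card ≤ 2 * s) ∧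
      ∀ b', b ⊆ b' → ∀ p, ¬Up U p b' → Nice b' S (p + 1) ((p + 1) * s) A

/-- Monotone functions get certificates for the negative value. -/
def ZeroStmt : Prop :=
  ∀ (V : Type) [Fintype V] [DecidableEq V] (q : ℝ) (b S : Finset V) (τ k : ℕ)
    (f : Finset V → Prop), (∀ y y', b ⊆ y → y ⊆ y' → f y → f y') → Sm b S τ f →
    0 < q → q ≤ 1 → 2 * q * τ ≤ 1 →
    Pr q (fun z => ¬Cert (b ∪ z) S (max τ k) f) ≤ (1 / 2) ^ k

/-- The choice of the next base point. -/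
def SparseStmt : Prop :=
  ∀ (V ι Ω : Type) [Fintype V] [DecidableEq V] (𝒦 : Finset Ω) (P : Finset ι) (C : ι → Finset V)
    (f : ι → ℕ) (Q s : ℕ) (b : Finset V) (E : Ω → Finset V → Prop) (ε : ℝ), 8 ≤ Q →
    (∀ π ∈ P, 2 * P.card ≤ 2 ^ f π) → Fat P C f Q (s + 1) b → 0 ≤ ε →
    (∀ κ ∈ 𝒦, Pr (4 / (Q : ℝ)) (fun z => E κ (b ∪ z)) ≤ ε) →
    ∃ b', b ⊆ b' ∧ Fat P C f Q s b' ∧
      ∃ B : Finset Ω, (B.card : ℝ) ≤ 2 * ε * 𝒦.card ∧ ∀ κ ∈ 𝒦, E κ b' → κ ∈ B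

/-- The potential that counts hits. -/
def PotStmt : Prop :=
  ∀ (V : Type) [Fintype V] [DecidableEq V] (K : V → Finset V) (Rel b₀ Fr b a : Finset V)
    (rk : V → ℕ) (lam : V → ℝ) (On D : (V → V) → Finset V → Finset V) (w : ℕ),
    Keys K Rel b₀ Fr rk lam → Sys Rel b On → (∀ κ e, (D κ e).card ≤ w) →
    (∀ κ κ' e, b ⊆ e → (∀ r ∈ On κ e, κ' r = κ r) → D κ' e = D κ e) →
    ∃ F : ℕ → (V → V) → Finset V → ℝ,
      (∀ κ e, F 0 κ e = ∏ v ∈ (e \ a) ∪ (a \ e), lam v) ∧ (∀ i κ e, 0 ≤ F i κ e) ∧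
      (∀ i κ e e', b ⊆ e → e ⊆ e' → F i κ e * ∏ v ∈ e' \ e, lam v ≤ F i κ e') ∧
      (∀ i κ e e' r, b ⊆ e → e ⊆ e' → r ∉ On κ e → r ∈ On κ e' → κ r ∈ D κ e →
        F i κ e * (∏ v ∈ e' \ e, lam v) * (K r).card ≤ F (i + 1) κ e') ∧
      ∀ i, ∑ κ ∈ Fintype.piFinset K, ∑ e, F i κ e ≤
        3 * (3 * w) ^ i * (Fintype.piFinset K).card

/-- Independent sets in digraphs of bounded out-degree. -/
def IndStmt : Prop :=
  ∀ (V : Type) [DecidableEq V] (A : Finset V) (C : V → Finset V) (δ s : ℕ),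
    (∀ v ∈ A, (C v).card ≤ δ) → (∀ v ∈ A, v ∉ C v) → (2 * δ + 1) * s ≤ A.card →
    ∃ S ⊆ A, S.card = s ∧ ∀ v ∈ S, ∀ v' ∈ S, v ∉ C v'

/-- The chains of one gate. -/
def GateStmt : Prop :=
  ∀ (V : Type) [Fintype V] [DecidableEq V] (K : V → Finset V) (Rel b₀ Fr b S₀ : Finset V)
    (rk : V → ℕ) (lam : V → ℝ) (On : (V → V) → Finset V → Finset V) (g : Finset V → Prop)
    (Γ m w : ℕ), Keys K Rel b₀ Fr rk lam → Sys Rel b On → Frᶜ ⊆ b → 1 ≤ m → m ≤ w → 12 * w ≤ Γ →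
    One b₀ S₀ w g → (∀ x ∈ S₀, rk x < m) →
    ∃ (U : (V → V) → Finset V → Finset V) (Good : (V → V) → Finset V → Prop),
      (∀ κ c, (U κ c).card ≤ 300 * w ^ 9) ∧
      (∀ b', ∃ B : Finset (V → V),
        (B.card : ℝ) ≤ 6 * (1 / 2) ^ (5 * m) * (Fintype.piFinset K).card ∧
        ∀ κ ∈ Fintype.piFinset K, ¬Good κ b' → κ ∈ B) ∧
      ∀ κ ∈ Fintype.piFinset K, Cer (Chp K Fr rk lam Γ) b (On κ) → ∀ b', b ⊆ b' → Good κ b' →
        ¬Up (U κ) (5 * m) b' → Nice b' (low Fr rk m) (5 * m + 1) (30 * w ^ 5)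
          fun β y => g (pt κ (On κ y)) ↔ β = true

/-- The parity of the length of the longest chain. -/
def ParStmt : Prop :=
  ∀ (V : Type) [Fintype V] [DecidableEq V] (b : Finset V) (A : Bool → Finset V → Prop) (p : ℕ),
    (∀ y, ¬Ch b A p y) →
    (∀ y β, b ⊆ y → A β y → ∀ (P : ℕ) (t : ℕ → Prop) [DecidablePred t], p ≤ P →
      (∀ j < P, t j ↔ j < p ∧ Ch b A (j + 1) y) → ((range P).filter t).card.bodd = β) ∧
    ∀ (g : Finset V → Prop) (b' S : Finset V) (c : ℕ), (∀ β y, A β y ↔ (g y ↔ β = true)) →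
      b ⊆ b' → (∀ j ≤ p, Cert b' S c (Ch b A j)) → Cert b' S (2 * c) g

/-- A family of gates gets certificates. -/
def ConvStmt : Prop :=
  ∀ (V ι ι' : Type) [Fintype V] [DecidableEq V] (K : V → Finset V) (Rel b₀ Fr b : Finset V)
    (rk : V → ℕ) (lam : V → ℝ) (On : (V → V) → Finset V → Finset V) (J : Finset ι)
    (g : ι → Finset V → Prop) (S₀ : ι → Finset V) (m w : ι → ℕ) (P : Finset ι')
    (C : ι' → Finset V) (f : ι' → ℕ) (Q s : ℕ),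
    Keys K Rel b₀ Fr rk lam → Sys Rel b On → Frᶜ ⊆ b → 8 ≤ Q →
    (∀ t ∈ J, 1 ≤ m t ∧ m t ≤ w t ∧ 10000 * w t ^ 9 ≤ Q ∧ One b₀ (S₀ t) (w t) (g t) ∧
      ∀ x ∈ S₀ t, rk x < m t) →
    (∀ π ∈ P, 2 * P.card ≤ 2 ^ f π) → Fat P C f Q (s + 2) b →
    ∃ b', b ⊆ b' ∧ Fat P C f Q s b' ∧ ∃ B : Finset (V → V),
      (B.card : ℝ) ≤ 10 * (∑ t ∈ J, (1 / 2) ^ (5 * m t)) * (Fintype.piFinset K).card ∧
      ∀ κ ∈ Fintype.piFinset K, κ ∉ B → Cer (Chp K Fr rk lam Q) b (On κ) → ∀ t ∈ J,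
        Cert b' (low Fr rk (m t)) (60 * w t ^ 5) fun y => g t (pt κ (On κ y))

/-- One round: the induction over the layers. -/
def RoundStmt : Prop :=
  ∀ (V ι ι' : Type) [Fintype V] [DecidableEq V] (I Cd : Finset ι) (𝒦 : Finset (V → V))
    (Rel Fr : Finset V) (rk : V → ℕ) (m ly s c P : ι → ℕ) (L Q : ℕ) (reg : ι → ℕ → V)
    (A : ι → Bool → (V → V) → Finset V → Prop) (Gs : ι → Set ((V → V) → Finset V → Prop))
    (Cp : V → Finset V → Prop) (Pa : ℕ → Finset ι') (C : ι' → Finset V) (f : ι' → ℕ)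
    (kill : ℕ → Finset V),
    𝒦.Nonempty → Cd ⊆ I → (∀ o ∈ I, ly o < L ∧ 1 ≤ m o) →
    (∀ u ∈ Cd, ∀ j < P u, reg u j ∉ Fr ∧
      ∀ u' ∈ Cd, ∀ j' < P u', reg u j = reg u' j' → u = u' ∧ j = j') →
    (∀ u ∈ Cd, 5 * m u + 1 ≤ P u ∧ 64 * ((5 * m u + 1) * s u) ≤ Q ∧ ∀ j < 5 * m u + 1,
      reg u j ∈ Rel ∧ (5 * m u + 1) * s u ≤ rk (reg u j) ∧ 8 * m u ≤ rk (reg u j) ∧
      (∀ o ∈ I, rk (reg u j) < m o → ly u < ly o) ∧
      ∀ W ⊆ low Fr rk (m u), W.card ≤ (5 * m u + 1) * s u → Cp (reg u j) W) →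
    Fr ⊆ Rel → (∀ v ∈ Fr, 1 ≤ rk v ∧ Cp v {v}) →
    (∀ u ∈ Cd, ∀ β, ∀ κ ∈ 𝒦, ∀ O ⊆ Rel, ∀ O' ⊆ Rel, (∀ r, rk r < m u → (r ∈ O' ↔ r ∈ O)) →
      A u β κ O → A u β κ O') →
    (∀ u ∈ Cd, ∀ β κ κ' O, (∀ r ∈ O, κ' r = κ r) → A u β κ O → A u β κ' O) →
    (∀ o ∈ I, ∀ γ ∈ Gs o, ∀ κ ∈ 𝒦, ∀ O ⊆ Rel, ∀ O' ⊆ Rel,
      (∀ r, rk r < m o → (r ∈ O' ↔ r ∈ O)) → γ κ O → γ κ O') →
    (∀ u ∈ Cd, ∀ κ ∈ 𝒦, ∀ b O, Out Fr rk Cd ly m P reg (fun u β => A u β κ) (ly u) b O →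
      (∀ γ ∈ Gs u, Cert b (low Fr rk (m u)) (c u) fun y => γ κ (O y)) →
      ∀ β, One b (low Fr rk (m u)) (s u) fun y => A u β κ (O y)) →
    8 ≤ Q → (∀ i, Pa (i + 1) ⊆ Pa i) → (∀ i, ∀ π ∈ Pa i, 2 * (Pa i).card ≤ 2 ^ f π) →
    (∀ i, ∀ π ∈ Pa (i + 1), Disjoint (C π) (kill i)) → Fat (Pa 0) C f Q (4 * L) Frᶜ →
    ∑ o ∈ I, (1 / 2 : ℝ) ^ (3 * m o) ≤ 1 / 32 →
    (∀ i < L, ∀ b On s', Sys Rel b On → Frᶜ ⊆ b → Fat (Pa i) C f Q (s' + 2) b →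
      ∃ b', b ⊆ b' ∧ Fat (Pa i) C f Q s' b' ∧ ∃ B : Finset (V → V),
        (B.card : ℝ) ≤ 20 * (∑ o ∈ I with ly o = i, (1 / 2) ^ (3 * m o)) * 𝒦.card ∧
        ∀ κ ∈ 𝒦, κ ∉ B → Out Fr rk Cd ly m P reg (fun u β => A u β κ) i b (On κ) →
          Cer Cp b (On κ) → ∀ o ∈ I, ly o = i → ∀ γ ∈ Gs o,
            Cert b' (low Fr rk (m o)) (c o) fun y => γ κ (On κ y)) →
    (∀ u ∈ Cd, ∀ κ ∈ 𝒦, ∀ b O, Out Fr rk Cd ly m P reg (fun u β => A u β κ) (ly u) b O →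
      Fat (Pa (ly u)) C f Q 0 b → ∀ x, b ∪ kill (ly u) ⊆ x → ∀ T : Finset V, T.card ≤ 2 * s u →
      ∃ y, b ⊆ y ∧ Agr T x y ∧ ¬(A u true κ (O y) ∧ A u false κ (O y))) →
    ∃ κ ∈ 𝒦, ∃ b O, Out Fr rk Cd ly m P reg (fun u β => A u β κ) L b O ∧ Fat (Pa L) C f Q 0 b ∧
      ∀ o ∈ I, ∀ γ ∈ Gs o, Cert b (low Fr rk (m o)) (c o) fun y => γ κ (O y)

open Classical in
/-- The value at the node `j` of the tree of height `i` with leaves `a`; the node `j` has the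
children `w ++ j` with `w` eight times as long as `j`. -/
noncomputable def nw : ℕ → Lang → Lang
  | 0, a => a
  | i + 1, a => fun j => decide (∃ w : List Bool, w.length = 8 * j.length ∧ nw i a (w ++ j) = false)

/-- A row of the oracle. -/
def rowOf (A : Lang) (u : List Bool) : Lang := fun j => A (ad u j 0)

/-- The parity of the number of true roots among the first `P` roots with names of length `r`. -/
def prt (P r : ℕ) (a : Lang) : Bool :=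
  ((range P).filter fun i => a (h22p.rt r i) = true).card.bodd

/-- The size of the certificates after a round. -/
def cw : ℕ → ℕ → ℕ
  | 0, t => t ^ 2
  | h + 1, t => 60 * (t * cw h t) ^ 5

/-- The data of a stage. -/
structure Env where
  I : Finset (List Bool)
  lv : List Bool → ℕ
  rl : List Bool → ℕ
  m : List Bool → ℕ
  ly : List Bool → ℕ
  mu : List Bool → Lang → Bool
  nu : List Bool → Lang → Bool
  G : List Bool → ℕ → Finset (Lang → Bool)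
  A₀ : Lang
  x : List Bool
  n : ℕ
  a : ℕ
  d : ℕ
  L : ℕ
  Q : ℕ
  T : ℕ

/-- A function of the oracle that reads only strings shorter than `t`. -/
def Loc (t : ℕ) (f : Lang → Bool) : Prop :=
  ∀ A A' : Lang, (∀ s, s.length < t → A s = A' s) → f A = f A'

namespace Env

variable (E : Env)

/-- The row `v` stores the right bit. -/
def Leg (A : Lang) (v : List Bool) : Prop :=
  prt v.length (E.rl v) (nw (E.lv v) (rowOf A v)) = E.mu v A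

/-- The hypotheses on the data of a stage. -/
structure Ok : Prop where
  len : ∀ u ∈ E.I, E.n ≤ u.length ∧ E.a ≤ E.rl u ∧ 1 ≤ E.m u ∧ 8 * E.m u ≤ E.rl u ∧
    5 * E.m u + E.L + 2 ≤ u.length ∧ u.length ≤ 2 ^ E.rl u ∧ 9 ^ E.lv u * E.rl u ≤ E.T ∧
    E.ly u < E.L
  lay : ∀ u ∈ E.I, ∀ v ∈ E.I, E.rl v < E.m u → E.ly v < E.ly u
  g0 : ∀ u ∈ E.I, ∀ g ∈ E.G u 0, DT (E.m u) g
  gs : ∀ u ∈ E.I, ∀ i, i < E.lv u → i < E.d → ∀ g ∈ E.G u (i + 1),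
    IsOr ((E.G u i : Set _) ∪ {g | DT 1 g}) (E.m u) g
  gc : ∀ u ∈ E.I, ∀ i, (E.G u i).card ≤ 2 ^ (E.m u + 1)
  top : ∀ u ∈ E.I, E.lv u ≤ E.d →
    IsOr ((E.G u (E.lv u) : Set _) ∪ {g | DT 1 g}) (E.m u) (E.mu u) ∧
    IsOr ((E.G u (E.lv u) : Set _) ∪ {g | DT 1 g}) (E.m u) (E.nu u)
  loc : ∀ u ∈ E.I, Loc (E.m u) (E.mu u) ∧ Loc (E.m u) (E.nu u)
  prom : ∀ A, h70.Agl E.n E.A₀ A → ∀ u ∈ E.I, E.lv u ≤ E.d →
    (∀ v ∈ E.I, v ≠ E.x → E.ly v < E.ly u → E.Leg A v) → E.nu u A = !E.mu u A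
  pad : ∀ u ∈ E.I, E.lv u ≤ E.d → 6 * E.m u ^ 3 * cw (E.lv u) (E.m u) ≤ E.rl u
  sum : ∑ u ∈ E.I, (1 / 2 : ℝ) ^ (3 * E.m u) ≤ 1 / 32
  hQ : ∀ u ∈ E.I, 10000 * (E.m u * cw E.d (E.m u)) ^ 9 ≤ E.Q
  pow : E.Q ^ (4 * E.L + 1) ≤ 2 ^ E.a
  card : E.I.card ≤ 2 ^ E.T
  hT : 2 * E.T + 2 ≤ 2 ^ E.a
  hx : E.x ∈ E.I ∧ E.d < E.lv E.x

/-- The nodes of the forest. -/
abbrev Nd : Type := E.I × Node E.T

/-- The rank of a node: the length of the addresses of the leaves of its row. -/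
def rk (v : E.Nd) : ℕ := 9 ^ E.lv v.1 * E.rl v.1

/-- The nodes of height `h` that are not roots. -/
def Fr (h : ℕ) : Finset E.Nd :=
  univ.filter fun v => h < E.lv v.1 ∧ v.2.1.length = 9 ^ (E.lv v.1 - h) * E.rl v.1

/-- The children of a node. -/
def ch (π : E.Nd) : Finset E.Nd :=
  univ.filter fun v => v.1 = π.1 ∧ v.2.1.length = 9 * π.2.1.length ∧
    v.2.1.drop (8 * π.2.1.length) = π.2.1

/-- The nodes of height `h + 1` without the last `i` roots of the rows of level `h + 1`. -/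
def Pa (h i : ℕ) : Finset E.Nd :=
  univ.filter fun v => h < E.lv v.1 ∧ v.2.1.length = 9 ^ (E.lv v.1 - h - 1) * E.rl v.1 ∧
    ¬(E.lv v.1 = h + 1 ∧ v.1.1.length ≤ PolyT.ofBits v.2.1 + i ∧ PolyT.ofBits v.2.1 < v.1.1.length)

/-- The children of the spare roots of the layer `i`. -/
def kill (h i : ℕ) : Finset E.Nd :=
  univ.filter fun v => E.lv v.1 = h + 1 ∧ v.2.1.length = 9 * E.rl v.1 ∧
    PolyT.ofBits (v.2.1.drop (8 * E.rl v.1)) + i + 1 = v.1.1.length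

/-- The number of children that stay alive. -/
def ft (π : E.Nd) : ℕ := 2 ^ (7 * π.2.1.length)

/-- What is needed to fill the rows of level above `h`. -/
structure Hgt (h : ℕ) (b : Finset E.Nd) (σ : Finset E.Nd → Lang) : Prop where
  tree : ∀ y, b ⊆ y → ∀ v ∈ E.Fr h, nw h (rowOf (σ y) v.1) v.2.1 = true ↔ v ∈ y
  loc : ∀ y y' t, b ⊆ y → b ⊆ y' → (∀ v, E.rk v < t → (v ∈ y' ↔ v ∈ y)) →
    ∀ s, s.length < t → σ y' s = σ y s

/-- The invariant after the round `h`. -/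
structure Inv (h : ℕ) (b : Finset E.Nd) (σ : Finset E.Nd → Lang) : Prop where
  agl : ∀ y, b ⊆ y → h70.Agl E.n E.A₀ (σ y)
  tree : ∀ y, b ⊆ y → ∀ v ∈ E.Fr h, nw h (rowOf (σ y) v.1) v.2.1 = true ↔ v ∈ y
  bits : ∀ t s, s.length < t → Cert b (low (E.Fr h) E.rk t) (cw h t) fun y => σ y s = true
  code : ∀ y, b ⊆ y → ∀ v ∈ E.I, E.lv v ≤ h → E.nu v (σ y) = !E.mu v (σ y) → E.Leg (σ y) v
  gate : ∀ o ∈ E.I, h ≤ E.lv o → ∀ g ∈ E.G o h,
    Cert b (low (E.Fr h) E.rk (E.m o)) (cw h (E.m o)) fun y => g (trunc (E.m o) (σ y)) = true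
  fat : Fat (E.Pa h E.L) E.ch E.ft E.Q 0 b

end Env

/-- Certificates of small circuits. -/
def CircStmt : Prop :=
  ∀ (V : Type) [Fintype V] [DecidableEq V] (b S : Finset V) (c w : ℕ) (τ : Finset V → Lang)
    (G : Set (Lang → Bool)), (∀ s, Cert b S c fun y => τ y s = true) →
    (∀ g ∈ G, Cert b S c fun y => g (τ y) = true) →
    (∀ f : Lang → Bool, DT w f → Cert b S (w * c) fun y => f (τ y) = true) ∧
    ∀ f : Lang → Bool, IsOr (G ∪ {g | DT 1 g}) w f → One b S (w * c) fun y => f (τ y) = true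

/-- The rows of level above `h` can be filled without touching a small set: `sp v` is the number
of the spare root of the row `v`, and `D v` decodes the values of the roots. -/
def FillStmt : Prop :=
  ∀ (E : Env), E.Ok → ∀ (h : ℕ) (b x T : Finset E.Nd) (σ : Finset E.Nd → Lang)
    (tg D : List Bool → Lang → Bool) (sp : List Bool → ℕ), E.Hgt h b σ → b ⊆ x → T.card ≤ E.Q →
    (∀ v ∈ E.I, Loc (E.m v) (tg v)) →
    (∀ v ∈ E.I, ∀ a a' : Lang, (∀ j, j.length = E.rl v → a j = a' j) → D v a = D v a') →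
    (∀ v ∈ E.I, ∀ a a' : Lang, (∀ j, j.length = E.rl v → j ≠ h22p.rt (E.rl v) (sp v) → a j = a' j) →
      a (h22p.rt (E.rl v) (sp v)) ≠ a' (h22p.rt (E.rl v) (sp v)) → D v a ≠ D v a') →
    (∀ π : E.Nd, h + 1 < E.lv π.1 → π.2.1.length = 9 ^ (E.lv π.1 - h - 1) * E.rl π.1 →
      E.ft π ≤ (E.ch π \ b).card) →
    (∀ π : E.Nd, E.lv π.1 = h + 1 → π.2.1 = h22p.rt (E.rl π.1) (sp π.1) →
      E.ft π ≤ (E.ch π \ b).card ∧ E.ch π ⊆ x) →
    ∃ y, b ⊆ y ∧ Agr T x y ∧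
      ∀ v ∈ E.I, h < E.lv v → D v (nw (E.lv v) (rowOf (σ y) v)) = tg v (σ y)

/-- The promise holds at a point that extends a small partial assignment. -/
def LegStmt : Prop :=
  ∀ (E : Env), E.Ok → ∀ (h i : ℕ) (b x T : Finset E.Nd) (σ : Finset E.Nd → Lang), h ≤ E.d →
    i ≤ E.L → E.Hgt h b σ → (∀ y, b ⊆ y → h70.Agl E.n E.A₀ (σ y)) →
    Fat (E.Pa h i) E.ch E.ft E.Q 0 b →
    (∀ y, b ⊆ y → ∀ v ∈ E.I, E.lv v < h ∨ (E.lv v = h ∧ E.ly v < i) →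
      E.nu v (σ y) = !E.mu v (σ y) → E.Leg (σ y) v) →
    b ∪ E.kill h i ⊆ x → T.card ≤ E.Q →
    ∃ y, b ⊆ y ∧ Agr T x y ∧
      ∀ u ∈ E.I, E.lv u ≤ E.d → E.ly u ≤ i → E.nu u (σ y) = !E.mu u (σ y)

/-- Counting facts about the forest. -/
def ForStmt : Prop :=
  ∀ (E : Env), E.Ok → ∀ h : ℕ,
    (∀ i, E.Pa h (i + 1) ⊆ E.Pa h i) ∧
    (∀ i, ∀ π ∈ E.Pa h i, 2 * (E.Pa h i).card ≤ 2 ^ E.ft π) ∧
    (∀ i, ∀ π ∈ E.Pa h (i + 1), Disjoint (E.ch π) (E.kill h i)) ∧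
    Fat (E.Pa h 0) E.ch E.ft E.Q (4 * E.L) (E.Fr h)ᶜ ∧
    (∀ i, ∀ π ∈ E.Pa h i, E.ch π ⊆ E.Fr h) ∧
    (∀ π π' v, v ∈ E.ch π → v ∈ E.ch π' → π = π') ∧
    ∑ v ∈ E.Fr h, (1 / 2 : ℝ) ^ (3 * E.m v.1 + v.2.1.length) ≤ 1

/-- The round without keys. -/
def BaseStmt : Prop := ∀ (E : Env), E.Ok → ∃ b σ, E.Inv 0 b σ

/-- A round with keys. -/
def StepStmt : Prop :=
  ∀ (E : Env), E.Ok → ∀ h < E.d, ∀ b σ, E.Inv h b σ → ∃ b' σ', E.Inv (h + 1) b' σ'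

/-- The combinatorial core of a stage. -/
def CoreStmt : Prop :=
  ∀ (E : Env), E.Ok → ∀ o ∈ E.I, E.d ≤ E.lv o → ∀ f ∈ E.G o E.d, Loc (E.m o) f →
    ∃ A, h70.Agl E.n E.A₀ A ∧ (∀ v ∈ E.I, v ≠ E.x → E.Leg A v) ∧
      f A ≠ nw (E.lv E.x) (rowOf A E.x) (h22p.rt (E.rl E.x) 0)

end Pool.Agent.MP_a2d820_lc.h31p
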