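import Mathlib
import Pool.Agent.MP_a2d820_lc.h31p.Spec

/-! The round without keys. -/

set_option autoImplicit false

namespace Pool.Agent.MP_a2d820_lc.h31p

open Finset Pool.Agent.MP_a2d820_lc.h69 Pool.Agent.PolyT Pool.Agent.H82 N487b59b3

namespace Base

section Cube

variable {V : Type}

theorem one_mono {b S S' : Finset V} {c c' : ℕ} {f g : Finset V → Prop} (h : One b S c f)
    (hS : S ⊆ S') (hc : c ≤ c') (e : ∀ y, f y ↔ g y) : One b S' c' g := fun y hy hg => by
  obtain ⟨D, h1, h2, h3⟩ := h y hy ((e y).2 hg)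
  exact ⟨D, h1.trans hS, h2.trans hc, fun y' a a' => (e y').1 (h3 y' a a')⟩

theorem cert_mono {b S S' : Finset V} {c c' : ℕ} {f g : Finset V → Prop} (h : Cert b S c f)
    (hS : S ⊆ S') (hc : c ≤ c') (e : ∀ y, f y ↔ g y) : Cert b S' c' g :=
  ⟨one_mono h.1 hS hc e, one_mono h.2 hS hc fun y => not_congr (e y)⟩

theorem cert_const (b S : Finset V) (c : ℕ) (p : Prop) : Cert b S c fun _ => p :=
  ⟨fun _ _ h => ⟨∅, empty_subset _, by simp, fun _ _ _ => h⟩,
    fun _ _ h => ⟨∅, empty_subset _, by simp, fun _ _ _ => h⟩⟩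

theorem cert_loc {b S y y' : Finset V} {c : ℕ} {f : Finset V → Prop} (h : Cert b S c f)
    (hy : b ⊆ y) (hy' : b ⊆ y') (e : ∀ v ∈ S, v ∈ y' ↔ v ∈ y) : f y' ↔ f y := by
  by_cases hf : f y
  · obtain ⟨D, h1, -, h3⟩ := h.1 y hy hf
    exact iff_of_true (h3 y' hy' fun v hv => e v (h1 hv)) hf
  · obtain ⟨D, h1, -, h3⟩ := h.2 y hy hf
    exact iff_of_false (h3 y' hy' fun v hv => e v (h1 hv)) hf

end Cube

theorem length_le_ad (u j : List Bool) (b : ℕ) : j.length ≤ (ad u j b).length := by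
  simp only [ad, length_enc_pair, PolyT.Poly.enc_bools_length]
  omega

theorem one_le_cw (h : ℕ) {t : ℕ} (ht : 1 ≤ t) : 1 ≤ cw h t := by
  induction h with
  | zero => exact Nat.one_le_pow _ _ ht
  | succ h ih =>
    have : 1 ≤ (t * cw h t) ^ 5 := Nat.one_le_pow _ _ (Nat.mul_pos ht ih)
    simp only [cw]
    omega

variable (E : Env)

open Classical in
/-- The oracle whose leaves are given by a set of nodes. -/
noncomputable def Om (O : Finset E.Nd) : Lang := fun s =>
  if ∃ v : E.Nd, v.2.1.length = E.rk v ∧ s = ad v.1 v.2.1 0 then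
    decide (∃ v ∈ O, v.2.1.length = E.rk v ∧ s = ad v.1 v.2.1 0) else E.A₀ s

variable {E}

theorem om_ad (O : Finset E.Nd) {v : E.Nd} (hv : v.2.1.length = E.rk v) :
    Om E O (ad v.1 v.2.1 0) = true ↔ v ∈ O := by
  rw [Om, if_pos ⟨v, hv, rfl⟩, decide_eq_true_eq]
  refine ⟨fun ⟨w, hw, _, e⟩ => ?_, fun h => ⟨v, h, hv, rfl⟩⟩
  obtain ⟨e1, e2, -⟩ := ad_inj e
  rwa [show v = w from Prod.ext (Subtype.ext e1) (Subtype.ext e2)]

theorem om_not (O : Finset E.Nd) {s : List Bool}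
    (h : ¬∃ v : E.Nd, v.2.1.length = E.rk v ∧ s = ad v.1 v.2.1 0) : Om E O s = E.A₀ s := by
  rw [Om, if_neg h]

theorem om_loc {O O' : Finset E.Nd} {t : ℕ} (h : ∀ r, E.rk r < t → (r ∈ O' ↔ r ∈ O))
    (s : List Bool) (hs : s.length < t) : Om E O' s = Om E O s := by
  by_cases hv : ∃ v : E.Nd, v.2.1.length = E.rk v ∧ s = ad v.1 v.2.1 0
  · obtain ⟨v, hv, rfl⟩ := hv
    rw [Bool.eq_iff_iff, om_ad _ hv, om_ad _ hv]
    exact h v (hv ▸ (length_le_ad _ _ _).trans_lt hs)
  · rw [om_not _ hv, om_not _ hv]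

theorem trunc_congr {t : ℕ} {A A' : Lang} (h : ∀ s, s.length < t → A s = A' s) :
    trunc t A = trunc t A' := by
  funext s
  by_cases hs : s.length < t <;> simp [trunc, hs, h]

theorem agl (hE : E.Ok) (O : Finset E.Nd) : h70.Agl E.n E.A₀ (Om E O) := fun s hs =>
  (om_not O fun ⟨v, _, e⟩ => by
    rw [e, lev_ad] at hs
    exact absurd (hE.len _ v.1.2).1 (by omega)).symm

/-- The roots of a row. -/
def reg (hE : E.Ok) (u : E.I) (j : ℕ) : E.Nd :=
  (u, ⟨h22p.rt (E.rl u) j, by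
    rw [h22p.length_rt]
    exact (Nat.le_mul_of_pos_left _ (by positivity)).trans (hE.len _ u.2).2.2.2.2.2.2.1⟩)

/-- The two sets of a row. -/
def AA (E : Env) (u : E.I) (β : Bool) (O : Finset E.Nd) : Prop :=
  (bif β then E.mu u else E.nu u) (Om E O) = true

/-- The rows of level zero. -/
def Cd (E : Env) : Finset E.I := univ.filter fun u => E.lv u = 0

/-- The state after the layers below `i`. -/
abbrev St (hE : E.Ok) (i : ℕ) (b : Finset E.Nd) (O : Finset E.Nd → Finset E.Nd) : Prop :=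
  Out (E.Fr 0) E.rk (Cd E) (fun u => E.ly u) (fun u => E.m u) (fun u => u.1.length) (reg hE)
    (AA E) i b O

variable {hE : E.Ok} {i : ℕ} {b : Finset E.Nd} {O : Finset E.Nd → Finset E.Nd}

theorem bits (h : St hE i b O) {t : ℕ} {s : List Bool} (hs : s.length < t) :
    Cert b (low (E.Fr 0) E.rk t) t fun y => Om E (O y) s = true := by
  by_cases hv : ∃ v : E.Nd, v.2.1.length = E.rk v ∧ s = ad v.1 v.2.1 0
  · obtain ⟨v, hv, rfl⟩ := hv
    have h1 : E.rk v < t := hv ▸ (length_le_ad _ _ _).trans_lt hs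
    refine cert_mono (h.cert v) (fun w hw => ?_) h1.le fun y => (om_ad _ hv).symm
    rw [low, mem_filter] at hw ⊢
    exact ⟨hw.1, by omega⟩
  · exact cert_mono (cert_const b _ t (E.A₀ s = true)) subset_rfl le_rfl
      fun y => by rw [om_not _ hv]

theorem tbits (h : St hE i b O) (t : ℕ) (s : List Bool) :
    Cert b (low (E.Fr 0) E.rk t) t fun y => trunc t (Om E (O y)) s = true := by
  by_cases hs : s.length < t
  · exact cert_mono (bits h hs) subset_rfl le_rfl fun y => by simp [trunc, hs]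
  · exact cert_mono (cert_const b _ t False) subset_rfl le_rfl fun y => by simp [trunc, hs]

theorem hgt (h : St hE i b O) : E.Hgt 0 b fun y => Om E (O y) := by
  refine ⟨fun y hy v hv => ?_, fun y y' t hy hy' e => om_loc fun r hr => ?_⟩
  · rw [← h.free y hy v hv]
    exact om_ad _ (mem_filter.1 hv).2.2
  · exact cert_loc (h.cert r) hy hy' fun v hv => e v (by have := (mem_filter.1 hv).2; omega)

theorem code (h : St hE i b O) {y : Finset E.Nd} (hy : b ⊆ y) {v : List Bool} (hv : v ∈ E.I)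
    (h0 : E.lv v = 0) (hi : E.ly v < i) (e : E.nu v (Om E (O y)) = !E.mu v (Om E (O y))) :
    E.Leg (Om E (O y)) v := by
  have h1 := h.code ⟨v, hv⟩ (mem_filter.2 ⟨mem_univ _, h0⟩) hi y hy (E.mu v (Om E (O y))) (by
    unfold AA
    cases hm : E.mu v (Om E (O y))
    · rw [hm] at e; exact e
    · exact hm)
  rw [Env.Leg, ← h1, prt, h0]
  congr 2
  refine filter_congr fun j _ => om_ad (v := reg hE ⟨v, hv⟩ j) _ ?_
  simp [reg, Env.rk, h0]

end Base

open Base in
theorem baseS (hR : RoundStmt) (hC : CircStmt) (hL : LegStmt) (hF : ForStmt) : BaseStmt := by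
  intro E hE
  obtain ⟨f1, f2, f3, f4, -⟩ := hF E hE 0
  have hm : ∀ u : E.I, 1 ≤ E.m u := fun u => (hE.len _ u.2).2.2.1
  have hQ : ∀ u : E.I, 10000 * E.m u ^ 4 ≤ E.Q := fun u => by
    refine le_trans (Nat.mul_le_mul_left _ ?_) (hE.hQ _ u.2)
    exact (Nat.pow_le_pow_right (hm u) (by norm_num)).trans
      (Nat.pow_le_pow_left (Nat.le_mul_of_pos_right _ (one_le_cw _ (hm u))) 9)
  have hs : ∀ u : E.I, (5 * E.m u + 1) * (E.m u * cw 0 (E.m u)) ≤ 6 * E.m u ^ 4 := fun u => by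
    have := hm u
    calc (5 * E.m u + 1) * (E.m u * cw 0 (E.m u)) ≤ 6 * E.m u * (E.m u * E.m u ^ 2) :=
          Nat.mul_le_mul_right _ (by omega)
      _ = 6 * E.m u ^ 4 := by ring
  have h8 : 8 ≤ E.Q := by
    have h1 := hQ ⟨_, hE.hx.1⟩
    have h2 := Nat.one_le_pow 4 _ (hm ⟨_, hE.hx.1⟩)
    omega
  have hlv : ∀ u ∈ Cd E, E.lv u = 0 := fun u hu => (mem_filter.1 hu).2
  obtain ⟨κ, -, b, O, hO, hfat, hg⟩ := hR E.Nd E.I E.Nd univ (Cd E) {id} univ (E.Fr 0) E.rk
    (fun u => E.m u) (fun u => E.ly u) (fun u => E.m u * cw 0 (E.m u)) (fun u => cw 0 (E.m u))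
    (fun u => u.1.length) E.L E.Q (reg hE) (fun u β _ O => AA E u β O)
    (fun o => {γ | ∃ g ∈ E.G o 0, γ = fun _ O => g (trunc (E.m o) (Om E O)) = true})
    (fun _ _ => True) (E.Pa 0) E.ch E.ft (E.kill 0) (singleton_nonempty _) (subset_univ _)
    (fun o _ => ⟨(hE.len _ o.2).2.2.2.2.2.2.2, hm o⟩)
    (fun u hu j hj => ⟨fun h => absurd (mem_filter.1 h).2.1 (by simp [reg, hlv u hu]),
      fun u' _ j' hj' e => by
        obtain rfl : u = u' := congrArg Prod.fst e
        have e2 : h22p.rt (E.rl u) j = h22p.rt (E.rl u) j' := congrArg (fun v : E.Nd => v.2.1) e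
        have key : ∀ k < u.1.length, ofBits (h22p.rt (E.rl u) k) = k := fun k hk =>
          ofBits_dig (by simpa using hk.trans_le (hE.len _ u.2).2.2.2.2.2.1)
        exact ⟨rfl, by rw [← key j hj, e2, key j' hj']⟩⟩)
    (fun u hu => ⟨by have := (hE.len _ u.2).2.2.2.2.1; omega,
      by have := hs u; have := hQ u; omega, fun j _ => by
        have e : E.rk (reg hE u j) = E.rl u := by simp [reg, Env.rk, hlv u hu]
        rw [e]
        refine ⟨mem_univ _, (hs u).trans (le_trans ?_ (hE.pad _ u.2 (by rw [hlv u hu]; omega))),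
          (hE.len _ u.2).2.2.2.1, fun o _ h => hE.lay _ o.2 _ u.2 h, fun _ _ _ => trivial⟩
        rw [hlv u hu, cw, mul_assoc, ← pow_add]
        exact Nat.mul_le_mul_left _ (Nat.pow_le_pow_right (hm u) (by norm_num))⟩)
    (subset_univ _)
    (fun v _ => ⟨by
      have h1 := (hE.len _ v.1.2).2.2.2.1
      have h2 := hm v.1
      exact Nat.mul_pos (by positivity) (by omega), trivial⟩)
    (fun u _ β _ _ O _ O' _ e h => by
      unfold AA at h ⊢
      rw [← h]
      cases β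
      · exact (hE.loc _ u.2).2 _ _ (om_loc e)
      · exact (hE.loc _ u.2).1 _ _ (om_loc e))
    (fun _ _ _ _ _ _ _ h => h)
    (fun o _ γ hγ _ _ O _ O' _ e h => by
      obtain ⟨g, -, rfl⟩ := hγ
      show g _ = true
      rw [trunc_congr (om_loc e)]
      exact h)
    (fun u hu κ _ b O hO hγ β => by
      have h1 := (hC E.Nd b (low (E.Fr 0) E.rk (E.m u)) (cw 0 (E.m u)) (E.m u)
        (fun y => trunc (E.m u) (Om E (O y))) (E.G u 0)
        (fun s => cert_mono (tbits hO _ s) subset_rfl (Nat.le_self_pow two_ne_zero _)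
          fun _ => Iff.rfl) (fun g hg => hγ _ ⟨g, hg, rfl⟩)).2
      have h2 := hE.top _ u.2 (by rw [hlv u hu]; omega)
      rw [hlv u hu] at h2
      have h3 : ∀ y s, s.length < E.m u → trunc (E.m u) (Om E (O y)) s = Om E (O y) s :=
        fun y s h => by simp [trunc, h]
      cases β
      · exact one_mono (h1 _ h2.2) subset_rfl le_rfl fun y => by
          rw [(hE.loc _ u.2).2 _ _ (h3 y)]; rfl
      · exact one_mono (h1 _ h2.1) subset_rfl le_rfl fun y => by
          rw [(hE.loc _ u.2).1 _ _ (h3 y)]; rfl)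
    h8 f1 f2 f3 f4
    (by rw [sum_coe_sort E.I fun u => (1 / 2 : ℝ) ^ (3 * E.m u)]; exact hE.sum)
    (fun i _ b On s' _ _ hb => ⟨b, subset_rfl, fun π hπ => le_trans
      (Nat.mul_le_mul_left _ (Nat.pow_le_pow_right (by omega) (by omega))) (hb π hπ), ∅,
      by rw [card_empty, Nat.cast_zero]; positivity, fun κ _ _ hO _ o _ _ γ hγ => by
        obtain ⟨g, hg, rfl⟩ := hγ
        exact cert_mono ((hC E.Nd b (low (E.Fr 0) E.rk (E.m o)) (E.m o) (E.m o)
          (fun y => trunc (E.m o) (Om E (On κ y))) ∅ (tbits hO _) (fun _ h => h.elim)).1 g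
          (hE.g0 _ o.2 g hg)) subset_rfl (sq _).ge fun _ => Iff.rfl⟩)
    (fun u hu κ _ b O hO hb x hx T hT => by
      obtain ⟨y, h1, h2, h3⟩ := hL E hE 0 (E.ly u) b x T (fun y => Om E (O y)) (Nat.zero_le _)
        (hE.len _ u.2).2.2.2.2.2.2.2.le (hgt hO) (fun y _ => agl hE _) hb
        (fun y hy v hv h e => code hO hy hv (h.resolve_left (Nat.not_lt_zero _)).1
          (h.resolve_left (Nat.not_lt_zero _)).2 e) hx (by
          have a1 := hs u
          have a2 := hQ u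
          have a3 : 2 * (E.m u * cw 0 (E.m u)) ≤ (5 * E.m u + 1) * (E.m u * cw 0 (E.m u)) :=
            Nat.mul_le_mul_right _ (by have := hm u; omega)
          omega)
      refine ⟨y, h1, h2, fun ⟨a1, a2⟩ => ?_⟩
      have h4 := h3 _ u.2 (by rw [hlv u hu]; omega) le_rfl
      have a3 : E.mu u (Om E (O y)) = true := a1
      have a4 : E.nu u (Om E (O y)) = true := a2
      rw [a3, a4] at h4
      exact absurd h4 (by decide))
  exact ⟨b, fun y => Om E (O y), fun y _ => agl hE _, (hgt hO).tree,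
    fun t s h => cert_mono (bits hO h) subset_rfl (Nat.le_self_pow two_ne_zero _) fun _ => Iff.rfl,
    fun y hy v hv h e => code hO hy hv (Nat.le_zero.1 h) (hE.len _ hv).2.2.2.2.2.2.2 e,
    fun o ho _ g h => hg ⟨o, ho⟩ (mem_univ _) _ ⟨g, h, rfl⟩, hfat⟩

end Pool.Agent.MP_a2d820_lc.h31p
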