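import Pool.Agent.MP_a2d820_lc.h31p.Spec

/-! A family of gates gets certificates. -/

set_option autoImplicit false

namespace Pool.Agent.MP_a2d820_lc.h31p

open Finset Pool.Agent.MP_a2d820_lc.h69

namespace Conv

variable {V : Type} [Fintype V] [DecidableEq V]

/-- The union bound. -/
theorem pr_union {ι : Type} {q : ℝ} (h0 : 0 ≤ q) (h1 : q ≤ 1) (J : Finset ι)
    (E : ι → Finset V → Prop) (F : Finset V → Prop) (h : ∀ z, F z → ∃ t ∈ J, E t z) :
    Pr q F ≤ ∑ t ∈ J, Pr q (E t) := by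
  classical
  have hw : ∀ z : Finset V, 0 ≤ wt q z := fun z =>
    mul_nonneg (pow_nonneg (sub_nonneg.2 h1) _) (pow_nonneg h0 _)
  have hn : ∀ t z, 0 ≤ if E t z then wt q z else 0 := fun t z => by
    split_ifs
    · exact hw z
    · exact le_rfl
  unfold Pr
  rw [sum_comm]
  refine sum_le_sum fun z _ => ?_
  by_cases k : F z
  · obtain ⟨t, ht, e⟩ := h z k
    rw [if_pos k]
    refine le_trans ?_ (single_le_sum (fun t _ => hn t z) ht)
    rw [if_pos e]
  · rw [if_neg k]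
    exact sum_nonneg fun t _ => hn t z

omit [Fintype V] [DecidableEq V] in
theorem ch_mono {b y y' : Finset V} {A : Bool → Finset V → Prop} {j : ℕ} (h : y ⊆ y')
    (k : Ch b A j y) : Ch b A j y' := by
  cases j with
  | zero => trivial
  | succ j =>
    obtain ⟨c, h1, h2, h3⟩ := k
    exact ⟨c, h1, h2.trans h, h3⟩

theorem num {m : ℕ} (h : 1 ≤ m) :
    ((5 * m + 2 : ℕ) : ℝ) * (1 / 2) ^ (8 * m) ≤ (1 / 2) ^ (5 * m) := by
  have h1 : 5 * m + 2 ≤ 2 ^ (3 * m) := by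
    induction m, h using Nat.le_induction with
    | base => norm_num
    | succ m _ ih =>
      rw [show 3 * (m + 1) = 3 * m + 3 by ring, pow_add]
      omega
  have h2 : ((5 * m + 2 : ℕ) : ℝ) ≤ 2 ^ (3 * m) := by exact_mod_cast h1
  calc _ ≤ (2 : ℝ) ^ (3 * m) * (1 / 2) ^ (8 * m) := by gcongr
    _ = _ := by
      rw [show 8 * m = 3 * m + 5 * m by ring, pow_add, ← mul_assoc, ← mul_pow]
      norm_num

end Conv

open Conv in
theorem convS (hG : GateStmt) (hU : UpStmt) (hZ : ZeroStmt) (hS : SparseStmt) (hP : ParStmt) :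
    ConvStmt := by
  classical
  intro V ι ι' _ _ K Rel b₀ Fr b rk lam On J g S₀ m w P C f Q s hK hOn hFr hQ hJ hf hfat
  have p1 : ∀ t ∈ J, ∀ i, 1 ≤ i → i ≤ 9 → w t ≤ w t ^ i ∧ w t ^ i ≤ w t ^ 9 := fun t ht i h1 h9 =>
    ⟨Nat.le_self_pow (by omega) _,
      Nat.pow_le_pow_right ((hJ t ht).1.trans (hJ t ht).2.1) h9⟩
  choose! U Good hc hB hN using fun t (ht : t ∈ J) =>
    hG V K Rel b₀ Fr b (S₀ t) rk lam On (g t) Q (m t) (w t) hK hOn hFr (hJ t ht).1 (hJ t ht).2.1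
      (by have := (p1 t ht 9 (by omega) le_rfl).1; have := (hJ t ht).2.2.1; omega)
      (hJ t ht).2.2.2.1 (hJ t ht).2.2.2.2
  have hQ' : (8 : ℝ) ≤ Q := by exact_mod_cast hQ
  have q0 : (0 : ℝ) < 4 / Q := by positivity
  have q1 : (4 : ℝ) / Q ≤ 1 / 2 := by
    rw [div_le_iff₀ (by linarith)]
    linarith
  have q2 : ∀ a n : ℕ, 4 * a * n ≤ Q → (a : ℝ) * (4 / Q) * n ≤ 1 := fun a n h => by
    have h' : (4 : ℝ) * a * n ≤ Q := by exact_mod_cast h
    rw [mul_right_comm, ← mul_div_assoc, div_le_one (by linarith)]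
    linarith
  set ε : ℝ := ∑ t ∈ J, (1 / 2) ^ (5 * m t) with hε
  have e0 : 0 ≤ ε := sum_nonneg fun _ _ => by positivity
  obtain ⟨b₁, hb₁, f₁, B₁, c₁, k₁⟩ := hS V ι' (V → V) (Fintype.piFinset K) P C f Q (s + 1) b
    (fun κ y => ∃ t ∈ J, Up (U t κ) (5 * m t) y) ε hQ hf hfat e0 fun κ _ =>
      (pr_union q0.le (by linarith) J (fun t z => Up (U t κ) (5 * m t) (b ∪ z)) _
        fun _ h => h).trans (sum_le_sum fun t ht => hU V _ b _ (300 * w t ^ 9) _ q0 q1
          (by exact_mod_cast q2 8 (300 * w t ^ 9) (by have := (hJ t ht).2.2.1; omega))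
          (hc t ht κ))
  choose! Bt ct kt using fun t (ht : t ∈ J) => hB t ht b₁
  obtain ⟨b₂, hb₂, f₂, B₂, c₂, k₂⟩ := hS V ι' (V → V) (Fintype.piFinset K) P C f Q s b₁
    (fun κ y => (∀ t ∈ J, Nice b₁ (low Fr rk (m t)) (5 * m t + 1) (30 * w t ^ 5)
        fun β y => g t (pt κ (On κ y)) ↔ β = true) ∧ ∃ t ∈ J, ∃ j ∈ range (5 * m t + 2),
      ¬Cert y (low Fr rk (m t)) (max (30 * w t ^ 5) (8 * m t))
        (Ch b₁ (fun β y => g t (pt κ (On κ y)) ↔ β = true) j)) ε hQ hf f₁ e0 fun κ _ => by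
      by_cases n : ∀ t ∈ J, Nice b₁ (low Fr rk (m t)) (5 * m t + 1) (30 * w t ^ 5)
        fun β y => g t (pt κ (On κ y)) ↔ β = true
      · refine (pr_union q0.le (by linarith) J _ _ fun _ h => h.2).trans
          (sum_le_sum fun t ht => ?_)
        refine (pr_union q0.le (by linarith) (range (5 * m t + 2)) _ _ fun _ h => h).trans ?_
        refine (sum_le_sum fun j _ => hZ V _ b₁ _ (30 * w t ^ 5) (8 * m t)
          (Ch b₁ (fun β y => g t (pt κ (On κ y)) ↔ β = true) j) (fun _ _ _ => ch_mono)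
          ((n t ht).2 j) q0 (by linarith) ?_).trans ?_
        · have := (p1 t ht 5 (by omega) (by omega)).2
          exact_mod_cast q2 2 (30 * w t ^ 5) (by have := (hJ t ht).2.2.1; omega)
        · rw [sum_const, card_range, nsmul_eq_mul]
          exact num (hJ t ht).1
      · exact (pr_union q0.le (by linarith) (∅ : Finset ι) (fun _ _ => True) _
          fun _ h => absurd h.1 n).trans (by simpa using e0)
  refine ⟨b₂, hb₁.trans hb₂, f₂, B₁ ∪ B₂ ∪ J.biUnion Bt, ?_, fun κ hκ hn hC t ht => ?_⟩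
  · have h1 : (B₁ ∪ B₂ ∪ J.biUnion Bt).card ≤ B₁.card + B₂.card + ∑ t ∈ J, (Bt t).card :=
      (card_union_le _ _).trans (add_le_add (card_union_le _ _) card_biUnion_le)
    have h2 : ((B₁ ∪ B₂ ∪ J.biUnion Bt).card : ℝ) ≤
        B₁.card + B₂.card + ∑ t ∈ J, ((Bt t).card : ℝ) := by exact_mod_cast h1
    have h3 : ∑ t ∈ J, ((Bt t).card : ℝ) ≤ 6 * ε * (Fintype.piFinset K).card := by
      rw [hε, mul_sum, sum_mul]
      exact sum_le_sum ct
    linarith
  · simp only [mem_union, not_or, mem_biUnion, not_exists, not_and] at hn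
    have n : ∀ t ∈ J, Nice b₁ (low Fr rk (m t)) (5 * m t + 1) (30 * w t ^ 5)
        fun β y => g t (pt κ (On κ y)) ↔ β = true := fun u hu =>
      hN u hu κ hκ hC b₁ hb₁ (by_contra fun x => hn.2 u hu (kt u hu κ hκ x))
        fun x => hn.1.1 (k₁ κ hκ ⟨u, hu, x⟩)
    have e : 60 * w t ^ 5 = 2 * max (30 * w t ^ 5) (8 * m t) := by
      have := (p1 t ht 5 (by omega) (by omega)).1
      have := (hJ t ht).2.1
      omega
    rw [e]
    exact (hP V b₁ _ _ (n t ht).1).2 _ b₂ _ _ (fun _ _ => Iff.rfl) hb₂ fun j hj =>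
      by_contra fun x => hn.1.2 (k₂ κ hκ ⟨n, t, ht, j, mem_range.2 (by omega), x⟩)

end Pool.Agent.MP_a2d820_lc.h31p
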