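import Pool.Agent.MP_a2d820_lc.h31p.Spec

/-!
The rounds are iterated and the remaining rows are filled.
-/

set_option autoImplicit false

namespace Pool.Agent.MP_a2d820_lc.h31p

open Finset Pool.Agent.MP_a2d820_lc.h69

namespace Cor

theorem ofBits_rt {r j : ℕ} (h : j < 2 ^ r) : PolyT.ofBits (h22p.rt r j) = j :=
  ofBits_dig (by simpa using h)

theorem prt_congr {P r : ℕ} {a a' : Lang} (h : ∀ j, j.length = r → a j = a' j) :
    prt P r a = prt P r a' := by
  simp only [prt, fun i => h _ (h22p.length_rt r i)]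

theorem prt_flip {P r i : ℕ} (hi : i < P) (hP : P ≤ 2 ^ r) {a a' : Lang}
    (h : ∀ j, j.length = r → j ≠ h22p.rt r i → a j = a' j)
    (h' : a (h22p.rt r i) ≠ a' (h22p.rt r i)) : prt P r a ≠ prt P r a' := by
  wlog ha : a (h22p.rt r i) = true generalizing a a'
  · exact (this (fun j j1 j2 => (h j j1 j2).symm) h'.symm (by
      revert ha h'
      cases a (h22p.rt r i) <;> cases a' (h22p.rt r i) <;> simp)).symm
  have ha' : ¬a' (h22p.rt r i) = true := fun e => h' (ha.trans e.symm)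
  have e : ((range P).filter fun k => a (h22p.rt r k) = true) =
      insert i ((range P).filter fun k => a' (h22p.rt r k) = true) := by
    ext k
    simp only [mem_filter, mem_range, mem_insert]
    by_cases hk : k = i
    · simp [hk, hi, ha]
    · refine (and_congr_right fun hk' => ?_).trans (or_iff_right hk).symm
      rw [h _ (h22p.length_rt r k) fun e => hk (by
        rw [← ofBits_rt (hk'.trans_le hP), e, ofBits_rt (hi.trans_le hP)])]
  rw [prt, prt, e, card_insert_of_notMem (by simp [ha']), Nat.bodd_succ]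
  exact Bool.not_ne_self _

theorem cert_loc {V : Type} [DecidableEq V] {b S y y' : Finset V} {c : ℕ} {f : Finset V → Prop}
    (h : Cert b S c f) (hy : b ⊆ y) (hy' : b ⊆ y') (e : ∀ v ∈ S, v ∈ y' ↔ v ∈ y) :
    f y' ↔ f y := by
  by_cases hf : f y
  · obtain ⟨D, d1, -, d2⟩ := h.1 y hy hf
    exact iff_of_true (d2 y' hy' fun v hv => e v (d1 hv)) hf
  · obtain ⟨D, d1, -, d2⟩ := h.2 y hy hf
    exact iff_of_false (d2 y' hy' fun v hv => e v (d1 hv)) hf

theorem inv_hgt {E : Env} {h : ℕ} {b : Finset E.Nd} {σ : Finset E.Nd → Lang} (H : E.Inv h b σ) :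
    E.Hgt h b σ :=
  ⟨H.tree, fun _ _ t a1 a2 e s hs => Bool.eq_iff_iff.2
    (cert_loc (H.bits t s hs) a1 a2 fun v hv => e v (mem_filter.1 hv).2)⟩

theorem loc_trunc {t : ℕ} {f : Lang → Bool} (h : Loc t f) (A : Lang) : f (trunc t A) = f A :=
  h _ _ fun s hs => by simp [trunc, hs]

theorem cw_pos {t : ℕ} (ht : 1 ≤ t) (h : ℕ) : 1 ≤ cw h t := by
  induction h with
  | zero => exact Nat.one_le_pow _ _ ht
  | succ h ih => exact Nat.mul_pos (by norm_num) (Nat.pow_pos (Nat.mul_pos ht ih))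

theorem cw_le {t : ℕ} (h : ℕ) : t * cw h t ≤ cw (h + 1) t :=
  (Nat.le_self_pow (by norm_num) _).trans (Nat.le_mul_of_pos_left _ (by norm_num))

theorem cw_mono {t : ℕ} (ht : 1 ≤ t) {h h' : ℕ} (e : h ≤ h') : cw h t ≤ cw h' t :=
  monotone_nat_of_le_succ (f := fun h => cw h t)
    (fun h => (Nat.le_mul_of_pos_left _ ht).trans (cw_le h)) e

theorem le_Q {E : Env} (ok : E.Ok) {u : List Bool} (hu : u ∈ E.I) {h : ℕ} (hh : h ≤ E.d) :
    10000 * (E.m u * cw h (E.m u)) ^ 9 ≤ E.Q :=
  (Nat.mul_le_mul_left _ (Nat.pow_le_pow_left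
    (Nat.mul_le_mul_left _ (cw_mono (ok.len u hu).2.2.1 hh)) _)).trans (ok.hQ u hu)

end Cor

open Cor

theorem coreS (hB : BaseStmt) (hS : StepStmt) (hF : FillStmt) : CoreStmt := by
  classical
  intro E ok o ho hd f hf hl
  have key : ∀ h ≤ E.d, ∃ b σ, E.Inv h b σ := by
    intro h
    induction h with
    | zero => exact fun _ => hB E ok
    | succ h ih =>
      intro hh
      obtain ⟨b, σ, H⟩ := ih (by omega)
      exact hS E ok h hh b σ H
  obtain ⟨b, σ, H⟩ := key E.d le_rfl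
  have hc := H.gate o ho hd f hf
  obtain ⟨T, t1, t2⟩ : ∃ T : Finset E.Nd, T.card ≤ cw E.d (E.m o) ∧
      ∀ y, b ⊆ y → Agr T univ y → f (σ y) = f (σ univ) := by
    simp only [loc_trunc hl] at hc
    by_cases h : f (σ univ) = true
    · obtain ⟨D, -, d1, d2⟩ := hc.1 univ (subset_univ _) h
      exact ⟨D, d1, fun y a1 a2 => (d2 y a1 a2).trans h.symm⟩
    · obtain ⟨D, -, d1, d2⟩ := hc.2 univ (subset_univ _) h
      exact ⟨D, d1, fun y a1 a2 => Bool.eq_iff_iff.2 (iff_of_false (d2 y a1 a2) h)⟩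
  have hT : T.card ≤ E.Q := by
    have h1 := le_Q ok ho le_rfl
    have h2 := Nat.le_self_pow (show 9 ≠ 0 by norm_num) (E.m o * cw E.d (E.m o))
    have h3 := Nat.le_mul_of_pos_left (cw E.d (E.m o)) (ok.len o ho).2.2.1
    omega
  have fat : ∀ π : E.Nd, π ∈ E.Pa E.d E.L → E.ft π ≤ (E.ch π \ b).card := fun π hπ => by
    simpa using H.fat π hπ
  obtain ⟨y, y1, y2, y3⟩ := hF E ok E.d b univ T σ
    (fun v => if v = E.x then fun _ => !f (σ univ) else E.mu v)
    (fun v a => if v = E.x then a (h22p.rt (E.rl v) 0) else prt v.length (E.rl v) a)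
    (fun _ => 0) (inv_hgt H) (subset_univ _) hT
    (fun v hv => by
      split_ifs
      exacts [fun _ _ _ => rfl, (ok.loc v hv).1])
    (fun v _ a a' h => by
      split_ifs
      exacts [h _ (h22p.length_rt _ _), prt_congr h])
    (fun v hv a a' h h' => by
      obtain ⟨-, -, -, -, a1, a2, -⟩ := ok.len v hv
      split_ifs
      exacts [h', prt_flip (by omega) a2 h h'])
    (fun π a1 a2 => fat π (mem_filter.2 ⟨mem_univ _, by omega, a2, fun h => by omega⟩))
    (fun π a1 a2 => ⟨fat π (mem_filter.2 ⟨mem_univ _, by omega, by simp [a1, a2], fun h => by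
      have := (ok.len _ π.1.2).2.2.2.2.1
      rw [a2, ofBits_rt (by positivity)] at h
      omega⟩), subset_univ _⟩)
  have leg : ∀ i, ∀ v ∈ E.I, v ≠ E.x → E.ly v < i → E.Leg (σ y) v := by
    intro i
    induction i with
    | zero => exact fun _ _ _ h => absurd h (Nat.not_lt_zero _)
    | succ i ih =>
      intro v hv hx hi
      rcases le_or_gt (E.lv v) E.d with h | h
      · exact H.code y y1 v hv h (ok.prom _ (H.agl y y1) v hv h fun v' a1 a2 a3 =>
          ih v' a1 a2 (by omega))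
      · simpa only [if_neg hx, Env.Leg] using y3 v hv h
  refine ⟨σ y, H.agl y y1, fun v hv hx => leg _ v hv hx (Nat.lt_succ_self _), ?_⟩
  have h := y3 E.x ok.hx.1 ok.hx.2
  simp only [if_true] at h
  rw [h, t2 y y1 y2]
  exact (Bool.not_ne_self _).symm

end Pool.Agent.MP_a2d820_lc.h31p
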