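import Pool.Agent.MP_a2d820_lc.h31p.Spec

/-!
The rows of high level can be filled without touching a small set.
-/

set_option autoImplicit false

namespace Pool.Agent.MP_a2d820_lc.h31p

open Finset Pool.Agent.MP_a2d820_lc.h69

namespace Fill

theorem nw_add (e h : ℕ) (a : Lang) : nw (e + h) a = nw e (nw h a) := by
  induction e with
  | zero => simp [nw]
  | succ e ih => rw [Nat.add_right_comm, nw, nw, ih]

theorem nw_loc {e : ℕ} {a a' : Lang} {j : List Bool}
    (h : ∀ w : List Bool, (w ++ j).length = 9 ^ e * j.length → a (w ++ j) = a' (w ++ j)) :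
    nw e a j = nw e a' j := by
  induction e generalizing j with
  | zero => exact h [] (by simp)
  | succ e ih =>
    simp only [nw, decide_eq_decide]
    refine exists_congr fun w => and_congr_right fun hw => ?_
    rw [ih fun w' hw' => ?_]
    rw [← List.append_assoc]
    refine h _ ?_
    rw [List.append_assoc, hw', List.length_append, hw, pow_succ]
    ring

theorem nw_succ (i : ℕ) (a : Lang) (j : List Bool) :
    nw (i + 1) a j = true ↔ ∃ w : List Bool, w.length = 8 * j.length ∧ nw i a (w ++ j) = false := by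
  simp [nw]

theorem nw_const (k : ℕ) (j : List Bool) : nw k (fun _ => true) j = !k.bodd := by
  induction k generalizing j with
  | zero => rfl
  | succ k ih =>
    rw [Nat.bodd_succ, Bool.not_not, Bool.eq_iff_iff, nw_succ]
    refine ⟨fun ⟨w, _, h⟩ => ?_, fun h => ⟨List.replicate (8 * j.length) false, by simp, ?_⟩⟩
    · simpa [ih] using h
    · simp [ih, h]

theorem nw_alt {k i : ℕ} {a : Lang} {j : List Bool}
    (h : ∀ w : List Bool, (w ++ j).length = 9 ^ k * j.length → nw i a (w ++ j) = true) :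
    nw (k + i) a j = !k.bodd := by
  rw [nw_add, ← nw_const k j]
  exact nw_loc h

theorem exists_str (S : Finset (List Bool)) (k : ℕ) (h : S.card < 2 ^ k) :
    ∃ w : List Bool, w.length = k ∧ w ∉ S := by
  by_contra hc
  push Not at hc
  have := Finset.card_le_card_of_injOn (s := (univ : Finset (List.Vector Bool k))) (t := S)
    List.Vector.toList (fun w _ => hc _ w.toList_length) (List.Vector.toList_injective.injOn)
  rw [card_univ, card_vector, Fintype.card_bool] at this
  omega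

variable {E : Env}

open Classical in
/-- The row of a set of nodes. -/
noncomputable def lg (y : Finset E.Nd) (v : E.I) : Lang := fun j =>
  decide (∃ hj : j.length ≤ E.T, ((v, ⟨j, hj⟩) : E.Nd) ∈ y)

theorem lg_iff (y : Finset E.Nd) (v : E.I) {j : List Bool} (hj : j.length ≤ E.T) :
    lg y v j = true ↔ ((v, ⟨j, hj⟩) : E.Nd) ∈ y := by
  simp only [lg, decide_eq_true_eq]
  exact ⟨fun ⟨_, h⟩ => h, fun h => ⟨hj, h⟩⟩

theorem len_le (ok : E.Ok) (v : E.I) {e : ℕ} (he : e ≤ E.lv v) : 9 ^ e * E.rl v ≤ E.T :=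
  (Nat.mul_le_mul_right _ (Nat.pow_le_pow_right (by norm_num) he)).trans
    (ok.len v v.2).2.2.2.2.2.2.1

theorem small (ok : E.Ok) {T : Finset E.Nd} (hT : T.card ≤ E.Q) (v : E.I) {k l : ℕ}
    (hl : l = 9 ^ k * E.rl v) : T.card < 2 ^ (7 * l) := by
  obtain ⟨-, h1, h2, h3, -⟩ := ok.len v v.2
  have h4 : E.rl v ≤ l := by
    rw [hl]
    exact Nat.le_mul_of_pos_left _ (by positivity)
  calc T.card ≤ E.Q := hT
    _ ≤ E.Q ^ (4 * E.L + 1) := Nat.le_self_pow (by omega) _
    _ ≤ 2 ^ E.a := ok.pow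
    _ < 2 ^ (7 * l) := Nat.pow_lt_pow_right (by norm_num) (by omega)

theorem root_eq (ok : E.Ok) {h : ℕ} {b y : Finset E.Nd} {σ : Finset E.Nd → Lang}
    (hH : E.Hgt h b σ) (hy : b ⊆ y) (v : E.I) {e : ℕ} (he : E.lv v = e + 1 + h) {j : List Bool}
    (hj : j.length = E.rl v) :
    nw (E.lv v) (rowOf (σ y) v) j = nw (e + 1) (lg y v) j := by
  rw [he, nw_add]
  refine nw_loc fun w hw => ?_
  rw [hj] at hw
  have h1 : (w ++ j).length ≤ E.T := hw ▸ len_le ok v (by omega)
  rw [Bool.eq_iff_iff, lg_iff y v h1]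
  refine hH.tree y hy (v, ⟨w ++ j, h1⟩) ?_
  simp only [Env.Fr, mem_filter, mem_univ, true_and]
  refine ⟨by omega, ?_⟩
  rw [hw, he, Nat.add_sub_cancel]

theorem mem_ch {π u : E.Nd} (h : u ∈ E.ch π) :
    ∃ w : List Bool, w.length = 8 * π.2.1.length ∧ u.1 = π.1 ∧ u.2.1 = w ++ π.2.1 := by
  simp only [Env.ch, mem_filter, mem_univ, true_and] at h
  obtain ⟨h1, h2, h3⟩ := h
  refine ⟨u.2.1.take (8 * π.2.1.length), ?_, h1, ?_⟩
  · rw [List.length_take]
    omega
  · conv_rhs => rw [← h3]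
    rw [List.length_drop, h2, show 9 * π.2.1.length - 8 * π.2.1.length = π.2.1.length by omega,
      List.take_append_drop]

open Classical in
/-- The two patterns below the spare roots. -/
noncomputable def pat (b x T : Finset E.Nd) (ρ : E.I → List Bool) (β : Bool) : Finset E.Nd :=
  univ.filter fun u =>
    if ρ u.1 <:+ u.2.1 then (if β = true then u ∉ T ∨ u ∈ x else u ∈ b ∨ (u ∈ T ∧ u ∈ x))
    else u ∈ x

variable {b x T : Finset E.Nd} {ρ : E.I → List Bool}

theorem sub_pat (hx : b ⊆ x) (β : Bool) : b ⊆ pat b x T ρ β := by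
  intro u hu
  simp only [pat, mem_filter, mem_univ, true_and]
  split_ifs
  · exact Or.inr (hx hu)
  · exact Or.inl hu
  · exact hx hu

theorem agr_pat (hx : b ⊆ x) (β : Bool) : Agr T x (pat b x T ρ β) := by
  intro u hu
  simp only [pat, mem_filter, mem_univ, true_and]
  split_ifs
  · simp [hu]
  · exact ⟨fun h => h.elim (fun h => hx h) fun h => h.2, fun h => Or.inr ⟨hu, h⟩⟩
  · rfl

theorem other (v : E.I) (e : ℕ) {j : List Bool} (hj : j.length = (ρ v).length) (hne : j ≠ ρ v) :
    nw e (lg (pat b x T ρ true) v) j = nw e (lg (pat b x T ρ false) v) j := by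
  refine nw_loc fun w _ => ?_
  have h : ¬ρ v <:+ w ++ j := fun h => hne
    ((List.suffix_of_suffix_length_le (List.suffix_append w j) h hj.le).eq_of_length hj)
  simp only [lg, pat, mem_filter, mem_univ, true_and, if_neg h]

theorem none_val (ok : E.Ok) (hT : T.card ≤ E.Q) (v : E.I) {e : ℕ} (he : e + 1 ≤ E.lv v)
    (hρ : (ρ v).length = E.rl v)
    (hf : ∀ π : E.Nd, π.1 = v → π.2.1.length = 9 ^ e * E.rl v → ρ v <:+ π.2.1 →
      E.ft π ≤ (E.ch π \ b).card) :
    nw (e + 1) (lg (pat b x T ρ false) v) (ρ v) = !e.bodd := by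
  refine nw_alt fun w hw => ?_
  rw [hρ] at hw
  have h1 : (w ++ ρ v).length ≤ E.T := hw ▸ len_le ok v (by omega)
  have h2 := hf (v, ⟨_, h1⟩) rfl hw (List.suffix_append _ _)
  have h3 := small ok hT v hw
  obtain ⟨u, hu, hu'⟩ := exists_mem_notMem_of_card_lt_card (h3.trans_le h2)
  obtain ⟨hu1, hu2⟩ := mem_sdiff.mp hu
  obtain ⟨w', h4, h5, h6⟩ := mem_ch hu1
  obtain ⟨u1, u2, h7⟩ := u
  simp only at h4 h5 h6
  subst h5 h6
  refine (nw_succ 0 _ _).mpr ⟨w', h4, ?_⟩
  rw [nw, ← Bool.not_eq_true, lg_iff _ _ h7]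
  have h8 : ρ u1 <:+ w' ++ (w ++ ρ u1) :=
    (List.suffix_append _ _).trans (List.suffix_append _ _)
  simp [pat, h8, hu2, hu']

theorem all_one (ok : E.Ok) (v : E.I) (he : 1 ≤ E.lv v) (hρ : (ρ v).length = E.rl v)
    (hf : ∀ π : E.Nd, π.1 = v → π.2.1 = ρ v → E.ch π ⊆ x) :
    nw 1 (lg (pat b x T ρ true) v) (ρ v) = false := by
  rw [← Bool.not_eq_true, nw_succ]
  rintro ⟨w, hw, h⟩
  have h0 : (ρ v).length ≤ E.T := by simpa [hρ] using len_le ok v (Nat.zero_le _)
  have h1 : (w ++ ρ v).length ≤ E.T := by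
    have := len_le ok v he
    rw [List.length_append, hw, hρ]
    omega
  have h2 : ((v, ⟨_, h1⟩) : E.Nd) ∈ x := by
    refine hf (v, ⟨_, h0⟩) rfl rfl ?_
    simp only [Env.ch, mem_filter, mem_univ, true_and]
    exact ⟨by rw [List.length_append, hw]; omega, List.drop_left' hw⟩
  rw [nw, ← Bool.not_eq_true, lg_iff _ _ h1] at h
  exact h (by simp [pat, h2])

theorem all_two (ok : E.Ok) (hT : T.card ≤ E.Q) (v : E.I) {e : ℕ} (he : e + 2 ≤ E.lv v)
    (hρ : (ρ v).length = E.rl v) :
    nw (e + 2) (lg (pat b x T ρ true) v) (ρ v) = !e.bodd := by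
  classical
  refine nw_alt fun w hw => ?_
  rw [hρ] at hw
  generalize hp : w ++ ρ v = p at hw
  have h3 := small ok hT v hw
  obtain ⟨w', h4, h5⟩ := exists_str
    (T.image fun u => (u.2.1.drop (72 * p.length)).take (8 * p.length)) (8 * p.length)
    ((card_image_le.trans_lt h3).trans_le (Nat.pow_le_pow_right (by norm_num) (by omega)))
  refine (nw_succ 1 _ _).mpr ⟨w', h4, ?_⟩
  rw [← Bool.not_eq_true, nw_succ]
  rintro ⟨w'', h6, h7⟩
  rw [List.length_append, h4] at h6
  have h8 : (w'' ++ (w' ++ p)).length ≤ E.T := by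
    have := len_le ok v he
    rw [pow_add, mul_right_comm, ← hw] at this
    simp only [List.length_append]
    omega
  rw [nw, ← Bool.not_eq_true, lg_iff _ _ h8] at h7
  have h9 : ρ v <:+ w'' ++ (w' ++ p) := by
    rw [← hp]
    exact ((List.suffix_append _ _).trans (List.suffix_append _ _)).trans (List.suffix_append _ _)
  have h10 : ((v, ⟨_, h8⟩) : E.Nd) ∉ T := fun h => h5 (mem_image.mpr ⟨_, h, by
    simp only
    rw [List.drop_left' (by omega), List.take_left' h4]⟩)
  exact h7 (by simp [pat, h9, h10])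

open Classical in
/-- The set of nodes with a pattern for each row. -/
noncomputable def yy (b x T : Finset E.Nd) (ρ : E.I → List Bool) (B : E.I → Bool) :
    Finset E.Nd := univ.filter fun u => u ∈ pat b x T ρ (B u.1)

theorem mem_yy (B : E.I → Bool) (u : E.Nd) : u ∈ yy b x T ρ B ↔ u ∈ pat b x T ρ (B u.1) := by
  simp [yy]

theorem lg_yy (B : E.I → Bool) (v : E.I) : lg (yy b x T ρ B) v = lg (pat b x T ρ (B v)) v := by
  funext j
  simp only [lg, mem_yy]

end Fill

open Fill in
theorem fillS : FillStmt := by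
  classical
  intro E ok h b x T σ tg D sp hH hx hT htg hD hD' hf hr
  let ρ : E.I → List Bool := fun v => h22p.rt (E.rl v) (sp v)
  have hρ : ∀ v, (ρ v).length = E.rl v := fun v => h22p.length_rt _ _
  have hb : ∀ B, b ⊆ yy b x T ρ B := fun B u hu => (mem_yy B u).mpr (sub_pat hx _ hu)
  have row : ∀ (v : E.I) (c : Bool), ∃ β, h < E.lv v →
      D v (nw (E.lv v - h) (lg (pat b x T ρ β) v)) = c := by
    intro v c
    by_cases hv : h < E.lv v
    swap
    · exact ⟨true, fun h' => absurd h' hv⟩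
    obtain ⟨e, he⟩ : ∃ e, E.lv v = e + 1 + h := ⟨E.lv v - h - 1, by omega⟩
    have ne : D v (nw (e + 1) (lg (pat b x T ρ true) v)) ≠
        D v (nw (e + 1) (lg (pat b x T ρ false) v)) := by
      refine hD' v v.2 _ _ (fun j hj hne => other v _ (hj.trans (hρ v).symm) hne) ?_
      change nw (e + 1) _ (ρ v) ≠ nw (e + 1) _ (ρ v)
      rcases e with _ | e
      · have hr' : ∀ π : E.Nd, π.1 = v → π.2.1 = ρ v →
            E.ft π ≤ (E.ch π \ b).card ∧ E.ch π ⊆ x := fun π h1 h2 =>
          hr π (by rw [h1, he]; omega) (by rw [h2, h1])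
        rw [none_val ok hT v (by omega) (hρ v) fun π h1 h2 h3 =>
          (hr' π h1 (h3.eq_of_length (by rw [h2, hρ]; simp)).symm).1,
          all_one ok v (by omega) (hρ v) fun π h1 h2 => (hr' π h1 h2).2]
        simp
      · rw [none_val ok hT v (by omega) (hρ v) fun π h1 h2 _ =>
          hf π (by rw [h1]; omega) (by rw [h2, h1, he]; congr 2; omega),
          all_two ok hT v (by omega) (hρ v)]
        simp
    rw [show E.lv v - h = e + 1 by omega]
    by_cases hc : D v (nw (e + 1) (lg (pat b x T ρ true) v)) = c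
    · exact ⟨true, fun _ => hc⟩
    · refine ⟨false, fun _ => ?_⟩
      revert ne hc
      cases c <;> cases D v (nw (e + 1) (lg (pat b x T ρ true) v)) <;>
        cases D v (nw (e + 1) (lg (pat b x T ρ false) v)) <;> simp
  choose ch hch using row
  have main : ∀ t, ∃ B : E.I → Bool, ∀ v : E.I, h < E.lv v → 9 ^ E.lv v * E.rl v < t →
      D v (nw (E.lv v - h) (lg (pat b x T ρ (B v)) v)) = tg v (σ (yy b x T ρ B)) := by
    intro t
    induction t with
    | zero => exact ⟨fun _ => true, fun v _ h => absurd h (Nat.not_lt_zero _)⟩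
    | succ t ih =>
      obtain ⟨B, hB⟩ := ih
      let B' : E.I → Bool := fun v =>
        if 9 ^ E.lv v * E.rl v = t then ch v (tg v (σ (yy b x T ρ B))) else B v
      refine ⟨B', fun v hv ht => ?_⟩
      have e1 : tg v (σ (yy b x T ρ B')) = tg v (σ (yy b x T ρ B)) := by
        refine htg v v.2 _ _ fun s hs => hH.loc _ _ t (hb B) (hb B') (fun u hu => ?_) s ?_
        · rw [mem_yy, mem_yy, show B' u.1 = B u.1 from if_neg hu.ne]
        · have h1 := (ok.len v v.2).2.2.2.1
          have h2 : E.rl v ≤ 9 ^ E.lv v * E.rl v := Nat.le_mul_of_pos_left _ (by positivity)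
          omega
      rw [e1]
      by_cases h1 : 9 ^ E.lv v * E.rl v = t
      · rw [show B' v = _ from if_pos h1]
        exact hch v _ hv
      · rw [show B' v = _ from if_neg h1]
        exact hB v hv (by omega)
  obtain ⟨B, hB⟩ := main (E.T + 1)
  refine ⟨yy b x T ρ B, hb B, fun u hu => (mem_yy B u).trans (agr_pat hx _ u hu),
    fun v hv hl => ?_⟩
  rw [← hB ⟨v, hv⟩ hl (Nat.lt_succ_of_le (len_le ok ⟨v, hv⟩ le_rfl)), ← lg_yy]
  refine hD v hv _ _ fun j hj => ?_
  obtain ⟨e, he⟩ : ∃ e, E.lv v = e + 1 + h := ⟨E.lv v - h - 1, by omega⟩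
  rw [show E.lv (⟨v, hv⟩ : E.I) - h = e + 1 by simp only; omega]
  exact root_eq ok hH (hb B) ⟨v, hv⟩ he hj

end Pool.Agent.MP_a2d820_lc.h31p
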