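import Mathlib
import Pool.Agent.MP_a2d820_lc.h31p.Spec

/-!
Counting facts about the forest, and the promise at a point that extends a small assignment.
-/

set_option autoImplicit false

namespace Pool.Agent.MP_a2d820_lc.h31p

open Finset Pool.Agent.MP_a2d820_lc.h69

namespace For

theorem card_len {H : ℕ} (l : ℕ) :
    (univ.filter fun j : Node H => j.1.length = l).card ≤ 2 ^ l := by
  rw [← card_range (2 ^ l)]
  refine card_le_card_of_injOn (fun j => PolyT.ofBits j.1) (fun j hj => ?_) fun j hj j' hj' e => ?_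
  · have h := (mem_filter.1 (mem_coe.1 hj)).2
    exact mem_coe.2 (mem_range.2 (h ▸ PolyT.ofBits_lt j.1))
  · have h := (mem_filter.1 (mem_coe.1 hj)).2
    have h' := (mem_filter.1 (mem_coe.1 hj')).2
    exact Subtype.ext (ofBits_inj (h.trans h'.symm) e)

theorem card_ch (E : Env) (π : E.Nd) (h : 9 * π.2.1.length ≤ E.T) :
    2 ^ (8 * π.2.1.length) ≤ (E.ch π).card := by
  let g : (Fin (8 * π.2.1.length) → Bool) → E.Nd := fun w =>
    (π.1, ⟨List.ofFn w ++ π.2.1, by simp; omega⟩)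
  have h1 : (univ : Finset (Fin (8 * π.2.1.length) → Bool)).card = 2 ^ (8 * π.2.1.length) := by
    simp
  rw [← h1]
  refine card_le_card_of_injOn g (fun w _ => ?_) fun w _ w' _ e => ?_
  · refine mem_coe.2 (mem_filter.2 ⟨mem_univ _, rfl, ?_, ?_⟩)
    · simp [g]; omega
    · exact List.drop_left' (by simp)
  · have := congrArg (fun v : E.Nd => v.2.1) e
    exact List.ofFn_injective (List.append_cancel_right this)

theorem ofBits_rt {r j : ℕ} (h : j < 2 ^ r) : PolyT.ofBits (h22p.rt r j) = j :=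
  ofBits_dig (by simpa using h)

theorem prt_congr {P r : ℕ} {a a' : Lang} (h : ∀ j, j.length = r → a j = a' j) :
    prt P r a = prt P r a' := by
  unfold prt
  rw [filter_congr fun i _ => by rw [h _ (h22p.length_rt r i)]]

theorem prt_flip' {P r s : ℕ} {a a' : Lang} (hP : P ≤ 2 ^ r) (hs : s < P)
    (h : ∀ j, j.length = r → j ≠ h22p.rt r s → a j = a' j) (h1 : a (h22p.rt r s) = true)
    (h2 : a' (h22p.rt r s) = false) : prt P r a ≠ prt P r a' := by
  have e : ((range P).filter fun i => a (h22p.rt r i) = true) =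
      insert s ((range P).filter fun i => a' (h22p.rt r i) = true) := by
    ext i
    simp only [mem_filter, mem_range, mem_insert]
    by_cases hi : i = s
    · subst hi
      simp [hs, h1]
    · constructor
      · rintro ⟨h3, h4⟩
        refine Or.inr ⟨h3, ?_⟩
        rw [← h _ (h22p.length_rt r i) fun e => hi ?_, h4]
        rw [← ofBits_rt (h3.trans_le hP), e, ofBits_rt (hs.trans_le hP)]
      · rintro (h3 | ⟨h3, h4⟩)
        · exact absurd h3 hi
        · refine ⟨h3, ?_⟩
          rw [h _ (h22p.length_rt r i) fun e => hi ?_, h4]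
          rw [← ofBits_rt (h3.trans_le hP), e, ofBits_rt (hs.trans_le hP)]
  unfold prt
  rw [e, card_insert_of_notMem (by simp [h2]), Nat.bodd_succ]
  simp

theorem prt_flip {P r s : ℕ} {a a' : Lang} (hP : P ≤ 2 ^ r) (hs : s < P)
    (h : ∀ j, j.length = r → j ≠ h22p.rt r s → a j = a' j)
    (h1 : a (h22p.rt r s) ≠ a' (h22p.rt r s)) : prt P r a ≠ prt P r a' := by
  cases h2 : a (h22p.rt r s) <;> cases h3 : a' (h22p.rt r s)
  · exact absurd (h2.trans h3.symm) h1
  · exact (prt_flip' hP hs (fun j hj hj' => (h j hj hj').symm) h3 h2).symm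
  · exact prt_flip' hP hs h h2 h3
  · exact absurd (h2.trans h3.symm) h1

theorem ch_sub (E : Env) {h i : ℕ} {π : E.Nd} (hπ : π ∈ E.Pa h i) : E.ch π ⊆ E.Fr h := by
  intro v hv
  obtain ⟨-, h1, h2, -⟩ := mem_filter.1 hπ
  obtain ⟨-, h3, h4, -⟩ := mem_filter.1 hv
  refine mem_filter.2 ⟨mem_univ _, by rw [h3]; exact h1, ?_⟩
  rw [h4, h2, h3, ← mul_assoc, ← pow_succ']
  congr 2
  omega

theorem a_le (E : Env) (hE : E.Ok) {h i : ℕ} {π : E.Nd} (hπ : π ∈ E.Pa h i) :
    E.a ≤ π.2.1.length := by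
  obtain ⟨-, -, h2, -⟩ := mem_filter.1 hπ
  rw [h2]
  exact (hE.len _ π.1.2).2.1.trans (Nat.le_mul_of_pos_left _ (by positivity))

theorem sum_le (E : Env) (hE : E.Ok) (h : ℕ) :
    ∑ v ∈ E.Fr h, (1 / 2 : ℝ) ^ (3 * E.m v.1 + v.2.1.length) ≤ 1 := by
  unfold Env.Fr
  rw [sum_filter, Fintype.sum_prod_type]
  refine le_trans (sum_le_sum (g := fun u : E.I => (1 / 2 : ℝ) ^ (3 * E.m u)) fun u _ => ?_) ?_
  · rw [← sum_filter]
    refine (sum_le_sum_of_subset_of_nonneg (t := univ.filter fun j : Node E.T =>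
      j.1.length = 9 ^ (E.lv u - h) * E.rl u) (fun j hj => ?_) fun _ _ _ => by positivity).trans ?_
    · exact mem_filter.2 ⟨mem_univ _, (mem_filter.1 hj).2.2⟩
    · rw [sum_congr rfl (g := fun _ => (1 / 2 : ℝ) ^ (3 * E.m u + 9 ^ (E.lv u - h) * E.rl u))
        fun j hj => by rw [(mem_filter.1 hj).2], sum_const, nsmul_eq_mul]
      generalize 9 ^ (E.lv u - h) * E.rl u = l
      have h1 : ((univ.filter fun j : Node E.T => j.1.length = l).card : ℝ) ≤ 2 ^ l := by
        exact_mod_cast card_len l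
      refine (mul_le_mul_of_nonneg_right h1 (by positivity)).trans (le_of_eq ?_)
      rw [pow_add, mul_left_comm, ← mul_pow]
      norm_num
  · rw [sum_coe_sort E.I fun u => (1 / 2 : ℝ) ^ (3 * E.m u)]
    exact hE.sum.trans (by norm_num)

end For

open For

theorem forS : ForStmt := by
  intro E hE h
  refine ⟨fun i π hπ => ?_, fun i π hπ => ?_, fun i π hπ => ?_, fun π hπ => ?_,
    fun i π hπ => ch_sub E hπ, fun π π' v h1 h2 => ?_, sum_le E hE h⟩
  · obtain ⟨-, h1, h2, h3⟩ := mem_filter.1 hπ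
    exact mem_filter.2 ⟨mem_univ _, h1, h2, fun h4 => h3 ⟨h4.1, by omega, h4.2.2⟩⟩
  · have h1 : (E.Pa h i).card ≤ 2 ^ E.T * 2 ^ (E.T + 1) := by
      refine (card_le_univ _).trans ?_
      rw [Fintype.card_prod, Fintype.card_coe]
      exact Nat.mul_le_mul hE.card (card_node _).le
    have h2 : 2 * E.T + 2 ≤ E.ft π :=
      hE.hT.trans (Nat.pow_le_pow_right two_pos (by have := a_le E hE hπ; omega))
    refine le_trans ?_ (Nat.pow_le_pow_right two_pos h2)
    calc 2 * (E.Pa h i).card ≤ 2 * (2 ^ E.T * 2 ^ (E.T + 1)) := Nat.mul_le_mul_left _ h1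
      _ = 2 ^ (2 * E.T + 2) := by ring
  · refine disjoint_left.2 fun v h1 h2 => ?_
    obtain ⟨-, -, h4, h5⟩ := mem_filter.1 hπ
    obtain ⟨-, h6, -, h8⟩ := mem_filter.1 h1
    obtain ⟨-, h9, -, h11⟩ := mem_filter.1 h2
    rw [h6] at h9 h11
    rw [h9, show h + 1 - h - 1 = 0 by omega, pow_zero, one_mul] at h4
    rw [← h4, h8] at h11
    exact h5 ⟨h9, by omega, by omega⟩
  · have h1 := ch_sub E hπ
    have h2 := a_le E hE hπ
    rw [sdiff_compl, inf_eq_inter, inter_eq_left.2 h1]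
    obtain ⟨-, h3, h4, -⟩ := mem_filter.1 hπ
    refine le_trans ?_ (card_ch E π ?_)
    · have h5 : E.Q ^ (4 * E.L) ≤ 2 ^ E.a := by
        rcases Nat.eq_zero_or_pos E.Q with h0 | h0
        · rw [h0]
          exact (Nat.pow_le_pow_left (Nat.zero_le 1) _).trans (by simp [Nat.one_le_two_pow])
        · exact (Nat.pow_le_pow_right h0 (Nat.le_succ _)).trans hE.pow
      calc E.ft π * E.Q ^ (4 * E.L) ≤ 2 ^ (7 * π.2.1.length) * 2 ^ π.2.1.length :=
            Nat.mul_le_mul_left _ (h5.trans (Nat.pow_le_pow_right two_pos h2))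
        _ = 2 ^ (8 * π.2.1.length) := by ring
    · refine le_trans ?_ (hE.len _ π.1.2).2.2.2.2.2.2.1
      rw [h4, ← mul_assoc, ← pow_succ']
      exact Nat.mul_le_mul_right _ (Nat.pow_le_pow_right (by norm_num) (by omega))
  · obtain ⟨-, h3, h4, h5⟩ := mem_filter.1 h1
    obtain ⟨-, h6, h7, h8⟩ := mem_filter.1 h2
    refine Prod.ext (h3.symm.trans h6) (Subtype.ext ?_)
    rw [← h5, ← h8, show π.2.1.length = π'.2.1.length by omega]

theorem legS (hF : FillStmt) : LegStmt := by
  intro E hE h i b x T σ hh hi hH hA hfat hcode hx hT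
  have hsp : ∀ v ∈ E.I, v.length - 1 - i + i + 1 = v.length ∧ v.length ≤ 2 ^ E.rl v := fun v hv => by
    have := hE.len v hv
    exact ⟨by omega, this.2.2.2.2.2.1⟩
  have hf : ∀ π ∈ E.Pa h i, E.ft π ≤ (E.ch π \ b).card := fun π hπ => by simpa using hfat π hπ
  obtain ⟨y, hy, hag, hfill⟩ := hF E hE h b x T σ E.mu (fun v => prt v.length (E.rl v))
    (fun v => v.length - 1 - i) hH (subset_union_left.trans hx) hT (fun v hv => (hE.loc v hv).1)
    (fun v _ a a' e => prt_congr e)
    (fun v hv a a' e e' => prt_flip (hsp v hv).2 (by have := (hsp v hv).1; omega) e e')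
    (fun π h1 h2 => hf π (mem_filter.2 ⟨mem_univ _, by omega, h2, fun h3 => by omega⟩))
    fun π h1 h2 => by
      obtain ⟨h3, h4⟩ := hsp _ π.1.2
      have h5 : PolyT.ofBits π.2.1 = π.1.1.length - 1 - i := by rw [h2, ofBits_rt (by omega)]
      have h6 : π.2.1.length = E.rl π.1 := by rw [h2, h22p.length_rt]
      refine ⟨hf π (mem_filter.2 ⟨mem_univ _, by omega, ?_, fun h7 => by omega⟩), fun v hv => ?_⟩
      · rw [h6, h1, show h + 1 - h - 1 = 0 by omega, pow_zero, one_mul]
      · obtain ⟨-, h7, h8, h9⟩ := mem_filter.1 hv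
        refine hx (mem_union_right _ (mem_filter.2 ⟨mem_univ _, ?_, ?_, ?_⟩))
        · rw [h7, h1]
        · rw [h7, h8, h6]
        · rw [h7, ← h6, h9, h5, h3]
  have key : ∀ k, ∀ v ∈ E.I, E.ly v = k → k < i → E.Leg (σ y) v := by
    intro k
    induction k using Nat.strong_induction_on with
    | _ k ih =>
      intro v hv e hk
      by_cases h1 : h < E.lv v
      · exact hfill v hv h1
      · exact hcode y hy v hv (by omega) (hE.prom _ (hA y hy) v hv (by omega)
          fun v' hv' _ h2 => ih _ (by omega) v' hv' rfl (by omega))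
  exact ⟨y, hy, hag, fun u hu h1 h2 => hE.prom _ (hA y hy) u hu h1
    fun v hv _ h3 => key _ v hv rfl (by omega)⟩

end Pool.Agent.MP_a2d820_lc.h31p
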