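import Mathlib
import Pool.Agent.MP_a2d820_lc.h31p.Spec

/-!
The alternating chains of one gate are short and have small certificates.
-/

set_option autoImplicit false

namespace Pool.Agent.MP_a2d820_lc.h31p

open Finset

namespace Gate

variable {V : Type} [Fintype V] [DecidableEq V]

omit [Fintype V] in
theorem up_down {U : Finset V → Finset V} {k : ℕ} {a : Finset V} (h : Up U (k + 1) a) :
    Up U k a := by
  induction k generalizing a with
  | zero => trivial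
  | succ k ih =>
    obtain ⟨c, h1, h2, h3⟩ := h
    exact ⟨c, h1, h2, ih h3⟩

omit [Fintype V] [DecidableEq V] in
theorem ch_mono {b : Finset V} {A : Bool → Finset V → Prop} {j : ℕ} {y y' : Finset V}
    (h : Ch b A j y) (hy : y ⊆ y') : Ch b A j y' := by
  cases j with
  | zero => trivial
  | succ j =>
    obtain ⟨c, h1, h2, h3⟩ := h
    exact ⟨c, h1, h2.trans hy, h3⟩

omit [Fintype V] [DecidableEq V] in
theorem ch_down {b : Finset V} {A : Bool → Finset V → Prop} {i j : ℕ} {y : Finset V}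
    (h : Ch b A j y) (hi : i ≤ j) : Ch b A i y := by
  induction j generalizing y with
  | zero =>
    obtain rfl : i = 0 := by omega
    trivial
  | succ j ih =>
    rcases hi.lt_or_eq with hi | rfl
    · obtain ⟨c, -, h2, h3, -⟩ := h
      exact ch_mono (ih h3 (by omega)) h2
    · exact h

open Classical in
/-- The sensitive variables. -/
noncomputable def sn (b L : Finset V) (G : Finset V → Prop) (c : Finset V) : Finset V :=
  ((c \ b) ∩ L).filter fun v => ¬(G (c.erase v) ↔ G c)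

/-- The sensitive set, when it is small. -/
noncomputable def sns (b L : Finset V) (G : Finset V → Prop) (σ : ℕ) (c : Finset V) : Finset V :=
  if (sn b L G c).card ≤ σ then sn b L G c else ∅

omit [Fintype V] in
theorem card_sns (b L : Finset V) (G : Finset V → Prop) (σ : ℕ) (c : Finset V) :
    (sns b L G σ c).card ≤ σ := by
  unfold sns
  split_ifs with h
  · exact h
  · simp

/-- The properties of a gate and of a potential that the argument uses. -/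
structure Hyp (b b' L : Finset V) (G : Finset V → Prop) (F : ℕ → Finset V → ℝ) (lam : V → ℝ)
    (Γ : ℝ) (m w : ℕ) : Prop where
  hm : 1 ≤ m
  hw : m ≤ w
  hΓ : 0 < Γ
  hb : b ⊆ b'
  l0 : ∀ v, 0 ≤ lam v
  l1 : ∀ v, lam v ≤ 1
  l2 : ∀ v ∈ L, (1 / 2 : ℝ) ^ (3 * m) ≤ lam v
  one : ∀ c, b ⊆ c → G c → ∃ U ⊆ c, U ⊆ L ∧ U.card ≤ w * w ∧ ∀ e, b ∪ U ⊆ e → e ⊆ c → G e
  hit : ∀ e c, b ⊆ e → e ⊆ c → G e → ¬G c → ∃ W ⊆ c, W ⊆ L ∧ W.card ≤ m ∧ ¬W ⊆ e ∧
    ∀ i, F i e * Γ ≤ F (i + 1) (e ∪ W) * ∏ v ∈ W \ e, lam v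
  add : ∀ i e e', b ⊆ e → e ⊆ e' → F i e * ∏ v ∈ e' \ e, lam v ≤ F i e'
  zero : ∀ e, F 0 e = ∏ v ∈ (e \ b') ∪ (b' \ e), lam v
  nn : ∀ i e, 0 ≤ F i e
  good : ∀ i e, F i e < (Γ / 2) ^ i * 2 ^ (5 * m)

variable {b b' L : Finset V} {G : Finset V → Prop} {F : ℕ → Finset V → ℝ} {lam : V → ℝ}
  {Γ : ℝ} {m w : ℕ}

namespace Hyp

omit [Fintype V]

theorem run (H : Hyp b b' L G F lam Γ m w) {c : Finset V} (hc : ¬G c) (n : ℕ) (e : Finset V)
    (hn : (c \ e).card < n) (h1 : b ⊆ e) (h2 : e ⊆ c) (h3 : ∀ e', e ⊆ e' → e' ⊆ c → e' ≠ c → G e')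
    (i : ℕ) : ∃ k, (c \ e).card ≤ m * k ∧ c \ e ⊆ L ∧
      F i e * Γ ^ k ≤ F (i + k) c * ∏ v ∈ c \ e, lam v := by
  induction n generalizing e i with
  | zero => omega
  | succ n ih =>
    by_cases he : e = c
    · subst he
      exact ⟨0, by simp, by simp, by simp⟩
    obtain ⟨W, a1, a2, a3, a4, a5⟩ := H.hit e c h1 h2 (h3 e Subset.rfl h2 he) hc
    have b1 : e ∪ W ⊆ c := union_subset h2 a1
    have b2 := card_lt_card (Finset.ssubset_iff_subset_ne.2
      ⟨subset_union_left (s₁ := e) (s₂ := W), fun h => a4 (h ▸ subset_union_right)⟩)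
    have b3 := card_sdiff_add_card_eq_card b1
    have b4 := card_sdiff_add_card_eq_card h2
    have b5 := card_union_le e W
    obtain ⟨k, c1, c2, c3⟩ := ih (e ∪ W) (by omega) (h1.trans subset_union_left) b1
      (fun e' h => h3 e' (subset_union_left.trans h)) (i + 1)
    have b6 : c \ e = (W \ e) ∪ (c \ (e ∪ W)) := by
      ext v
      have := @a1 v
      simp only [mem_sdiff, mem_union]
      tauto
    have b7 : Disjoint (W \ e) (c \ (e ∪ W)) := disjoint_left.2 fun v h h' =>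
      (mem_sdiff.1 h').2 (mem_union_right _ (mem_sdiff.1 h).1)
    refine ⟨k + 1, by rw [Nat.mul_succ]; omega, ?_, ?_⟩
    · rw [b6]
      exact union_subset (sdiff_subset.trans a2) c2
    · have p1 : 0 ≤ ∏ v ∈ W \ e, lam v := prod_nonneg fun v _ => H.l0 v
      have p2 := mul_le_mul_of_nonneg_right (a5 i) (pow_pos H.hΓ k).le
      have p3 := mul_le_mul_of_nonneg_right c3 p1
      rw [b6, prod_union b7, show i + (k + 1) = i + 1 + k by omega, pow_succ]
      linarith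

theorem few (H : Hyp b b' L G F lam Γ m w) {i t : ℕ} {c : Finset V}
    (h : ((1 / 2 : ℝ) ^ (3 * m)) ^ t * Γ ^ i ≤ F i c) : i < 5 * m + 3 * m * t := by
  have h1 := h.trans_lt (H.good i c)
  have h2 := pow_pos H.hΓ i
  rw [div_pow Γ, ← pow_mul, one_div, inv_pow, div_mul_eq_mul_div, lt_div_iff₀ (by positivity),
    mul_assoc, inv_mul_lt_iff₀ (by positivity), mul_left_comm] at h1
  have h3 := lt_of_mul_lt_mul_left h1 h2.le
  rw [← pow_add] at h3
  have h4 := (pow_lt_pow_iff_right₀ (show (1 : ℝ) < 2 by norm_num)).1 h3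
  omega

theorem low (H : Hyp b b' L G F lam Γ m w) {S : Finset V} {t : ℕ} (h1 : S ⊆ L) (h2 : S.card ≤ t) :
    ((1 / 2 : ℝ) ^ (3 * m)) ^ t ≤ ∏ v ∈ S, lam v := by
  refine (pow_le_pow_of_le_one (by positivity) (pow_le_one₀ (by norm_num) (by norm_num)) h2).trans ?_
  rw [← prod_const]
  exact prod_le_prod (fun _ _ => by positivity) fun v hv => H.l2 v (h1 hv)

theorem sens (H : Hyp b b' L G F lam Γ m w) (hI : IndStmt) {c : Finset V} (h1 : b' ⊆ c)
    (h2 : c \ b' ⊆ L) (h3 : (c \ b').card ≤ 30 * w ^ 5) : (sn b L G c).card ≤ 300 * w ^ 9 := by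
  classical
  have hm := H.hm
  have hw := H.hw
  have hbc := H.hb.trans h1
  have hs : ∀ v ∈ sn b L G c, v ∈ c ∧ v ∉ b ∧ v ∈ L ∧ ¬(G (c.erase v) ↔ G c) := fun v hv => by
    simpa [sn, and_assoc] using hv
  have hw1 : 1 ≤ w := hm.trans hw
  by_cases hc : G c
  · obtain ⟨U, a1, -, a3, a4⟩ := H.one c hbc hc
    refine (card_le_card (t := U) fun v hv => ?_).trans (a3.trans ?_)
    · obtain ⟨b1, b2, -, b4⟩ := hs v hv
      by_contra h
      exact b4 (iff_of_true (a4 _ (union_subset (subset_erase.2 ⟨hbc, b2⟩)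
        (subset_erase.2 ⟨a1, h⟩)) (erase_subset _ _)) hc)
    · have : w ^ 2 ≤ w ^ 9 := Nat.pow_le_pow_right hw1 (by norm_num)
      nlinarith
  have hC : ∀ v, ∃ U : Finset V, v ∈ sn b L G c → U ⊆ c.erase v ∧ U.card ≤ w * w ∧
      ∀ e, b ∪ U ⊆ e → e ⊆ c.erase v → G e := by
    intro v
    by_cases hv : v ∈ sn b L G c
    · obtain ⟨-, b2, -, b4⟩ := hs v hv
      obtain ⟨U, a1, -, a3, a4⟩ := H.one _ (subset_erase.2 ⟨hbc, b2⟩) (by tauto)
      exact ⟨U, fun _ => ⟨a1, a3, a4⟩⟩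
    · exact ⟨∅, fun h => absurd h hv⟩
  choose C hC using hC
  by_contra hlt
  obtain ⟨T, a1, a2, a3⟩ := hI V (sn b L G c) C (w * w) (m * (5 * m + 3 * m * (30 * w ^ 5)))
    (fun v hv => (hC v hv).2.1) (fun v hv h => notMem_erase v c ((hC v hv).1 h)) (by
      have e1 : w ≤ w ^ 6 := Nat.le_self_pow (by norm_num) w
      have e2 : 5 * m + 3 * m * (30 * w ^ 5) ≤ 95 * w ^ 6 := by
        have := Nat.mul_le_mul_right (w ^ 5) hw
        nlinarith
      have e3 : 2 * (w * w) + 1 ≤ 3 * w ^ 2 := by nlinarith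
      have e4 := Nat.mul_le_mul e3 (Nat.mul_le_mul hw e2)
      have e5 : 3 * w ^ 2 * (w * (95 * w ^ 6)) = 285 * w ^ 9 := by ring
      omega)
  have a4 : T ⊆ c := fun v hv => (hs v (a1 hv)).1
  have a5 : b ⊆ c \ T := subset_sdiff.2 ⟨hbc, disjoint_right.2 fun v hv => (hs v (a1 hv)).2.1⟩
  obtain ⟨k, c1, c2, c3⟩ := H.run hc _ (c \ T) (Nat.lt_succ_self _) a5 sdiff_subset
    (fun e e1 e2 e3 => by
      obtain ⟨v, v1⟩ := sdiff_nonempty.2 fun h => e3 (Subset.antisymm e2 h)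
      obtain ⟨v1, v2⟩ := mem_sdiff.1 v1
      have v3 : v ∈ T := by
        by_contra h
        exact v2 (e1 (mem_sdiff.2 ⟨v1, h⟩))
      obtain ⟨d1, -, d3⟩ := hC v (a1 v3)
      exact d3 e ((union_subset a5 fun u hu => mem_sdiff.2
        ⟨erase_subset _ _ (d1 hu), fun h => a3 u h v v3 hu⟩).trans e1)
        (subset_erase.2 ⟨e2, v2⟩)) 0
  rw [Finset.sdiff_sdiff_eq_self a4] at c1 c2 c3
  have p1 : 0 < ∏ v ∈ T, lam v := lt_of_lt_of_le (by positivity) (H.low c2 le_rfl)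
  have p2 : (∏ v ∈ c \ b', lam v) * ∏ v ∈ T, lam v ≤ F 0 (c \ T) := by
    rw [H.zero, ← prod_union_inter]
    refine (mul_le_of_le_one_right (prod_nonneg fun v _ => H.l0 v)
      (prod_le_one (fun v _ => H.l0 v) fun v _ => H.l1 v)).trans
      (prod_le_prod_of_subset_of_le_one (fun v => ?_) (fun v _ => H.l0 v) fun v _ _ => H.l1 v)
    have := @h1 v
    simp only [mem_sdiff, mem_union]
    tauto
  have p3 := mul_le_mul_of_nonneg_right ((mul_le_mul_of_nonneg_right (H.low h2 h3) p1.le).trans p2)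
    (pow_pos H.hΓ k).le
  have p4 := H.few (i := k) (t := 30 * w ^ 5) (c := c) (le_of_mul_le_mul_right (by
    rw [zero_add] at c3
    linarith) p1)
  have p5 := Nat.mul_lt_mul_of_pos_left p4 hm
  omega

theorem chain (H : Hyp b b' L G F lam Γ m w) (hI : IndStmt) (j : ℕ) (hj : j ≤ 5 * m + 1)
    (y : Finset V) (hy : b' ⊆ y) (h : Ch b' (fun β y => G y ↔ β = true) j y) :
    ∃ c ⊆ y, b' ⊆ c ∧ c \ b' ⊆ L ∧ (c \ b').card ≤ 30 * w ^ 5 ∧
      Ch b' (fun β y => G y ↔ β = true) j c ∧ (∀ i, j = i + 1 → (G c ↔ (!i.bodd) = true)) ∧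
      (∀ k, Up (sns b L G (300 * w ^ 9)) k c → Up (sns b L G (300 * w ^ 9)) (k + (j - 1)) b') ∧
      ∃ i, (c \ b').card ≤ j * (w * w) + m * i ∧
        ((1 / 2 : ℝ) ^ (3 * m)) ^ (j * (w * w)) * Γ ^ i ≤ F i c := by
  classical
  induction j generalizing y with
  | zero =>
    exact ⟨b', hy, Subset.rfl, by simp, by simp, trivial, fun i h => by omega, fun k h => h, 0,
      by simp, by simp [H.zero]⟩
  | succ j ih =>
    obtain ⟨d, d1, d2, d3, d4⟩ := h
    obtain ⟨c', a1, a2, a3, -, a5, a6, a7, i, a8, a9⟩ := ih (by omega) d d1 d3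
    obtain ⟨c, b1, b2⟩ := exists_min_image
      (d.powerset.filter fun e => c' ⊆ e ∧ (G e ↔ (!j.bodd) = true)) card
      ⟨d, mem_filter.2 ⟨mem_powerset_self _, a1, d4⟩⟩
    obtain ⟨b1, b3, b4⟩ := mem_filter.1 b1
    rw [mem_powerset] at b1
    have b5 : ∀ e, c' ⊆ e → e ⊆ c → (G e ↔ G c) → e = c := fun e e1 e2 e3 =>
      eq_of_subset_of_card_le e2 (b2 e (mem_filter.2
        ⟨mem_powerset.2 (e2.trans b1), e1, e3.trans b4⟩))
    have b6 := H.hb.trans a2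
    have b7 := card_sdiff_add_card_eq_card b3
    have b8 := card_sdiff_add_card_eq_card a2
    have b9 := card_sdiff_add_card_eq_card (a2.trans b3)
    have key : c \ c' ⊆ L ∧ ∃ i, (c \ b').card ≤ (j + 1) * (w * w) + m * i ∧
        ((1 / 2 : ℝ) ^ (3 * m)) ^ ((j + 1) * (w * w)) * Γ ^ i ≤ F i c := by
      by_cases hc : G c
      · obtain ⟨U, u1, u2, u3, u4⟩ := H.one c (b6.trans b3) hc
        have u5 := b5 (c' ∪ U) subset_union_left (union_subset b3 u1) (iff_of_true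
          (u4 _ (union_subset_union b6 Subset.rfl) (union_subset b3 u1)) hc)
        have u6 : c \ c' ⊆ U := by
          rw [← u5, union_sdiff_left]
          exact sdiff_subset
        have u7 := (card_le_card u6).trans u3
        refine ⟨u6.trans u2, i, by rw [Nat.succ_mul]; omega, le_trans ?_ (H.add i c' c b6 b3)⟩
        rw [Nat.succ_mul j, pow_add, mul_right_comm]
        exact mul_le_mul a9 (H.low (u6.trans u2) u7) (by positivity) (H.nn _ _)
      · obtain ⟨k, k1, k2, k3⟩ := H.run hc _ c' (Nat.lt_succ_self _) b6 b3 (fun e e1 e2 e3 => by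
          by_contra h
          exact e3 (b5 e e1 e2 (iff_of_false h hc))) i
        refine ⟨k2, i + k, by rw [Nat.succ_mul, mul_add]; omega, le_trans ?_ (k3.trans
          (mul_le_of_le_one_right (H.nn _ _) (prod_le_one (fun v _ => H.l0 v) fun v _ => H.l1 v)))⟩
        rw [pow_add Γ, ← mul_assoc]
        refine mul_le_mul_of_nonneg_right (le_trans (mul_le_mul_of_nonneg_right
          (pow_le_pow_of_le_one (by positivity) (pow_le_one₀ (by norm_num) (by norm_num))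
            (Nat.mul_le_mul_right _ (Nat.le_succ j))) (pow_pos H.hΓ i).le) a9) (pow_pos H.hΓ k).le
    obtain ⟨k1, i', k2, k3⟩ := key
    have k4 : c \ b' ⊆ L := fun v hv => by
      by_cases h : v ∈ c'
      · exact a3 (mem_sdiff.2 ⟨h, (mem_sdiff.1 hv).2⟩)
      · exact k1 (mem_sdiff.2 ⟨(mem_sdiff.1 hv).1, h⟩)
    have k5 : (c \ b').card ≤ 30 * w ^ 5 := by
      have e0 := H.few k3
      have hm := H.hm
      have hw := H.hw
      have hw1 : 1 ≤ w := hm.trans hw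
      have e1 : (j + 1) * (w * w) ≤ 6 * w ^ 3 := by
        have := Nat.mul_le_mul_right (w * w) (show j + 1 ≤ 6 * w by omega)
        nlinarith
      have e2 : w ≤ w ^ 4 := Nat.le_self_pow (by norm_num) w
      have e3 := Nat.mul_le_mul hw e1
      have e4 : i' ≤ 23 * w ^ 4 := by nlinarith
      have e5 := Nat.mul_le_mul hw e4
      have e6 : w ^ 3 ≤ w ^ 5 := Nat.pow_le_pow_right hw1 (by norm_num)
      nlinarith
    refine ⟨c, b1.trans d2, a2.trans b3, k4, k5, ⟨c, a2.trans b3, Subset.rfl, ch_mono a5 b3, b4⟩,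
      fun i hi => by obtain rfl : j = i := by omega
                     exact b4, fun k hk => ?_, i', k2, k3⟩
    by_cases e : c' = c
    · subst e
      rcases j with _ | j
      · exact a7 k hk
      · have := (a6 j rfl).symm.trans b4
        simp at this
    · have u1 : Up (sns b L G (300 * w ^ 9)) (k + 1) c' := by
        refine ⟨c, Finset.ssubset_iff_subset_ne.2 ⟨b3, e⟩, fun v hv => ?_, hk⟩
        obtain ⟨v1, v2⟩ := mem_sdiff.1 hv
        rw [sns, if_pos (H.sens hI (a2.trans b3) k4 k5)]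
        refine mem_filter.2 ⟨mem_inter.2 ⟨mem_sdiff.2 ⟨v1, fun h => v2 (b6 h)⟩, k1 hv⟩, fun h => ?_⟩
        exact notMem_erase v c
          ((b5 _ (subset_erase.2 ⟨b3, v2⟩) (erase_subset _ _) h).symm ▸ v1)
      have u2 := a7 _ u1
      rcases j with _ | j
      · exact up_down u2
      · rwa [show k + (j + 1 + 1 - 1) = k + 1 + (j + 1 - 1) by omega]

theorem nice (H : Hyp b b' L G F lam Γ m w) (hI : IndStmt)
    (hU : ¬Up (sns b L G (300 * w ^ 9)) (5 * m) b') :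
    Nice b' L (5 * m + 1) (30 * w ^ 5) fun β y => G y ↔ β = true := by
  have h1 : ∀ y, ¬Ch b' (fun β y => G y ↔ β = true) (5 * m + 1) y := fun y h => by
    obtain ⟨c, -, -, -, -, -, -, a, -⟩ := H.chain hI _ le_rfl y
      (by obtain ⟨c, c1, c2, -⟩ := h; exact c1.trans c2) h
    exact hU (by simpa using a 0 trivial)
  refine ⟨h1, fun j y hy h => ?_⟩
  by_cases hj : j ≤ 5 * m + 1
  · obtain ⟨c, a1, a2, a3, a4, a5, -⟩ := H.chain hI j hj y hy h
    exact ⟨c \ b', a3, sdiff_subset.trans a1, a4, by rwa [union_sdiff_of_subset a2]⟩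
  · exact absurd (ch_down h (by omega)) (h1 y)

end Hyp

omit [DecidableEq V] in
theorem markov {Ω : Type} (𝒦 : Finset Ω) (F : ℕ → Ω → Finset V → ℝ) {Γ : ℝ} {m w : ℕ}
    (hw : 1 ≤ w) (hΓ : 12 * (w : ℝ) ≤ Γ) (h0 : ∀ i κ e, 0 ≤ F i κ e)
    (h : ∀ i, ∑ κ ∈ 𝒦, ∑ e, F i κ e ≤ 3 * (3 * w) ^ i * 𝒦.card) :
    ∃ B : Finset Ω, (B.card : ℝ) ≤ 6 * (1 / 2) ^ (5 * m) * 𝒦.card ∧
      ∀ κ ∈ 𝒦, ¬(∀ i e, F i κ e < (Γ / 2) ^ i * 2 ^ (5 * m)) → κ ∈ B := by
  classical
  have hw' : (1 : ℝ) ≤ w := by exact_mod_cast hw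
  have hp : ∀ i, 0 < (Γ / 2) ^ i * 2 ^ (5 * m) := fun i =>
    mul_pos (pow_pos (by linarith) _) (by positivity)
  have h1 : ∀ κ, ∃ n, ¬(∀ i e, F i κ e < (Γ / 2) ^ i * 2 ^ (5 * m)) →
      ∃ e, (Γ / 2) ^ n * 2 ^ (5 * m) ≤ F n κ e := fun κ => by
    by_cases a : ∀ i e, F i κ e < (Γ / 2) ^ i * 2 ^ (5 * m)
    · exact ⟨0, fun h => absurd a h⟩
    · push Not at a
      obtain ⟨i, e, a⟩ := a
      exact ⟨i, fun _ => ⟨e, a⟩⟩
  choose n hn using h1
  let B : ℕ → Finset Ω := fun i => 𝒦.filter fun κ => ∃ e, (Γ / 2) ^ i * 2 ^ (5 * m) ≤ F i κ e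
  have h2 : ∀ i, ((B i).card : ℝ) ≤ (1 / 2) ^ i * (3 * (1 / 2) ^ (5 * m) * 𝒦.card) := fun i => by
    have a1 : ((B i).card : ℝ) * ((Γ / 2) ^ i * 2 ^ (5 * m)) ≤ ∑ κ ∈ 𝒦, ∑ e, F i κ e := by
      rw [← nsmul_eq_mul]
      refine (card_nsmul_le_sum _ _ _ fun κ hκ => ?_).trans (sum_le_sum_of_subset_of_nonneg
        (filter_subset _ _) fun κ _ _ => sum_nonneg fun e _ => h0 i κ e)
      obtain ⟨e, he⟩ := (mem_filter.1 hκ).2
      exact he.trans (single_le_sum (fun e _ => h0 i κ e) (mem_univ e))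
    refine le_of_mul_le_mul_right (a1.trans ((h i).trans ?_)) (hp i)
    have a2 : (3 * w : ℝ) ^ i ≤ (1 / 2) ^ i * (Γ / 2) ^ i := by
      rw [← mul_pow]
      exact pow_le_pow_left₀ (by positivity) (by linarith) _
    have a3 : (1 / 2 : ℝ) ^ (5 * m) * 2 ^ (5 * m) = 1 := by
      rw [← mul_pow]
      norm_num
    have a4 := mul_le_mul_of_nonneg_right a2 (Nat.cast_nonneg (α := ℝ) 𝒦.card)
    calc _ ≤ 3 * ((1 / 2) ^ i * (Γ / 2) ^ i * 𝒦.card) * ((1 / 2 : ℝ) ^ (5 * m) * 2 ^ (5 * m)) := by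
          rw [a3]
          linarith
      _ = _ := by ring
  refine ⟨(range (𝒦.sup n + 1)).biUnion B, ?_, fun κ hκ hb => mem_biUnion.2
    ⟨n κ, mem_range.2 (Nat.lt_succ_of_le (le_sup hκ)), mem_filter.2 ⟨hκ, hn κ hb⟩⟩⟩
  have a1 : (((range (𝒦.sup n + 1)).biUnion B).card : ℝ) ≤
      ∑ i ∈ range (𝒦.sup n + 1), ((B i).card : ℝ) := by exact_mod_cast card_biUnion_le
  refine a1.trans ((sum_le_sum fun i _ => h2 i).trans ?_)
  rw [← sum_mul]
  exact (mul_le_mul_of_nonneg_right (sum_geometric_two_le _) (by positivity)).trans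
    (le_of_eq (by ring))

end Gate

open Gate in
theorem gateS (hP : PotStmt) (hI : IndStmt) : GateStmt := by
  intro V _ _ K Rel b₀ Fr b S₀ rk lam On g Γ m w hK hS hF hm hw hΓ hg hr
  have hc : ∀ p : Finset V, ∃ D ⊆ S₀, D.card ≤ w ∧
      (b₀ ⊆ p → g p → ∀ p', b₀ ⊆ p' → Agr D p p' → g p') := fun p => by
    by_cases h : b₀ ⊆ p ∧ g p
    · obtain ⟨D, a1, a2, a3⟩ := hg p h.1 h.2
      exact ⟨D, a1, a2, fun _ _ => a3⟩
    · exact ⟨∅, empty_subset _, by simp, fun a b => absurd ⟨a, b⟩ h⟩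
  choose D d1 d2 d3 using hc
  choose F f1 f2 f3 f4 f5 using fun a => hP V K Rel b₀ Fr b a rk lam On
    (fun κ e => D (pt κ (On κ e))) w hK hS (fun _ _ => d2 _) fun κ κ' e he h => by
      simp only [pt]
      rw [hS.loc κ κ' e he h, image_congr fun r hr => h r hr]
  have hΓ' : 12 * (w : ℝ) ≤ Γ := by exact_mod_cast hΓ
  have hw1 : (1 : ℝ) ≤ w := by exact_mod_cast hm.trans hw
  refine ⟨fun κ => sns b (low Fr rk m) (fun y => g (pt κ (On κ y))) (300 * w ^ 9),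
    fun κ b' => ∀ i e, F b' i κ e < ((Γ : ℝ) / 2) ^ i * 2 ^ (5 * m), fun κ c => card_sns _ _ _ _ _,
    fun b' => markov _ (F b') (hm.trans hw) hΓ' (f2 b') (f5 b'),
    fun κ hκ hC b' hb hG hU => Hyp.nice (F := fun i => F b' i κ) (lam := lam) (Γ := Γ) ?_ hI hU⟩
  have k1 : ∀ r, κ r ∈ K r := Fintype.mem_piFinset.1 hκ
  have l1 : ∀ v, lam v ≤ 1 := fun v =>
    (single_le_sum (fun v _ => hK.lam0 v) (mem_univ v)).trans hK.lam1
  have k2 : ∀ y, b₀ ⊆ pt κ (On κ y) := fun y x hx => mem_compl.2 fun h => by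
    obtain ⟨r, a1, rfl⟩ := mem_image.1 h
    exact (hK.out r (hS.rel κ y a1) _ (k1 r)).1 hx
  have k3 : ∀ c, b ⊆ c → ∀ r ∈ On κ c, κ r ∈ S₀ → ∃ W ⊆ c, W ⊆ low Fr rk m ∧ W.card ≤ m ∧
      (Γ : ℝ) ≤ (K r).card * (∏ v ∈ W, lam v) ^ 2 ∧ r ∈ On κ (b ∪ W) := fun c h r a1 a2 => by
    obtain ⟨W, w1, ⟨w2, w3, w4⟩, w5⟩ := hC c h r a1
    have a3 := hr _ a2
    rw [(hK.out r (hS.rel κ c a1) _ (k1 r)).2] at a3
    exact ⟨W, w1, fun v hv => mem_filter.2 ⟨(mem_filter.1 (w2 hv)).1,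
      (mem_filter.1 (w2 hv)).2.trans_le a3⟩, by omega, w4, w5⟩
  have k4 : ∀ e c, b ⊆ e → e ⊆ c → ∀ x ∈ pt κ (On κ c), x ∈ pt κ (On κ e) := fun e c h1 h2 =>
    compl_subset_compl.2 (image_subset_image (hS.mono κ e c h1 h2))
  refine ⟨hm, hw, by linarith, hb, hK.lam0, l1, fun v hv => le_trans ?_ (hK.lam2 v
    (mem_filter.1 hv).1), fun c h1 h2 => ?_, fun e c h1 h2 h3 h4 => ?_,
    fun i e e' => f3 b' i κ e e', f1 b' κ, fun i => f2 b' i κ, hG⟩
  · exact pow_le_pow_of_le_one (by norm_num) (by norm_num)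
      (Nat.mul_le_mul_left _ (mem_filter.1 hv).2.le)
  · have a1 : ∀ x, ∃ W ⊆ c, W ⊆ low Fr rk m ∧ W.card ≤ w ∧
        (x ∈ S₀ → x ∉ pt κ (On κ c) → x ∉ pt κ (On κ (b ∪ W))) := fun x => by
      by_cases h : x ∈ S₀ ∧ x ∉ pt κ (On κ c)
      · obtain ⟨r, r1, rfl⟩ := mem_image.1 (not_not.1 fun a => h.2 (mem_compl.2 a))
        obtain ⟨W, w1, w2, w3, -, w5⟩ := k3 c h1 r r1 h.1
        exact ⟨W, w1, w2, w3.trans hw, fun _ _ a => mem_compl.1 a (mem_image_of_mem _ w5)⟩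
      · exact ⟨∅, empty_subset _, empty_subset _, by simp, fun a b => absurd ⟨a, b⟩ h⟩
    choose X x1 x2 x3 x4 using a1
    refine ⟨(D (pt κ (On κ c))).biUnion X, biUnion_subset.2 fun x _ => x1 x,
      biUnion_subset.2 fun x _ => x2 x, (card_biUnion_le_card_mul _ _ _ fun x _ => x3 x).trans
        (Nat.mul_le_mul_right _ (d2 _)), fun e e1 e2 => d3 _ (k2 c) h2 _ (k2 e) fun x hx =>
      ⟨fun a => ?_, k4 e c (subset_union_left.trans e1) e2 x⟩⟩
    by_contra a'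
    exact x4 x (d1 _ hx) a' (k4 _ e subset_union_left ((union_subset_union Subset.rfl
      (subset_biUnion_of_mem X hx)).trans e1) x a)
  · have a1 : ¬Agr (D (pt κ (On κ e))) (pt κ (On κ e)) (pt κ (On κ c)) := fun a =>
      h4 (d3 _ (k2 e) h3 _ (k2 c) a)
    simp only [Agr, not_forall] at a1
    obtain ⟨x, x1, x2⟩ := a1
    have x3 : x ∉ pt κ (On κ c) ∧ x ∈ pt κ (On κ e) := by
      have := k4 e c h1 h2 x
      tauto
    obtain ⟨r, r1, rfl⟩ := mem_image.1 (not_not.1 fun a => x3.1 (mem_compl.2 a))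
    have r2 : r ∉ On κ e := fun a => mem_compl.1 x3.2 (mem_image_of_mem _ a)
    obtain ⟨W, w1, w2, w3, w4, w5⟩ := k3 c (h1.trans h2) r r1 (d1 _ x1)
    have w6 : r ∈ On κ (e ∪ W) :=
      hS.mono κ _ _ subset_union_left (union_subset_union h1 Subset.rfl) w5
    refine ⟨W, w1, w2, w3, fun a => r2 (by rwa [union_eq_left.2 a] at w6), fun i => ?_⟩
    have p1 := f4 b' i κ e (e ∪ W) r h1 subset_union_left r2 w6 x1
    rw [union_sdiff_left] at p1
    have p2 : 0 ≤ ∏ v ∈ W, lam v := prod_nonneg fun v _ => hK.lam0 v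
    have p3 : ∏ v ∈ W, lam v ≤ ∏ v ∈ W \ e, lam v :=
      prod_le_prod_of_subset_of_le_one sdiff_subset (fun v _ => hK.lam0 v) fun v _ _ => l1 v
    have p4 := mul_le_mul_of_nonneg_left (w4.trans (mul_le_mul_of_nonneg_left
      (pow_le_pow_left₀ p2 p3 2) (Nat.cast_nonneg _))) (f2 b' i κ e)
    have p5 := mul_le_mul_of_nonneg_right p1 (p2.trans p3)
    nlinarith

end Pool.Agent.MP_a2d820_lc.h31p
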