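import Pool.Agent.MP_a2d820_lc.h31p.Spec

/-!
Independent sets in sparse digraphs, and certificates of small circuits.
-/

set_option autoImplicit false

namespace Pool.Agent.MP_a2d820_lc.h31p

open Finset Pool.Agent.MP_a2d820_lc.h69

namespace Ind

theorem exists_low {V : Type} [DecidableEq V] (A : Finset V) (C : V → Finset V) (δ : ℕ)
    (hA : A.Nonempty) (h : ∀ v ∈ A, (C v).card ≤ δ) :
    ∃ v ∈ A, (A.filter fun u => v ∈ C u).card ≤ δ := by
  refine exists_le_of_sum_le hA ?_
  simp only [card_filter]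
  rw [sum_comm]
  refine sum_le_sum fun u hu => ?_
  rw [← card_filter]
  exact (card_le_card fun v hv => (mem_filter.1 hv).2).trans (h u hu)

variable {V : Type} [Fintype V] [DecidableEq V]

/-- Every point has a small set that fixes the value. -/
def Val (b S : Finset V) (c : ℕ) (f : Finset V → Bool) : Prop :=
  ∀ y, b ⊆ y → ∃ D ⊆ S, D.card ≤ c ∧ ∀ y', b ⊆ y' → Agr D y y' → f y' = f y

omit [Fintype V] [DecidableEq V] in
theorem val_of_cert {b S : Finset V} {c : ℕ} {f : Finset V → Bool}
    (h : Cert b S c fun y => f y = true) : Val b S c f := by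
  intro y hy
  by_cases hf : f y = true
  · obtain ⟨D, h1, h2, h3⟩ := h.1 y hy hf
    exact ⟨D, h1, h2, fun y' hy' ha => (h3 y' hy' ha).trans hf.symm⟩
  · obtain ⟨D, h1, h2, h3⟩ := h.2 y hy hf
    refine ⟨D, h1, h2, fun y' hy' ha => ?_⟩
    have : ¬f y' = true := h3 y' hy' ha
    rw [Bool.not_eq_true] at this hf
    rw [this, hf]

omit [Fintype V] [DecidableEq V] in
theorem cert_of_val {b S : Finset V} {c : ℕ} {f : Finset V → Bool} (h : Val b S c f) :
    Cert b S c fun y => f y = true := by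
  constructor
  · intro y hy hf
    obtain ⟨D, h1, h2, h3⟩ := h y hy
    exact ⟨D, h1, h2, fun y' hy' ha => (h3 y' hy' ha).trans hf⟩
  · intro y hy hf
    obtain ⟨D, h1, h2, h3⟩ := h y hy
    exact ⟨D, h1, h2, fun y' hy' ha e => hf ((h3 y' hy' ha).symm.trans e)⟩

omit [Fintype V] in
theorem val_tree {b S : Finset V} {c w : ℕ} {τ : Finset V → Lang} {Q : Set (Lang → Bool)}
    (hQ : ∀ g ∈ Q, Val b S c fun y => g (τ y)) {f : Lang → Bool} (hf : DTq Q w f) :
    Val b S (w * c) fun y => f (τ y) := by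
  induction hf with
  | const d β => exact fun y _ => ⟨∅, empty_subset _, by simp, fun _ _ _ => rfl⟩
  | @node d g f₀ f₁ hg _ _ ih₀ ih₁ =>
    intro y hy
    obtain ⟨D, h1, h2, h3⟩ := hQ g hg y hy
    obtain ⟨D', h1', h2', h3'⟩ : ∃ D' ⊆ S, D'.card ≤ d * c ∧ ∀ y', b ⊆ y' → Agr D' y y' →
        (bif g (τ y) then f₁ (τ y') else f₀ (τ y')) =
          (bif g (τ y) then f₁ (τ y) else f₀ (τ y)) := by
      cases g (τ y)
      · exact ih₀ y hy
      · exact ih₁ y hy
    refine ⟨D ∪ D', union_subset h1 h1', ?_, fun y' hy' ha => ?_⟩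
    · have := card_union_le D D'
      rw [Nat.succ_mul]
      omega
    · have e : g (τ y') = g (τ y) := h3 y' hy' fun v hv => ha v (mem_union_left _ hv)
      have e' := h3' y' hy' fun v hv => ha v (mem_union_right _ hv)
      beta_reduce
      rw [e, e']

end Ind

theorem indS : IndStmt := by
  intro V _ A C δ s
  induction s generalizing A with
  | zero => exact fun _ _ _ => ⟨∅, empty_subset _, rfl, by simp⟩
  | succ s ih =>
    intro h1 h2 h3
    have hA : A.Nonempty := card_pos.1 (lt_of_lt_of_le (by positivity) h3)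
    obtain ⟨v, hv, hd⟩ := Ind.exists_low A C δ hA h1
    have hc : (insert v (C v ∪ A.filter fun u => v ∈ C u)).card ≤ 2 * δ + 1 := by
      have a1 := card_insert_le v (C v ∪ A.filter fun u => v ∈ C u)
      have a2 := card_union_le (C v) (A.filter fun u => v ∈ C u)
      have a3 := h1 v hv
      omega
    obtain ⟨S, hS, hs, hi⟩ := ih (A \ insert v (C v ∪ A.filter fun u => v ∈ C u))
      (fun u hu => h1 u (mem_sdiff.1 hu).1) (fun u hu => h2 u (mem_sdiff.1 hu).1) (by
        have := le_card_sdiff (insert v (C v ∪ A.filter fun u => v ∈ C u)) A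
        rw [Nat.mul_succ] at h3
        omega)
    have key : ∀ u ∈ S, u ∈ A ∧ u ≠ v ∧ u ∉ C v ∧ v ∉ C u := by
      intro u hu
      have := mem_sdiff.1 (hS hu)
      simp only [mem_insert, mem_union, mem_filter, not_or, not_and] at this
      exact ⟨this.1, this.2.1, this.2.2.1, this.2.2.2 this.1⟩
    refine ⟨insert v S, insert_subset hv fun u hu => (key u hu).1, ?_, ?_⟩
    · rw [card_insert_of_notMem fun h => (key v h).2.1 rfl, hs]
    · intro u hu u' hu'
      rcases mem_insert.1 hu with e | hu1 <;> rcases mem_insert.1 hu' with e' | hu1'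
      · rw [e, e']
        exact h2 _ hv
      · rw [e]
        exact (key u' hu1').2.2.2
      · rw [e']
        exact (key u hu1).2.2.1
      · exact hi u hu1 u' hu1'

theorem circS : CircStmt := by
  intro V _ _ b S c w τ G h1 h2
  have hd : ∀ (w : ℕ) (f : Lang → Bool), DT w f → Ind.Val b S (w * c) fun y => f (τ y) := by
    intro w f hf
    refine Ind.val_tree ?_ hf
    rintro _ ⟨s, rfl⟩
    exact Ind.val_of_cert (h1 s)
  refine ⟨fun f hf => Ind.cert_of_val (hd w f hf), ?_⟩
  rintro f ⟨G', hG', e⟩ y hy hf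
  obtain ⟨g, hg, hgy⟩ := (e _).1 hf
  have hv : Ind.Val b S (w * c) fun y => g (τ y) := by
    refine Ind.val_tree ?_ (hG' g hg)
    rintro g' (h | h)
    · exact Ind.val_of_cert (h2 g' h)
    · simpa only [one_mul] using hd 1 g' h
  obtain ⟨D, a1, a2, a3⟩ := hv y hy
  exact ⟨D, a1, a2, fun y' hy' ha => (e _).2 ⟨g, hg, (a3 y' hy' ha).trans hgy⟩⟩

end Pool.Agent.MP_a2d820_lc.h31p
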