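import Pool.Agent.MP_a2d820_lc.h31p.Spec

/-! Rows PEEL and PAR: alternating chains of two disjoint sets. -/

set_option autoImplicit false

namespace Pool.Agent.MP_a2d820_lc.h31p

open Finset Pool.Agent.MP_a2d820_lc.h69

namespace Peel

variable {V : Type} [Fintype V] [DecidableEq V]

omit [Fintype V] [DecidableEq V] in
theorem ch_mono {b : Finset V} {A : Bool → Finset V → Prop} {j : ℕ} {y y' : Finset V}
    (h : Ch b A j y) (hy : y ⊆ y') : Ch b A j y' := by
  cases j with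
  | zero => trivial
  | succ j =>
    obtain ⟨c, h1, h2, h3⟩ := h
    exact ⟨c, h1, h2.trans hy, h3⟩

omit [Fintype V] [DecidableEq V] in
theorem ch_down {b : Finset V} {A : Bool → Finset V → Prop} {i j : ℕ} {y : Finset V}
    (hij : i ≤ j) (h : Ch b A j y) : Ch b A i y := by
  induction hij with
  | refl => exact h
  | step _ ih =>
    obtain ⟨c, -, h2, h3, -⟩ := h
    exact ih (ch_mono h3 h2)

omit [Fintype V] [DecidableEq V] in
theorem top {b : Finset V} {A : Bool → Finset V → Prop} {p : ℕ} {y : Finset V}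
    (h : ¬Ch b A p y) : ∃ I < p, Ch b A I y ∧ ¬Ch b A (I + 1) y := by
  induction p with
  | zero => exact absurd trivial h
  | succ p ih =>
    by_cases hp : Ch b A p y
    · exact ⟨p, Nat.lt_succ_self p, hp, h⟩
    · obtain ⟨I, h1, h2⟩ := ih hp
      exact ⟨I, Nat.lt_succ_of_lt h1, h2⟩

omit [Fintype V] in
theorem up_down {U : Finset V → Finset V} {j : ℕ} {a : Finset V} (h : Up U (j + 1) a) :
    Up U j a := by
  induction j generalizing a with
  | zero => trivial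
  | succ j ih =>
    obtain ⟨c, h1, h2, h3⟩ := h
    exact ⟨c, h1, h2, ih h3⟩

/-- Chains whose steps lie in the chosen certificates. -/
def Tg (b : Finset V) (A : Bool → Finset V → Prop) (D : Bool → Finset V → Finset V) :
    ℕ → Finset V → Prop
  | 0, c => c = b
  | j + 1, c => ∃ c₁, Tg b A D j c₁ ∧ c₁ ⊆ c ∧ A (!j.bodd) c ∧ c \ c₁ ⊆ D (!j.bodd) c

variable {b b' S : Finset V} {A : Bool → Finset V → Prop} {D : Bool → Finset V → Finset V} {s : ℕ}

omit [Fintype V] in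
theorem tg_facts (hD : ∀ β c, D β c ⊆ S ∧ (D β c).card ≤ s) {j : ℕ} {c : Finset V}
    (h : Tg b' A D j c) : b' ⊆ c ∧ Ch b' A j c ∧ c \ b' ⊆ S ∧ (c \ b').card ≤ j * s := by
  induction j generalizing c with
  | zero =>
    obtain rfl : c = b' := h
    exact ⟨Subset.rfl, trivial, by simp, by simp⟩
  | succ j ih =>
    obtain ⟨c₁, h1, h2, h3, h4⟩ := h
    obtain ⟨a1, a2, a3, a4⟩ := ih h1
    have e : c \ b' ⊆ c₁ \ b' ∪ D (!j.bodd) c := fun v hv => by
      by_cases hc : v ∈ c₁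
      · exact mem_union_left _ (mem_sdiff.2 ⟨hc, (mem_sdiff.1 hv).2⟩)
      · exact mem_union_right _ (h4 (mem_sdiff.2 ⟨(mem_sdiff.1 hv).1, hc⟩))
    refine ⟨a1.trans h2, ⟨c, a1.trans h2, Subset.rfl, ch_mono a2 h2, h3⟩,
      e.trans (union_subset a3 (hD _ _).1), ?_⟩
    have := (card_le_card e).trans (card_union_le _ _)
    have := (hD (!j.bodd) c).2
    rw [Nat.succ_mul]
    omega

theorem tight (hD : ∀ β c, D β c ⊆ S ∧ (D β c).card ≤ s) (hb : b ⊆ b')
    (hA : ∀ β c, b ⊆ c → A β c → ∀ y', b ⊆ y' → Agr (D β c) c y' → A β y') {j : ℕ}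
    {y : Finset V} (hy : b' ⊆ y) (h : Ch b' A j y) : ∃ c ⊆ y, Tg b' A D j c := by
  classical
  induction j generalizing y with
  | zero => exact ⟨b', hy, rfl⟩
  | succ j ih =>
    obtain ⟨c₀, h1, h2, h3, h4⟩ := h
    obtain ⟨c₁, h5, h6⟩ := ih h1 h3
    have hb1 : b ⊆ c₁ := hb.trans (tg_facts hD h6).1
    obtain ⟨c, hc, hm⟩ := exists_min_image
      (univ.filter fun c => c₁ ⊆ c ∧ c ⊆ c₀ ∧ A (!j.bodd) c) card
      ⟨c₀, mem_filter.2 ⟨mem_univ _, h5, Subset.rfl, h4⟩⟩
    obtain ⟨a1, a2, a3⟩ := (mem_filter.1 hc).2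
    have hs : c₁ ∪ D (!j.bodd) c ∩ c ⊆ c := union_subset a1 inter_subset_right
    have h7 : A (!j.bodd) (c₁ ∪ D (!j.bodd) c ∩ c) :=
      hA _ c (hb1.trans a1) a3 _ (hb1.trans subset_union_left) fun v hv =>
        ⟨fun h => hs h, fun h => mem_union_right _ (mem_inter.2 ⟨hv, h⟩)⟩
    have h8 := eq_of_subset_of_card_le hs
      (hm _ (mem_filter.2 ⟨mem_univ _, subset_union_left, hs.trans a2, h7⟩))
    refine ⟨c, a2.trans h2, c₁, h6, a1, a3, fun v hv => ?_⟩
    obtain ⟨v1, v2⟩ := mem_sdiff.1 hv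
    rw [← h8] at v1
    exact (mem_inter.1 ((mem_union.1 v1).resolve_left v2)).1

omit [Fintype V] in
theorem tg_up (hD : ∀ β c, D β c ⊆ S ∧ (D β c).card ≤ s) (hb : b ⊆ b')
    (hd : ∀ y, b ⊆ y → ¬(A true y ∧ A false y)) {j i : ℕ} {c : Finset V}
    (h : Tg b' A D (j + 1) c) (hu : Up (fun c => D true c ∪ D false c) i c) :
    Up (fun c => D true c ∪ D false c) (i + j) b' := by
  have hU : ∀ β c, D β c ⊆ D true c ∪ D false c := fun β c => by
    cases β
    exacts [subset_union_right, subset_union_left]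
  induction j generalizing i c with
  | zero =>
    obtain ⟨c₁, h1, h2, -, h4⟩ := h
    obtain rfl : c₁ = b' := h1
    rcases eq_or_ne c₁ c with rfl | hne
    · exact hu
    · exact up_down ⟨c, Finset.ssubset_iff_subset_ne.2 ⟨h2, hne⟩, h4.trans (hU _ _), hu⟩
  | succ j ih =>
    obtain ⟨c₁, h1, h2, h3, h4⟩ := h
    have hne : c₁ ≠ c := by
      rintro rfl
      have h5 := hd _ (hb.trans (tg_facts hD h1).1)
      obtain ⟨_, -, -, h6, -⟩ := h1
      rw [Nat.bodd_succ] at h3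
      cases hj : j.bodd <;> rw [hj] at h3 h6
      exacts [h5 ⟨h6, h3⟩, h5 ⟨h3, h6⟩]
    have := ih (i := i + 1) h1
      ⟨c, Finset.ssubset_iff_subset_ne.2 ⟨h2, hne⟩, h4.trans (hU _ _), hu⟩
    rwa [Nat.add_right_comm] at this

end Peel

open Peel

theorem peelS : PeelStmt := by
  intro V _ _ b S s A h1 hd
  have key : ∀ β c, ∃ D : Finset V, (D ⊆ S ∧ D.card ≤ s) ∧
      (b ⊆ c → A β c → ∀ y', b ⊆ y' → Agr D c y' → A β y') := fun β c => by
    by_cases h : b ⊆ c ∧ A β c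
    · obtain ⟨D, a1, a2, a3⟩ := h1 β c h.1 h.2
      exact ⟨D, ⟨a1, a2⟩, fun _ _ => a3⟩
    · exact ⟨∅, by simp, fun a1 a2 => absurd ⟨a1, a2⟩ h⟩
  choose D hD hA using key
  refine ⟨fun c => D true c ∪ D false c, fun c => ?_, fun b' hb p hp => ?_⟩
  · have := card_union_le (D true c) (D false c)
    have := (hD true c).2
    have := (hD false c).2
    show (D true c ∪ D false c).card ≤ 2 * s
    omega
  have no : ∀ y, ¬Ch b' A (p + 1) y := fun y h => by
    obtain ⟨c₀, a1, -, a2⟩ := h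
    obtain ⟨c, -, hc⟩ := tight (j := p + 1) hD hb hA a1 ⟨c₀, a1, Subset.rfl, a2⟩
    have := tg_up (i := 0) hD hb hd hc trivial
    rw [Nat.zero_add] at this
    exact hp this
  refine ⟨no, fun j y hy h => ?_⟩
  have hj : j ≤ p + 1 := by
    by_contra hc
    exact no y (ch_down (by omega) h)
  obtain ⟨c, a1, a2⟩ := tight hD hb hA hy h
  obtain ⟨a3, a4, a5, a6⟩ := tg_facts hD a2
  refine ⟨c \ b', a5, sdiff_subset.trans a1, a6.trans (Nat.mul_le_mul_right _ hj), ?_⟩
  rwa [union_sdiff_of_subset a3]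

theorem parS : ParStmt := by
  intro V _ _ b A p hp
  refine ⟨fun y β hy hA P t _ hP ht => ?_, fun g b' S c hg hb hc => ?_⟩
  · obtain ⟨I, h1, h2, h3⟩ := top (hp y)
    have e : (range P).filter t = range I := by
      ext j
      rw [mem_filter, mem_range, mem_range]
      constructor
      · rintro ⟨a1, a2⟩
        by_contra hj
        exact h3 (ch_down (by omega) ((ht j a1).1 a2).2)
      · intro a1
        exact ⟨by omega, (ht j (by omega)).2 ⟨by omega, ch_down a1 h2⟩⟩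
    rw [e, card_range]
    by_contra hne
    refine h3 ⟨y, hy, Subset.rfl, h2, ?_⟩
    cases hI : I.bodd <;> cases β <;> simp_all
  · have key : ∀ y, b' ⊆ y → ∃ D ⊆ S, D.card ≤ 2 * c ∧
        ∀ y', b' ⊆ y' → Agr D y y' → (g y' ↔ g y) := fun y hy => by
      obtain ⟨I, h1, h2, h3⟩ := top (hp y)
      obtain ⟨D₁, a1, a2, a3⟩ := (hc I h1.le).1 y hy h2
      obtain ⟨D₂, a4, a5, a6⟩ := (hc (I + 1) h1).2 y hy h3
      refine ⟨D₁ ∪ D₂, union_subset a1 a4, ?_, fun y' hy' ha => ?_⟩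
      · have := card_union_le D₁ D₂
        omega
      · have e1 : ¬A (!I.bodd) y := fun h => h3 ⟨y, hb.trans hy, Subset.rfl, h2, h⟩
        have e2 : ¬A (!I.bodd) y' := fun h =>
          a6 y' hy' (fun v hv => ha v (mem_union_right _ hv)) ⟨y', hb.trans hy', Subset.rfl,
            a3 y' hy' fun v hv => ha v (mem_union_left _ hv), h⟩
        rw [hg] at e1 e2
        tauto
    refine ⟨fun y hy h => ?_, fun y hy h => ?_⟩
    · obtain ⟨D, a1, a2, a3⟩ := key y hy
      exact ⟨D, a1, a2, fun y' hy' ha => (a3 y' hy' ha).2 h⟩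
    · obtain ⟨D, a1, a2, a3⟩ := key y hy
      exact ⟨D, a1, a2, fun y' hy' ha h' => h ((a3 y' hy' ha).1 h')⟩

end Pool.Agent.MP_a2d820_lc.h31p
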