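import Pool.Agent.MP_a2d820_lc.h31p.Spec

/-! The potential that counts hits. -/

set_option autoImplicit false
set_option linter.unusedSectionVars false

namespace Pool.Agent.MP_a2d820_lc.h31p

open Finset

namespace Pot

variable {V : Type} [Fintype V] [DecidableEq V]

lemma pl_le {lam : V → ℝ} (h0 : ∀ v, 0 ≤ lam v) (h1 : ∑ v, lam v ≤ 1) {A B C : Finset V}
    (h : C ⊆ A ∪ B) : (∏ v ∈ A, lam v) * ∏ v ∈ B, lam v ≤ ∏ v ∈ C, lam v := by
  have h2 : ∀ v, lam v ≤ 1 := fun v => (single_le_sum (fun v _ => h0 v) (mem_univ v)).trans h1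
  rw [← prod_union_inter]
  calc _ ≤ (∏ v ∈ A ∪ B, lam v) * 1 :=
        mul_le_mul_of_nonneg_left (prod_le_one (fun v _ => h0 v) fun v _ => h2 v)
          (prod_nonneg fun v _ => h0 v)
    _ ≤ _ := by
        rw [mul_one]
        exact prod_le_prod_of_subset_of_le_one h (fun v _ => h0 v) fun v _ _ => h2 v

lemma sum_pl {lam : V → ℝ} (h0 : ∀ v, 0 ≤ lam v) (h1 : ∑ v, lam v ≤ 1) (S : Finset (Finset V))
    (φ : Finset V → Finset V) (hφ : Set.InjOn φ S) : ∑ e ∈ S, ∏ v ∈ φ e, lam v ≤ 3 := by
  rw [← sum_image (f := fun A => ∏ v ∈ A, lam v) hφ]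
  calc _ ≤ ∑ A ∈ (univ : Finset V).powerset, ∏ v ∈ A, lam v :=
        sum_le_sum_of_subset_of_nonneg (fun A _ => mem_powerset.2 (subset_univ A))
          fun A _ _ => prod_nonneg fun v _ => h0 v
    _ = ∏ v, (1 + lam v) := (prod_one_add _).symm
    _ ≤ ∏ v, Real.exp (lam v) := prod_le_prod (fun v _ => by linarith [h0 v])
          fun v _ => by linarith [Real.add_one_le_exp (lam v)]
    _ ≤ Real.exp 1 := by
        rw [← Real.exp_sum]
        exact Real.exp_le_exp.2 h1
    _ ≤ 3 := by linarith [Real.exp_one_lt_d9]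

lemma resample (K : V → Finset V) (G : (V → V) → ℝ) (r : V) :
    ∑ κ ∈ Fintype.piFinset K, G κ * (K r).card =
      ∑ κ ∈ Fintype.piFinset K, ∑ x ∈ K r, G (Function.update κ r x) := by
  have e : ∀ κ, G κ * (K r).card = ∑ _x ∈ K r, G κ := fun κ => by
    rw [sum_const, nsmul_eq_mul, mul_comm]
  have m : ∀ p ∈ Fintype.piFinset K ×ˢ K r,
      (Function.update p.1 r p.2, p.1 r) ∈ Fintype.piFinset K ×ˢ K r := by
    intro p hp
    obtain ⟨h1, h2⟩ := mem_product.1 hp
    rw [Fintype.mem_piFinset] at h1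
    refine mem_product.2 ⟨Fintype.mem_piFinset.2 fun v => ?_, h1 r⟩
    by_cases hv : v = r
    · subst hv
      simpa using h2
    · simpa [hv] using h1 v
  simp only [e]
  rw [← sum_product', ← sum_product']
  refine sum_nbij' (fun p => (Function.update p.1 r p.2, p.1 r))
    (fun p => (Function.update p.1 r p.2, p.1 r)) m m ?_ ?_ ?_ <;> intro p _ <;> simp

lemma sum_inter {K : V → Finset V} {Rel : Finset V}
    (h : ∀ r ∈ Rel, ∀ r' ∈ Rel, ∀ x ∈ K r, x ∈ K r' → r = r') (D : Finset V) :
    ∑ r ∈ Rel, ((K r).filter (· ∈ D)).card ≤ D.card := by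
  rw [← card_biUnion]
  · exact card_le_card (biUnion_subset.2 fun r _ x hx => (mem_filter.1 hx).2)
  · intro r hr r' hr' hne
    exact disjoint_left.2 fun x h1 h2 => hne (h r hr r' hr' x (mem_filter.1 h1).1
      (mem_filter.1 h2).1)

variable (K : V → Finset V) (b a : Finset V) (lam : V → ℝ)
  (On D : (V → V) → Finset V → Finset V)

/-- The weight of the hits among the regions of `O`. -/
def hit (κ : V → V) (e O : Finset V) : ℝ :=
  ∑ r ∈ O, if r ∉ On κ e ∧ κ r ∈ D κ e then ((K r).card : ℝ) else 0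

/-- The potential. -/
def pot : ℕ → (V → V) → Finset V → ℝ
  | 0, _, e => ∏ v ∈ (e \ a) ∪ (a \ e), lam v
  | i + 1, κ, e' => ∑ e with b ⊆ e ∧ e ⊆ e',
      pot i κ e * (∏ v ∈ e' \ e, lam v) * hit K On D κ e (On κ e')

variable {K b a lam On D}

lemma hit_term (κ : V → V) (e : Finset V) (r : V) :
    0 ≤ if r ∉ On κ e ∧ κ r ∈ D κ e then ((K r).card : ℝ) else 0 := by
  split_ifs
  · exact Nat.cast_nonneg _
  · exact le_rfl

lemma hit_nonneg (κ : V → V) (e O : Finset V) : 0 ≤ hit K On D κ e O :=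
  sum_nonneg fun r _ => hit_term κ e r

lemma hit_mono (κ : V → V) (e : Finset V) {O O' : Finset V} (h : O ⊆ O') :
    hit K On D κ e O ≤ hit K On D κ e O' :=
  sum_le_sum_of_subset_of_nonneg h fun r _ _ => hit_term κ e r

lemma pot_nonneg (h0 : ∀ v, 0 ≤ lam v) (i : ℕ) (κ : V → V) (e : Finset V) :
    0 ≤ pot K b a lam On D i κ e := by
  induction i generalizing e with
  | zero => exact prod_nonneg fun v _ => h0 v
  | succ i ih =>
    exact sum_nonneg fun e _ =>
      mul_nonneg (mul_nonneg (ih e) (prod_nonneg fun v _ => h0 v)) (hit_nonneg _ _ _)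

lemma pot_loc {Rel : Finset V} (hS : Sys Rel b On)
    (hD : ∀ κ κ' e, b ⊆ e → (∀ r ∈ On κ e, κ' r = κ r) → D κ' e = D κ e) (i : ℕ) {κ κ' : V → V}
    {e' : Finset V} (hb : b ⊆ e') (h : ∀ r ∈ On κ e', κ' r = κ r) :
    pot K b a lam On D i κ' e' = pot K b a lam On D i κ e' := by
  induction i generalizing e' with
  | zero => rfl
  | succ i ih =>
    refine sum_congr rfl fun e he => ?_
    obtain ⟨h1, h2⟩ := (mem_filter.1 he).2
    have h3 : ∀ r ∈ On κ e, κ' r = κ r := fun r hr => h r (hS.mono κ e e' h1 h2 hr)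
    rw [ih h1 h3, hS.loc κ κ' e' hb h, hit, hit, hS.loc κ κ' e h1 h3, hD κ κ' e h1 h3]
    congr 1
    exact sum_congr rfl fun r hr => by rw [h r hr]

lemma step {Rel : Finset V} (hS : Sys Rel b On) (h0 : ∀ v, 0 ≤ lam v)
    (hK : ∀ r ∈ Rel, ∀ r' ∈ Rel, ∀ x ∈ K r, x ∈ K r' → r = r') {w : ℕ}
    (hw : ∀ κ e, (D κ e).card ≤ w)
    (hD : ∀ κ κ' e, b ⊆ e → (∀ r ∈ On κ e, κ' r = κ r) → D κ' e = D κ e) (i : ℕ)
    {e : Finset V} (hb : b ⊆ e) :
    ∑ κ ∈ Fintype.piFinset K, pot K b a lam On D i κ e * hit K On D κ e Rel ≤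
      w * ∑ κ ∈ Fintype.piFinset K, pot K b a lam On D i κ e := by
  have e1 : ∀ r, ∑ κ ∈ Fintype.piFinset K, pot K b a lam On D i κ e *
      (if r ∉ On κ e ∧ κ r ∈ D κ e then ((K r).card : ℝ) else 0) ≤
      ∑ κ ∈ Fintype.piFinset K, pot K b a lam On D i κ e * ((K r).filter (· ∈ D κ e)).card := by
    intro r
    have := resample K (fun κ => if r ∉ On κ e ∧ κ r ∈ D κ e then pot K b a lam On D i κ e
      else 0) r
    simp only [ite_mul, zero_mul] at this
    simp only [mul_ite, mul_zero]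
    rw [this]
    refine sum_le_sum fun κ _ => ?_
    rw [mul_comm, ← nsmul_eq_mul, ← sum_const, sum_filter]
    refine sum_le_sum fun x _ => ?_
    have p0 := pot_nonneg (K := K) (b := b) (a := a) (On := On) (D := D) h0 i κ e
    by_cases hr : r ∉ On (Function.update κ r x) e
    · have h1 : ∀ r' ∈ On (Function.update κ r x) e, κ r' = Function.update κ r x r' :=
        fun r' hr' => (Function.update_of_ne (fun h : r' = r => hr (h ▸ hr')) _ _).symm
      rw [← pot_loc hS hD i hb h1, ← hD _ _ e hb h1, Function.update_self]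
      simp only [hr, not_false_eq_true, true_and, le_refl]
    · rw [if_neg fun h => hr h.1]
      split_ifs
      · exact p0
      · exact le_rfl
  simp only [hit, mul_sum]
  rw [sum_comm]
  refine (sum_le_sum fun r _ => e1 r).trans ?_
  rw [sum_comm]
  refine sum_le_sum fun κ _ => ?_
  rw [← mul_sum, mul_comm]
  refine mul_le_mul_of_nonneg_right ?_ (pot_nonneg h0 i κ e)
  exact_mod_cast (sum_inter hK (D κ e)).trans (hw κ e)

end Pot

open Pot in
theorem potS : PotStmt := by
  intro V _ _ K Rel b₀ Fr b a rk lam On D w hK hS hw hD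
  have h0 := hK.lam0
  have h1 := hK.lam1
  have pn := pot_nonneg (K := K) (b := b) (a := a) (On := On) (D := D) h0
  have pp : ∀ A : Finset V, 0 ≤ ∏ v ∈ A, lam v := fun A => prod_nonneg fun v _ => h0 v
  refine ⟨pot K b a lam On D, fun _ _ => rfl, pn, fun i κ e e' hb he => ?_,
    fun i κ e e' r hb he r1 r2 r3 => ?_, fun i => ?_⟩
  · cases i with
    | zero =>
      refine pl_le h0 h1 fun v => ?_
      have := @he v
      simp only [mem_union, mem_sdiff]
      tauto
    | succ i =>
      rw [pot, pot, sum_mul]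
      refine (sum_le_sum fun c hc => ?_).trans (sum_le_sum_of_subset_of_nonneg
        (fun c hc => mem_filter.2 ⟨mem_univ c, (mem_filter.1 hc).2.1,
          (mem_filter.1 hc).2.2.trans he⟩)
        fun c _ _ => mul_nonneg (mul_nonneg (pn i κ c) (pp _)) (hit_nonneg _ _ _))
      rw [mul_right_comm, mul_assoc (pot K b a lam On D i κ c)]
      refine mul_le_mul (mul_le_mul_of_nonneg_left (pl_le h0 h1 fun v => ?_) (pn i κ c))
        (hit_mono κ c (hS.mono κ e e' hb he)) (hit_nonneg _ _ _) (mul_nonneg (pn i κ c) (pp _))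
      simp only [mem_union, mem_sdiff]
      tauto
  · refine le_trans ?_ (single_le_sum (f := fun c => pot K b a lam On D i κ c *
      (∏ v ∈ e' \ c, lam v) * hit K On D κ c (On κ e'))
      (fun c _ => mul_nonneg (mul_nonneg (pn i κ c) (pp _)) (hit_nonneg _ _ _))
      (mem_filter.2 ⟨mem_univ e, hb, he⟩))
    refine mul_le_mul_of_nonneg_left ?_ (mul_nonneg (pn i κ e) (pp _))
    refine le_trans ?_ (single_le_sum (fun r _ => hit_term κ e r) r2)
    rw [if_pos ⟨r1, r3⟩]
  · induction i with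
    | zero =>
      rw [pow_zero, mul_one, mul_comm, ← nsmul_eq_mul]
      refine sum_le_card_nsmul _ _ _ fun κ _ => sum_pl h0 h1 univ _ fun e _ e' _ h => ?_
      ext v
      have := Finset.ext_iff.1 h v
      simp only [mem_union, mem_sdiff] at this
      tauto
    | succ i ih =>
      have e1 : ∀ κ, ∑ e', pot K b a lam On D (i + 1) κ e' ≤
          ∑ e with b ⊆ e, 3 * (pot K b a lam On D i κ e * hit K On D κ e Rel) := by
        intro κ
        simp only [pot]
        rw [sum_comm' (t' := univ.filter (b ⊆ ·)) (s' := fun e => univ.filter (e ⊆ ·))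
          (fun e' e => by simp [and_comm])]
        refine sum_le_sum fun e _ => ?_
        calc _ ≤ ∑ e' with e ⊆ e', (∏ v ∈ e' \ e, lam v) *
              (pot K b a lam On D i κ e * hit K On D κ e Rel) := by
              refine sum_le_sum fun e' _ => ?_
              rw [mul_comm (pot K b a lam On D i κ e), mul_assoc]
              exact mul_le_mul_of_nonneg_left (mul_le_mul_of_nonneg_left
                (hit_mono κ e (hS.rel κ e')) (pn i κ e)) (pp _)
          _ ≤ _ := by
              rw [← sum_mul]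
              refine mul_le_mul_of_nonneg_right (sum_pl h0 h1 _ _ fun c hc c' hc' h => ?_)
                (mul_nonneg (pn i κ e) (hit_nonneg _ _ _))
              rw [← sdiff_union_of_subset (mem_filter.1 hc).2,
                ← sdiff_union_of_subset (mem_filter.1 hc').2]
              exact congrArg (· ∪ e) h
      calc _ ≤ ∑ κ ∈ Fintype.piFinset K, ∑ e with b ⊆ e,
            3 * (pot K b a lam On D i κ e * hit K On D κ e Rel) := sum_le_sum fun κ _ => e1 κ
        _ ≤ ∑ e with b ⊆ e, 3 * (w * ∑ κ ∈ Fintype.piFinset K, pot K b a lam On D i κ e) := by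
            rw [sum_comm]
            refine sum_le_sum fun e he => ?_
            rw [← mul_sum]
            exact mul_le_mul_of_nonneg_left
              (step hS h0 hK.disj hw hD i (mem_filter.1 he).2) (by norm_num)
        _ ≤ ∑ e, 3 * (w * ∑ κ ∈ Fintype.piFinset K, pot K b a lam On D i κ e) :=
            sum_le_sum_of_subset_of_nonneg (filter_subset _ _) fun e _ _ =>
              mul_nonneg (by norm_num)
                (mul_nonneg (Nat.cast_nonneg _) (sum_nonneg fun κ _ => pn i κ e))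
        _ = 3 * w * ∑ κ ∈ Fintype.piFinset K, ∑ e, pot K b a lam On D i κ e := by
            rw [← mul_sum, ← mul_sum, sum_comm, mul_assoc]
        _ ≤ 3 * w * (3 * (3 * w) ^ i * (Fintype.piFinset K).card) :=
            mul_le_mul_of_nonneg_left ih (by positivity)
        _ = _ := by ring

end Pool.Agent.MP_a2d820_lc.h31p
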