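import Pool.Agent.MP_a2d820_lc.h31p.Spec

/-!
The induction over the layers of one round.
-/

set_option autoImplicit false

namespace Pool.Agent.MP_a2d820_lc.h31p

open Finset

namespace Round

variable {V : Type} [Fintype V] [DecidableEq V]

theorem pr_union {ι : Type} {q : ℝ} (h0 : 0 ≤ q) (h1 : q ≤ 1) (J : Finset ι)
    (E : ι → Finset V → Prop) {F : Finset V → Prop} (h : ∀ z, F z → ∃ t ∈ J, E t z) :
    Pr q F ≤ ∑ t ∈ J, Pr q (E t) := by
  classical
  have hw : ∀ z : Finset V, 0 ≤ wt q z := fun z =>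
    mul_nonneg (pow_nonneg (by linarith) _) (pow_nonneg h0 _)
  simp only [Pr]
  rw [sum_comm]
  refine sum_le_sum fun z _ => ?_
  have hn : ∀ t ∈ J, 0 ≤ (if E t z then wt q z else 0) := fun t _ => by
    split_ifs
    exacts [hw z, le_rfl]
  by_cases hz : F z
  · obtain ⟨t, ht, e⟩ := h z hz
    rw [if_pos hz]
    exact le_trans (le_of_eq (if_pos e).symm) (single_le_sum hn ht)
  · rw [if_neg hz]
    exact sum_nonneg hn

theorem pr_and {q x : ℝ} {p : Prop} {E : Finset V → Prop} (hx : 0 ≤ x) (h : p → Pr q E ≤ x) :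
    Pr q (fun z => p ∧ E z) ≤ x := by
  by_cases hp : p
  · simpa [hp] using h hp
  · simpa [Pr, hp] using hx

omit [Fintype V] [DecidableEq V] in
theorem one_up {b b' S S' : Finset V} {c c' : ℕ} {f g : Finset V → Prop} (h : One b S c f)
    (hb : b ⊆ b') (hS : S ⊆ S') (hc : c ≤ c') (e : ∀ y, b' ⊆ y → (g y ↔ f y)) :
    One b' S' c' g := by
  intro y hy hg
  obtain ⟨D, d1, d2, d3⟩ := h y (hb.trans hy) ((e y hy).1 hg)
  exact ⟨D, d1.trans hS, d2.trans hc, fun y' a1 a2 => (e y' a1).2 (d3 y' (hb.trans a1) a2)⟩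

omit [Fintype V] [DecidableEq V] in
theorem cert_up {b b' S S' : Finset V} {c c' : ℕ} {f g : Finset V → Prop} (h : Cert b S c f)
    (hb : b ⊆ b') (hS : S ⊆ S') (hc : c ≤ c') (e : ∀ y, b' ⊆ y → (g y ↔ f y)) :
    Cert b' S' c' g :=
  ⟨one_up h.1 hb hS hc e, one_up h.2 hb hS hc fun y hy => not_congr (e y hy)⟩

omit [Fintype V] [DecidableEq V] in
theorem ch_mono {b y y' : Finset V} {A : Bool → Finset V → Prop} {j : ℕ} (h : Ch b A j y)
    (hy : y ⊆ y') : Ch b A j y' := by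
  cases j with
  | zero => trivial
  | succ j =>
    obtain ⟨c, a1, a2, a3⟩ := h
    exact ⟨c, a1, a2.trans hy, a3⟩

omit [Fintype V] [DecidableEq V] in
theorem ch_congr {b y : Finset V} {A A' : Bool → Finset V → Prop} {j : ℕ} (h : Ch b A j y)
    (e : ∀ β c, b ⊆ c → c ⊆ y → A β c → A' β c) : Ch b A' j y := by
  induction j generalizing y with
  | zero => trivial
  | succ j ih =>
    obtain ⟨c, a1, a2, a3, a4⟩ := h
    exact ⟨c, a1, a2, ih a3 fun β d d1 d2 => e β d d1 (d2.trans a2), e _ c a1 a2 a4⟩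

omit [Fintype V] in
theorem fat_zero {ι : Type} {P : Finset ι} {C : ι → Finset V} {f : ι → ℕ} {Q s : ℕ}
    {b : Finset V} (h : Fat P C f Q s b) (hQ : 1 ≤ Q) : Fat P C f Q 0 b := fun π hπ =>
  (Nat.mul_le_mul_left _ (Nat.pow_le_pow_right hQ (Nat.zero_le s))).trans (h π hπ)

theorem out_up {ι : Type} {Fr : Finset V} {rk : V → ℕ} {Cd : Finset ι} {ly m P : ι → ℕ}
    {reg : ι → ℕ → V} {A : ι → Bool → Finset V → Prop} {i : ℕ} {b b' : Finset V}
    {O : Finset V → Finset V} (h : Out Fr rk Cd ly m P reg A i b O) (hb : b ⊆ b') :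
    Out Fr rk Cd ly m P reg A i b' O :=
  ⟨h.fr.trans hb, fun y hy => h.free y (hb.trans hy), fun y hy => h.sub y (hb.trans hy),
    fun r => cert_up (h.cert r) hb Subset.rfl le_rfl fun _ _ => Iff.rfl,
    fun u hu hi y hy => h.code u hu hi y (hb.trans hy)⟩

omit [Fintype V] [DecidableEq V] in
theorem low_mono {Fr : Finset V} {rk : V → ℕ} {t t' : ℕ} (h : t ≤ t') :
    low Fr rk t ⊆ low Fr rk t' := fun _ hv =>
  mem_filter.2 ⟨(mem_filter.1 hv).1, (mem_filter.1 hv).2.trans_le h⟩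

theorem half_le {a b : ℕ} (h : b ≤ a) : (1 / 2 : ℝ) ^ a ≤ (1 / 2) ^ b :=
  pow_le_pow_of_le_one (by norm_num) (by norm_num) h

theorem many_le (m : ℕ) : ((5 * m + 1 : ℕ) : ℝ) * (1 / 2) ^ (8 * m) ≤ (1 / 2) ^ (3 * m) := by
  have h1 : 5 * m + 1 ≤ 2 ^ (5 * m) := Nat.lt_two_pow_self
  have h2 : ((5 * m + 1 : ℕ) : ℝ) ≤ 2 ^ (5 * m) := by exact_mod_cast h1
  refine (mul_le_mul_of_nonneg_right h2 (by positivity)).trans (le_of_eq ?_)
  rw [show 8 * m = 5 * m + 3 * m by omega, pow_add, ← mul_assoc, ← mul_pow]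
  norm_num

end Round

open Round

theorem roundS (hU : UpStmt) (hP : PeelStmt) (hZ : ZeroStmt) (hS : SparseStmt) (hR : ParStmt) :
    RoundStmt := by
  intro V ι ι' _ _ I Cd 𝒦 Rel Fr rk m ly s c P L Q reg A Gs Cp Pa C f kill h𝒦 hCd hI hreg hp hFr
    hFr' hAl hAk hGl hacc hQ hPa hPc hkill hfat hsum conv fill
  classical
  let e : ℕ → ℝ := fun i => ∑ o ∈ I with ly o = i, (1 / 2) ^ (3 * m o)
  have hQ0 : (8 : ℝ) ≤ Q := by exact_mod_cast hQ
  have q0 : (0 : ℝ) < 4 / Q := by positivity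
  have q1 : (4 / Q : ℝ) ≤ 1 / 2 := by
    rw [div_le_iff₀ (by linarith)]
    linarith
  have e0 : ∀ i, 0 ≤ e i := fun i => sum_nonneg fun _ _ => by positivity
  have key : ∀ i ≤ L, ∃ (b : Finset V) (On : (V → V) → Finset V → Finset V)
      (B : Finset (V → V)), Sys Rel b On ∧ Frᶜ ⊆ b ∧ Fat (Pa i) C f Q (4 * (L - i)) b ∧
      (B.card : ℝ) ≤ 24 * (∑ j ∈ range i, e j) * 𝒦.card ∧ ∀ κ ∈ 𝒦, κ ∉ B →
        Out Fr rk Cd ly m P reg (fun u β => A u β κ) i b (On κ) ∧ Cer Cp b (On κ) ∧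
        ∀ o ∈ I, ly o < i → ∀ γ ∈ Gs o,
          Cert b (low Fr rk (m o)) (c o) fun y => γ κ (On κ y) := by
    intro i
    induction i with
    | zero =>
      intro _
      refine ⟨Frᶜ, fun _ y => y ∩ Fr, ∅, ⟨fun _ _ _ _ h => inter_subset_inter_right h,
        fun _ _ _ _ _ => rfl, fun _ _ => inter_subset_right.trans hFr⟩, Subset.rfl, hfat, by simp,
        fun κ _ _ => ⟨⟨Subset.rfl, fun y _ v hv => by simp [hv],
          fun y _ r hr => Or.inl (mem_inter.1 hr).2, fun r => ?_,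
          fun _ _ h => absurd h (Nat.not_lt_zero _)⟩, fun y _ r hr => ?_,
          fun _ _ h => absurd h (Nat.not_lt_zero _)⟩⟩
      · by_cases hr : r ∈ Fr
        · have h1 : ({r} : Finset V) ⊆ low Fr rk (rk r + 1) :=
            singleton_subset_iff.2 (mem_filter.2 ⟨hr, Nat.lt_succ_self _⟩)
          have h2 : ({r} : Finset V).card ≤ rk r := by simpa using (hFr' r hr).1
          refine ⟨fun y _ hy => ⟨{r}, h1, h2, fun y' _ a => ?_⟩,
            fun y _ hy => ⟨{r}, h1, h2, fun y' _ a => ?_⟩⟩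
          · exact mem_inter.2 ⟨(a r (mem_singleton_self r)).2 (mem_inter.1 hy).1, hr⟩
          · exact fun h => hy (mem_inter.2 ⟨(a r (mem_singleton_self r)).1 (mem_inter.1 h).1, hr⟩)
        · exact ⟨fun y _ hy => absurd (mem_inter.1 hy).2 hr,
            fun y _ _ => ⟨∅, empty_subset _, by simp, fun y' _ _ h => hr (mem_inter.1 h).2⟩⟩
      · obtain ⟨a1, a2⟩ := mem_inter.1 hr
        exact ⟨{r}, singleton_subset_iff.2 a1, (hFr' r a2).2, by simp [a2]⟩
    | succ i ih =>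
      intro hi
      obtain ⟨b, On, B, sys, fr, fat, hB, good⟩ := ih (by omega)
      rw [show 4 * (L - i) = 4 * (L - (i + 1)) + 1 + 1 + 2 by omega] at fat
      obtain ⟨b₂, hb₂, fat₂, B₂, hB₂, g₂⟩ := conv i hi b On _ sys fr fat
      have fat₃ : Fat (Pa (i + 1)) C f Q (4 * (L - (i + 1)) + 1 + 1) (b₂ ∪ kill i) := by
        refine fun π hπ => (fat₂ π (hPa i hπ)).trans (card_le_card fun v hv => ?_)
        obtain ⟨a1, a2⟩ := mem_sdiff.1 hv
        exact mem_sdiff.2 ⟨a1, fun h => (mem_union.1 h).elim a2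
          (disjoint_left.1 (hkill i π hπ) a1)⟩
      let J := Cd.filter fun u => ly u = i
      have hJ : ∀ u ∈ J, u ∈ Cd ∧ ly u = i := fun u hu => mem_filter.1 hu
      have hJe : ∑ u ∈ J, (1 / 2 : ℝ) ^ (3 * m u) ≤ e i :=
        sum_le_sum_of_subset_of_nonneg (filter_subset_filter _ hCd) fun _ _ _ => by positivity
      let Ac : (V → V) → ι → Bool → Finset V → Prop := fun κ u β y => A u β κ (On κ y)
      have hU' : ∀ κ u, ∃ U : Finset V → Finset V, (∀ c, (U c).card ≤ 2 * s u) ∧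
          (κ ∈ 𝒦 → κ ∉ B → κ ∉ B₂ → u ∈ J → ∀ b', b₂ ∪ kill i ⊆ b' → ∀ p, ¬Up U p b' →
            Nice b' (low Fr rk (m u)) (p + 1) ((p + 1) * s u) (Ac κ u)) := by
        intro κ u
        by_cases h : κ ∈ 𝒦 ∧ κ ∉ B ∧ κ ∉ B₂ ∧ u ∈ J
        swap
        · exact ⟨fun _ => ∅, by simp, fun a1 a2 a3 a4 => absurd ⟨a1, a2, a3, a4⟩ h⟩
        obtain ⟨a1, a2, a3, a4⟩ := h
        obtain ⟨u1, u2⟩ := hJ u a4
        obtain ⟨o1, o2, -⟩ := good κ a1 a2
        have o3 := out_up o1 hb₂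
        rw [← u2] at o3 fat₂
        have h1 := hacc u u1 κ a1 b₂ (On κ) o3 (g₂ κ a1 a3 o1 o2 u (hCd u1) u2)
        obtain ⟨U, U1, U2⟩ := hP V (b₂ ∪ kill i) (low Fr rk (m u)) (s u) (Ac κ u)
          (fun β => one_up (h1 β) subset_union_left Subset.rfl le_rfl fun _ _ => Iff.rfl)
          (fun x hx ⟨x1, x0⟩ => by
            obtain ⟨D₁, -, d1, d2⟩ := h1 true x (subset_union_left.trans hx) x1
            obtain ⟨D₀, -, d3, d4⟩ := h1 false x (subset_union_left.trans hx) x0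
            obtain ⟨y, y1, y2, y3⟩ := fill u u1 κ a1 b₂ (On κ) o3 (fat_zero fat₂ (by omega)) x
              (u2 ▸ hx) (D₁ ∪ D₀) ((card_union_le _ _).trans (by omega))
            exact y3 ⟨d2 y y1 fun v hv => y2 v (mem_union_left _ hv),
              d4 y y1 fun v hv => y2 v (mem_union_right _ hv)⟩)
        exact ⟨U, U1, fun _ _ _ _ => U2⟩
      choose U U1 U2 using hU'
      have hsQ : ∀ u ∈ J, ((64 * ((5 * m u + 1) * s u) : ℕ) : ℝ) ≤ Q := fun u hu => by
        exact_mod_cast (hp u (hJ u hu).1).2.1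
      have pr4 : ∀ κ, Pr (4 / (Q : ℝ))
          (fun z => ∃ u ∈ J, Up (U κ u) (5 * m u) (b₂ ∪ kill i ∪ z)) ≤ e i := by
        intro κ
        refine (pr_union q0.le (by linarith) J
          (fun u z => Up (U κ u) (5 * m u) (b₂ ∪ kill i ∪ z)) fun _ h => h).trans
          ((sum_le_sum fun u hu => ?_).trans hJe)
        refine (hU V _ _ _ (2 * s u) _ q0 q1 ?_ (U1 κ u)).trans (half_le (by omega))
        have h1 := hsQ u hu
        push_cast at h1 ⊢
        rw [mul_div_assoc', div_mul_eq_mul_div, div_le_one (by linarith)]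
        nlinarith [mul_nonneg (Nat.cast_nonneg (m u) : (0 : ℝ) ≤ m u)
          (Nat.cast_nonneg (s u) : (0 : ℝ) ≤ s u)]
      obtain ⟨b₄, hb₄, fat₄, B₄, hB₄, g₄⟩ := hS V ι' (V → V) 𝒦 (Pa (i + 1)) C f Q _ _
        (fun κ b' => ∃ u ∈ J, Up (U κ u) (5 * m u) b') (e i) hQ (hPc _) fat₃ (e0 i)
        fun κ _ => pr4 κ
      let E₅ : (V → V) → ι → ℕ → Finset V → Prop := fun κ u j b' =>
        Nice b₄ (low Fr rk (m u)) (5 * m u + 1) ((5 * m u + 1) * s u) (Ac κ u) ∧
          ¬Cert b' (low Fr rk (m u)) (max ((5 * m u + 1) * s u) (8 * m u))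
            (Ch b₄ (Ac κ u) (j + 1))
      have pr5 : ∀ κ, Pr (4 / (Q : ℝ))
          (fun z => ∃ u ∈ J, ∃ j ∈ range (5 * m u + 1), E₅ κ u j (b₄ ∪ z)) ≤ e i := by
        intro κ
        refine (pr_union q0.le (by linarith) J
          (fun u z => ∃ j ∈ range (5 * m u + 1), E₅ κ u j (b₄ ∪ z)) fun _ h => h).trans
          ((sum_le_sum fun u hu => ?_).trans hJe)
        refine (pr_union q0.le (by linarith) (range (5 * m u + 1))
          (fun j z => E₅ κ u j (b₄ ∪ z)) fun _ h => h).trans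
          ((sum_le_card_nsmul _ _ ((1 / 2) ^ (8 * m u)) fun j _ => ?_).trans ?_)
        · refine pr_and (by positivity) fun hn => hZ V _ b₄ (low Fr rk (m u))
            ((5 * m u + 1) * s u) (8 * m u) (Ch b₄ (Ac κ u) (j + 1))
            (fun _ _ _ a1 a2 => ch_mono a2 a1) (hn.2 _) q0 (by linarith) ?_
          have h1 := hsQ u hu
          push_cast at h1 ⊢
          rw [mul_div_assoc', div_mul_eq_mul_div, div_le_one (by linarith)]
          nlinarith [mul_nonneg (show (0 : ℝ) ≤ 5 * m u + 1 by positivity)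
            (Nat.cast_nonneg (s u) : (0 : ℝ) ≤ s u)]
        · rw [card_range, nsmul_eq_mul]
          exact many_le _
      obtain ⟨b₅, hb₅, fat₅, B₅, hB₅, g₅⟩ := hS V ι' (V → V) 𝒦 (Pa (i + 1)) C f Q _ _
        (fun κ b' => ∃ u ∈ J, ∃ j ∈ range (5 * m u + 1), E₅ κ u j b') (e i) hQ (hPc _) fat₄ (e0 i)
        fun κ _ => pr5 κ
      have b24 : b₂ ⊆ b₄ := subset_union_left.trans hb₄
      have b4 : b ⊆ b₄ := hb₂.trans b24
      have b5 : b ⊆ b₅ := b4.trans hb₅
      let On' : (V → V) → Finset V → Finset V := fun κ y => On κ y ∪ univ.filter fun r =>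
        ∃ u ∈ J, ∃ j < 5 * m u + 1, r = reg u j ∧ Ch b₄ (Ac κ u) (j + 1) y
      have mem : ∀ κ y r, r ∈ On' κ y ↔ r ∈ On κ y ∨
          ∃ u ∈ J, ∃ j < 5 * m u + 1, r = reg u j ∧ Ch b₄ (Ac κ u) (j + 1) y := fun κ y r => by
        simp only [On', mem_union, mem_filter, mem_univ, true_and]
      have sys' : Sys Rel b₅ On' := by
        refine ⟨fun κ y y' a1 a2 r hr => ?_, fun κ κ' y a1 a2 => ?_, fun κ y r hr => ?_⟩
        · rcases (mem _ _ _).1 hr with h | ⟨u, u1, j, j1, j2, j3⟩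
          · exact (mem _ _ _).2 (Or.inl (sys.mono κ y y' (b5.trans a1) a2 h))
          · exact (mem _ _ _).2 (Or.inr ⟨u, u1, j, j1, j2, ch_mono j3 a2⟩)
        · have h1 : ∀ c, b₄ ⊆ c → c ⊆ y → ∀ r ∈ On κ c, κ' r = κ r := fun c c1 c2 r hr =>
            a2 r ((mem _ _ _).2 (Or.inl (sys.mono κ c y (b4.trans c1) c2 hr)))
          have h2 : ∀ c, b₄ ⊆ c → c ⊆ y → On κ' c = On κ c := fun c c1 c2 =>
            sys.loc κ κ' c (b4.trans c1) (h1 c c1 c2)
          ext r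
          rw [mem, mem, h2 y (hb₅.trans a1) Subset.rfl]
          refine or_congr_right (exists_congr fun u => and_congr_right fun hu => exists_congr
            fun j => and_congr_right fun _ => and_congr_right fun _ => ⟨fun h => ch_congr h
              fun β c c1 c2 h => ?_, fun h => ch_congr h fun β c c1 c2 h => ?_⟩)
          · simp only [Ac, h2 c c1 c2] at h ⊢
            exact hAk u (hJ u hu).1 β κ' κ _ (fun r hr => (h1 c c1 c2 r hr).symm) h
          · simp only [Ac, h2 c c1 c2] at h ⊢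
            exact hAk u (hJ u hu).1 β κ κ' _ (h1 c c1 c2) h
        · rcases (mem _ _ _).1 hr with h | ⟨u, u1, j, j1, rfl, -⟩
          · exact sys.rel κ y h
          · exact ((hp u (hJ u u1).1).2.2 j j1).1
      have same : ∀ κ y, ∀ o ∈ I, ly o ≤ i → ∀ r, rk r < m o → (r ∈ On' κ y ↔ r ∈ On κ y) := by
        intro κ y o ho hl r hr
        refine (mem _ _ _).trans (or_iff_left ?_)
        rintro ⟨u, u1, j, j1, rfl, -⟩
        have := ((hp u (hJ u u1).1).2.2 j j1).2.2.2.1 o ho hr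
        have := (hJ u u1).2
        omega
      refine ⟨b₅, On', B ∪ B₂ ∪ B₄ ∪ B₅, sys', fr.trans b5, fat₅, ?_, fun κ hκ hn => ?_⟩
      · have h1 : ((B ∪ B₂ ∪ B₄ ∪ B₅).card : ℝ) ≤ B.card + B₂.card + B₄.card + B₅.card := by
          have a1 := card_union_le (B ∪ B₂ ∪ B₄) B₅
          have a2 := card_union_le (B ∪ B₂) B₄
          have a3 := card_union_le B B₂
          exact_mod_cast (show _ ≤ B.card + B₂.card + B₄.card + B₅.card by omega)
        rw [sum_range_succ]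
        change (B₂.card : ℝ) ≤ 20 * e i * 𝒦.card at hB₂
        linarith
      simp only [mem_union, not_or] at hn
      obtain ⟨⟨⟨n1, n2⟩, n4⟩, n5⟩ := hn
      obtain ⟨o1, o2, o3⟩ := good κ hκ n1
      have nice : ∀ u ∈ J, Nice b₄ (low Fr rk (m u)) (5 * m u + 1) ((5 * m u + 1) * s u)
          (Ac κ u) := fun u hu =>
        U2 κ u hκ n1 n2 hu b₄ hb₄ _ fun h => n4 (g₄ κ hκ ⟨u, hu, h⟩)
      have hlt : ∀ u ∈ Cd, ∀ j < 5 * m u + 1, j < P u := fun u hu j hj =>
        hj.trans_le (hp u hu).1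
      have new : ∀ y, b ⊆ y → ∀ u ∈ J, ∀ j < P u, (reg u j ∈ On' κ y ↔
          j < 5 * m u + 1 ∧ Ch b₄ (Ac κ u) (j + 1) y) := by
        intro y hy u hu j hj
        obtain ⟨u1, u2⟩ := hJ u hu
        obtain ⟨r1, r2⟩ := hreg u u1 j hj
        refine (mem _ _ _).trans ⟨?_, fun h => Or.inr ⟨u, hu, j, h.1, rfl, h.2⟩⟩
        rintro (h | ⟨u', v1, j', j1, j2, j3⟩)
        · rcases o1.sub y hy _ h with h | ⟨u', v1, v2, j', j1, j2⟩
          · exact absurd h r1
          · obtain ⟨rfl, -⟩ := r2 u' v1 j' (hlt u' v1 j' j1) j2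
            omega
        · obtain ⟨rfl, rfl⟩ := r2 u' (hJ u' v1).1 j' (hlt u' (hJ u' v1).1 j' j1) j2
          exact ⟨j1, j3⟩
      have back : ∀ y, ∀ u ∈ Cd, ly u ≤ i → ∀ β, A u β κ (On' κ y) → A u β κ (On κ y) :=
        fun y u hu hl β => hAl u hu β κ hκ _ (sys'.rel κ y) _ (sys.rel κ y) fun r hr =>
          (same κ y u (hCd hu) hl r hr).symm
      refine ⟨⟨fr.trans b5, fun y hy v hv => ?_, fun y hy r hr => ?_, fun r => ?_,
        fun u hu hl y hy β h => ?_⟩, fun y hy r hr => ?_, fun o ho hl γ hγ => ?_⟩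
      · refine ((mem _ _ _).trans (or_iff_left ?_)).trans (o1.free y (b5.trans hy) v hv)
        rintro ⟨u, u1, j, j1, rfl, -⟩
        exact (hreg u (hJ u u1).1 j (hlt u (hJ u u1).1 j j1)).1 hv
      · rcases (mem _ _ _).1 hr with h | ⟨u, u1, j, j1, j2, -⟩
        · exact (o1.sub y (b5.trans hy) r h).imp_right fun ⟨u, a1, a2, a3⟩ =>
            ⟨u, a1, by omega, a3⟩
        · exact Or.inr ⟨u, (hJ u u1).1, by have := (hJ u u1).2; omega, j, j1, j2⟩
      · by_cases h : ∃ u ∈ J, ∃ j < 5 * m u + 1, r = reg u j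
        · obtain ⟨u, u1, j, j1, rfl⟩ := h
          obtain ⟨-, a1, a2, -⟩ := (hp u (hJ u u1).1).2.2 j j1
          have h1 : Cert b₅ (low Fr rk (m u)) (max ((5 * m u + 1) * s u) (8 * m u))
              (Ch b₄ (Ac κ u) (j + 1)) := by
            by_contra h
            exact n5 (g₅ κ hκ ⟨u, u1, j, mem_range.2 j1, nice u u1, h⟩)
          exact cert_up h1 Subset.rfl (low_mono (by omega)) (max_le a1 a2) fun y hy =>
            (new y (b5.trans hy) u u1 j (hlt u (hJ u u1).1 j j1)).trans (and_iff_right j1)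
        · exact cert_up (o1.cert r) b5 Subset.rfl le_rfl fun y _ => (mem _ _ _).trans
            (or_iff_left fun ⟨u, u1, j, j1, j2, _⟩ => h ⟨u, u1, j, j1, j2⟩)
      · have h1 := back y u hu (by omega) β h
        by_cases h2 : ly u = i
        · have h3 : u ∈ J := mem_filter.2 ⟨hu, h2⟩
          exact (hR V b₄ (Ac κ u) _ (nice u h3).1).1 y β (hb₅.trans hy) h1 _ _ (hp u hu).1
            (new y (b5.trans hy) u h3)
        · rw [← o1.code u hu (by omega) y (b5.trans hy) β h1]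
          refine congrArg (fun t : Finset ℕ => t.card.bodd) (filter_congr fun j hj =>
            (mem _ _ _).trans (or_iff_left ?_))
          rintro ⟨u', v1, j', j1, j2, -⟩
          obtain ⟨rfl, -⟩ := (hreg u hu j (mem_range.1 hj)).2 u' (hJ u' v1).1 j'
            (hlt u' (hJ u' v1).1 j' j1) j2
          exact h2 (hJ u v1).2
      · rcases (mem _ _ _).1 hr with h | ⟨u, u1, j, j1, rfl, j3⟩
        · obtain ⟨W, w1, w2, w3⟩ := o2 y (b5.trans hy) r h
          exact ⟨W, w1, w2, (mem _ _ _).2 (Or.inl (sys.mono κ _ _ subset_union_left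
            (union_subset_union_left b5) w3))⟩
        · obtain ⟨W, w1, w2, w3, w4⟩ := (nice u u1).2 _ y (hb₅.trans hy) j3
          exact ⟨W, w2, ((hp u (hJ u u1).1).2.2 j j1).2.2.2.2 W w1 w3, (mem _ _ _).2
            (Or.inr ⟨u, u1, j, j1, rfl, ch_mono w4 (union_subset_union_left hb₅)⟩)⟩
      · have h1 : ∀ y, γ κ (On' κ y) ↔ γ κ (On κ y) := fun y =>
          ⟨hGl o ho γ hγ κ hκ _ (sys'.rel κ y) _ (sys.rel κ y) fun r hr =>
            (same κ y o ho (by omega) r hr).symm,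
          hGl o ho γ hγ κ hκ _ (sys.rel κ y) _ (sys'.rel κ y) (same κ y o ho (by omega))⟩
        by_cases h2 : ly o = i
        · exact cert_up (g₂ κ hκ n2 o1 o2 o ho h2 γ hγ) (b24.trans hb₅) Subset.rfl le_rfl
            fun y _ => h1 y
        · exact cert_up (o3 o ho (by omega) γ hγ) b5 Subset.rfl le_rfl fun y _ => h1 y
  obtain ⟨b, On, B, -, -, fat, hB, good⟩ := key L le_rfl
  have h1 : ∑ j ∈ range L, e j = ∑ o ∈ I, (1 / 2 : ℝ) ^ (3 * m o) :=
    sum_fiberwise_of_maps_to (fun o ho => mem_range.2 (hI o ho).1) _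
  have h2 : (0 : ℝ) < 𝒦.card := by exact_mod_cast h𝒦.card_pos
  have h3 : B.card < 𝒦.card := by
    have : (B.card : ℝ) < 𝒦.card := by
      rw [h1] at hB
      nlinarith
    exact_mod_cast this
  obtain ⟨κ, k1, k2⟩ := exists_mem_notMem_of_card_lt_card h3
  obtain ⟨o1, -, o3⟩ := good κ k1 k2
  exact ⟨κ, k1, b, On κ, o1, fat_zero fat (by omega), fun o ho => o3 o ho (hI o ho).1⟩

end Pool.Agent.MP_a2d820_lc.h31p
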