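import Mathlib
import Pool.Agent.MP_a2d820_lc.h31p.Spec

/-!
A round with keys: the invariant passes from one height to the next.
-/

set_option autoImplicit false

namespace Pool.Agent.MP_a2d820_lc.h31p

open Finset Pool.Agent.MP_a2d820_lc.h69

namespace Step

section
variable {V : Type} {b b₀ S S' S₀ : Finset V} {c c' : ℕ} {f : Finset V → Prop}

theorem one_mono (h : One b S c f) (hS : S ⊆ S') (hc : c ≤ c') : One b S' c' f := fun y h1 h2 =>
  let ⟨D, a1, a2, a3⟩ := h y h1 h2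
  ⟨D, a1.trans hS, a2.trans hc, a3⟩

theorem one_congr {f' : Finset V → Prop} (h : One b S c f) (e : ∀ y, b ⊆ y → (f y ↔ f' y)) :
    One b S c f' := fun y h1 h2 =>
  let ⟨D, a1, a2, a3⟩ := h y h1 ((e y h1).2 h2)
  ⟨D, a1, a2, fun y' h3 h4 => (e y' h3).1 (a3 y' h3 h4)⟩

theorem cert_mono (h : Cert b S c f) (hS : S ⊆ S') (hc : c ≤ c') : Cert b S' c' f :=
  ⟨one_mono h.1 hS hc, one_mono h.2 hS hc⟩

theorem cert_congr {f' : Finset V → Prop} (h : Cert b S c f) (e : ∀ y, b ⊆ y → (f y ↔ f' y)) :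
    Cert b S c f' :=
  ⟨one_congr h.1 e, one_congr h.2 fun y hy => not_congr (e y hy)⟩

theorem cert_not (h : Cert b S c f) : Cert b S c fun y => ¬f y :=
  ⟨h.2, one_congr h.1 fun _ _ => not_not.symm⟩

theorem cert_const (p : Prop) : Cert b S c fun _ => p :=
  ⟨fun _ _ h => ⟨∅, empty_subset _, by simp, fun _ _ _ => h⟩,
    fun _ _ h => ⟨∅, empty_subset _, by simp, fun _ _ _ => h⟩⟩

theorem cert_loc (h : Cert b S c f) {y y' : Finset V} (h1 : b ⊆ y) (h2 : b ⊆ y')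
    (e : ∀ v ∈ S, v ∈ y' ↔ v ∈ y) : f y' ↔ f y := by
  by_cases a : f y
  · obtain ⟨D, a1, -, a3⟩ := h.1 y h1 a
    exact iff_of_true (a3 y' h2 fun v hv => e v (a1 hv)) a
  · obtain ⟨D, a1, -, a3⟩ := h.2 y h1 a
    exact iff_of_false (a3 y' h2 fun v hv => e v (a1 hv)) a

theorem one_comp [DecidableEq V] {p : Finset V → Finset V} (h : One b₀ S₀ c f)
    (hp : ∀ y, b ⊆ y → b₀ ⊆ p y) (hx : ∀ x ∈ S₀, Cert b S c' fun y => x ∈ p y) :
    One b S (c * c') fun y => f (p y) := by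
  intro y h1 h2
  obtain ⟨D, a1, a2, a3⟩ := h _ (hp y h1) h2
  have a4 : ∀ x, ∃ W ⊆ S, W.card ≤ c' ∧
      (x ∈ S₀ → ∀ y', b ⊆ y' → Agr W y y' → (x ∈ p y' ↔ x ∈ p y)) := fun x => by
    by_cases e : x ∈ S₀
    · by_cases e' : x ∈ p y
      · obtain ⟨W, w1, w2, w3⟩ := (hx x e).1 y h1 e'
        exact ⟨W, w1, w2, fun _ y' u1 u2 => iff_of_true (w3 y' u1 u2) e'⟩
      · obtain ⟨W, w1, w2, w3⟩ := (hx x e).2 y h1 e'
        exact ⟨W, w1, w2, fun _ y' u1 u2 => iff_of_false (w3 y' u1 u2) e'⟩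
    · exact ⟨∅, empty_subset _, by simp, fun a => absurd a e⟩
  choose W w1 w2 w3 using a4
  exact ⟨D.biUnion W, biUnion_subset.2 fun x _ => w1 x,
    (card_biUnion_le_card_mul _ _ _ fun x _ => w2 x).trans (Nat.mul_le_mul_right _ a2),
    fun y' u1 u2 => a3 _ (hp y' u1) fun x u3 => w3 x (a1 u3) y' u1 fun v hv =>
      u2 v (mem_biUnion.2 ⟨x, u3, hv⟩)⟩

theorem low_mono {Fr : Finset V} {rk : V → ℕ} {t t' : ℕ} (h : t ≤ t') :
    low Fr rk t ⊆ low Fr rk t' := fun _ hv =>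
  mem_filter.2 ⟨(mem_filter.1 hv).1, (mem_filter.1 hv).2.trans_le h⟩

theorem cert_trunc {t : ℕ} {τ : Finset V → Lang}
    (h : ∀ s, s.length < t → Cert b S c fun y => τ y s = true) (s : List Bool) :
    Cert b S c fun y => trunc t (τ y) s = true := by
  by_cases e : s.length < t
  · exact cert_congr (h s e) fun y _ => by simp [trunc, e]
  · exact cert_congr (cert_const False) fun y _ => by simp [trunc, e]

end

theorem loc_trunc {t : ℕ} {f : Lang → Bool} (h : Loc t f) (A : Lang) : f (trunc t A) = f A :=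
  h _ _ fun s hs => by simp [trunc, hs]

theorem cw_succ (h t : ℕ) : t * cw h t ≤ cw (h + 1) t :=
  (Nat.le_self_pow (by norm_num) _).trans (Nat.le_mul_of_pos_left _ (by norm_num))

theorem cw_pos {t : ℕ} (ht : 1 ≤ t) (h : ℕ) : 1 ≤ cw h t := by
  induction h with
  | zero => exact Nat.pow_pos ht
  | succ h ih => exact (Nat.mul_pos ht ih).trans_le (cw_succ h t)

theorem cw_mono {t : ℕ} (ht : 1 ≤ t) {h h' : ℕ} (hh : h ≤ h') : cw h t ≤ cw h' t :=
  monotone_nat_of_le_succ (f := fun h => cw h t)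
    (fun h => (Nat.le_mul_of_pos_left _ ht).trans (cw_succ h t)) hh

variable {E : Env}

theorem rl_le (v : E.Nd) : E.rl v.1 ≤ E.rk v := Nat.le_mul_of_pos_left _ (by positivity)

theorem Q_le (hE : E.Ok) {u : List Bool} (hu : u ∈ E.I) : 10000 ≤ E.Q ∧ E.Q ≤ 2 ^ E.rl u := by
  obtain ⟨-, a1, a2, -⟩ := hE.len u hu
  have a3 := (Nat.mul_le_mul_left 10000
    (Nat.pow_pos (n := 9) (Nat.mul_pos a2 (cw_pos a2 E.d)))).trans (hE.hQ u hu)
  exact ⟨a3, (Nat.le_self_pow (by omega) _).trans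
    (hE.pow.trans (Nat.pow_le_pow_right two_pos a1))⟩

/-- The root number `j` of the row `u`. -/
def root (hE : E.Ok) (u : E.I) (j : ℕ) : E.Nd :=
  (u, ⟨h22p.rt (E.rl u) j, by
    rw [h22p.length_rt]
    exact (Nat.le_mul_of_pos_left _ (by positivity)).trans (hE.len u u.2).2.2.2.2.2.2.1⟩)

theorem num_root (hE : E.Ok) (u : E.I) {j : ℕ} (hj : j < u.1.length) :
    PolyT.ofBits (root hE u j).2.1 = j :=
  ofBits_dig (by simpa using hj.trans_le (hE.len u u.2).2.2.2.2.2.1)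

/-- The candidate keys of a node. -/
noncomputable def ky (E : Env) (h : ℕ) (b : Finset E.Nd) (r : E.Nd) : Finset E.Nd :=
  if r ∈ E.Pa h E.L then E.ch r \ b else {r}

/-- The weights of the free nodes. -/
noncomputable def lm (E : Env) (h : ℕ) (v : E.Nd) : ℝ :=
  if v ∈ E.Fr h then (1 / 2) ^ (3 * E.m v.1 + v.2.1.length) else 0

/-- The two questions of a row at the old point. -/
def qu (E : Env) (σ : Finset E.Nd → Lang) (u : E.I) (β : Bool) (κ : E.Nd → E.Nd)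
    (O : Finset E.Nd) : Prop :=
  (bif β then E.mu u else E.nu u) (σ (pt κ O)) = true

/-- The rows of level `h`. -/
def cd (E : Env) (h : ℕ) : Finset E.I := univ.filter fun u => E.lv u = h

/-- The state of the round. -/
abbrev St (hE : E.Ok) (h : ℕ) (σ : Finset E.Nd → Lang) (κ : E.Nd → E.Nd) (i : ℕ)
    (b : Finset E.Nd) (O : Finset E.Nd → Finset E.Nd) : Prop :=
  Out (E.Fr (h + 1)) E.rk (cd E (h + 1)) (fun u => E.ly u) (fun u => E.m u) (fun u => u.1.length)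
    (root hE) (fun u β => qu E σ u β κ) i b O

variable {h : ℕ} {b : Finset E.Nd} {σ : Finset E.Nd → Lang}

theorem fr_rel : E.Fr (h + 1) ⊆ E.Pa h E.L := fun v hv => by
  obtain ⟨a1, a2⟩ := (mem_filter.1 hv).2
  exact mem_filter.2 ⟨mem_univ _, by omega, a2, by omega⟩

theorem root_rel (hE : E.Ok) {u : E.I} (hu : u ∈ cd E (h + 1)) {j : ℕ} (hj : j < 5 * E.m u + 1) :
    root hE u j ∈ E.Pa h E.L := by
  have a1 : E.lv u = h + 1 := (mem_filter.1 hu).2
  have a2 := (hE.len u u.2).2.2.2.2.1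
  refine mem_filter.2 ⟨mem_univ _, a1.ge, by simp [root, a1], fun a => ?_⟩
  rw [num_root hE u (by omega)] at a
  have : u.1.length ≤ j + E.L := a.2.1
  omega

theorem card_ky (hI : E.Inv h b σ) {r : E.Nd} (hr : r ∈ E.Pa h E.L) :
    2 ^ (7 * r.2.1.length) ≤ (ky E h b r).card := by
  rw [ky, if_pos hr]
  simpa [Env.ft] using hI.fat r hr

theorem lm_ge (hE : E.Ok) {v : E.Nd} (hv : v ∈ E.Fr h) : (1 / 2 : ℝ) ^ (3 * E.rk v) ≤ lm E h v := by
  rw [lm, if_pos hv]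
  refine pow_le_pow_of_le_one (by norm_num) (by norm_num) ?_
  have a1 := (hE.len _ v.1.2).2.2.2.1
  have a2 := rl_le v
  have a3 : v.2.1.length ≤ E.rk v := (mem_filter.1 hv).2.2.le.trans
    (Nat.mul_le_mul_right _ (Nat.pow_le_pow_right (by norm_num) (Nat.sub_le _ _)))
  omega

theorem keys (hF : ForStmt) (hE : E.Ok) (hI : E.Inv h b σ) :
    Keys (ky E h b) (E.Pa h E.L) b (E.Fr (h + 1)) E.rk (lm E (h + 1)) := by
  refine ⟨fun r a1 r' a2 x a3 a4 => ?_, fun r => ?_, fun r a1 x a2 => ?_, fun v => ?_, ?_,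
    fun v hv => lm_ge hE hv⟩
  · rw [ky, if_pos a1] at a3
    rw [ky, if_pos a2] at a4
    exact (hF E hE h).2.2.2.2.2.1 r r' x (mem_sdiff.1 a3).1 (mem_sdiff.1 a4).1
  · by_cases a : r ∈ E.Pa h E.L
    · exact card_pos.1 ((Nat.pow_pos two_pos).trans_le (card_ky hI a))
    · rw [ky, if_neg a]
      exact singleton_nonempty _
  · rw [ky, if_pos a1] at a2
    refine ⟨(mem_sdiff.1 a2).2, ?_⟩
    rw [Env.rk, Env.rk, (mem_filter.1 (mem_sdiff.1 a2).1).2.1]
  · unfold lm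
    split_ifs
    · positivity
    · exact le_rfl
  · simp only [lm]
    rw [← sum_filter, filter_mem_eq_inter, univ_inter]
    exact (hF E hE (h + 1)).2.2.2.2.2.2

variable {κ : E.Nd → E.Nd} {lam : E.Nd → ℝ}

theorem base (hK : Keys (ky E h b) (E.Pa h E.L) b (E.Fr (h + 1)) E.rk lam)
    (hκ : κ ∈ Fintype.piFinset (ky E h b)) {O : Finset E.Nd} (hO : O ⊆ E.Pa h E.L) :
    b ⊆ pt κ O := fun x hx => mem_compl.2 fun a => by
  obtain ⟨r, a1, rfl⟩ := mem_image.1 a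
  exact (hK.out r (hO a1) _ (Fintype.mem_piFinset.1 hκ r)).1 hx

theorem tree (hF : ForStmt) (hE : E.Ok) (hI : E.Inv h b σ)
    (hκ : κ ∈ Fintype.piFinset (ky E h b)) {O : Finset E.Nd} (hO : O ⊆ E.Pa h E.L) {π : E.Nd}
    (h1 : h < E.lv π.1) (h2 : π.2.1.length = 9 ^ (E.lv π.1 - h - 1) * E.rl π.1) :
    nw (h + 1) (rowOf (σ (pt κ O)) π.1) π.2.1 = true ↔ π ∈ O := by
  have hb := base (keys hF hE hI) hκ hO
  have hk : ∀ r ∈ O, κ r ∈ E.ch r := fun r hr => by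
    have := Fintype.mem_piFinset.1 hκ r
    rw [ky, if_pos (hO hr)] at this
    exact (mem_sdiff.1 this).1
  have h3 : 9 * π.2.1.length = 9 ^ (E.lv π.1 - h) * E.rl π.1 := by
    rw [h2, ← mul_assoc, ← pow_succ', show E.lv π.1 - h - 1 + 1 = E.lv π.1 - h by omega]
  simp only [nw, decide_eq_true_eq]
  constructor
  · rintro ⟨w, a1, a2⟩
    have a3 : (w ++ π.2.1).length = 9 * π.2.1.length := by
      rw [List.length_append]
      omega
    let v : E.Nd := (π.1, ⟨w ++ π.2.1, by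
      rw [a3, h3]
      exact (Nat.mul_le_mul_right _ (Nat.pow_le_pow_right (by norm_num) (Nat.sub_le _ _))).trans
        (hE.len _ π.1.2).2.2.2.2.2.2.1⟩)
    have a4 : v ∉ pt κ O := fun a => by
      have := (hI.tree _ hb v (mem_filter.2 ⟨mem_univ _, h1, a3.trans h3⟩)).2 a
      exact absurd (this.symm.trans a2) (by simp)
    obtain ⟨r, r1, r2⟩ := mem_image.1 (not_not.1 fun a => a4 (mem_compl.2 a))
    rwa [(hF E hE h).2.2.2.2.2.1 π r v
      (mem_filter.2 ⟨mem_univ _, rfl, a3, List.drop_left' a1⟩) (r2 ▸ hk r r1)]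
  · intro a
    obtain ⟨a1, a2, a3⟩ := (mem_filter.1 (hk π a)).2
    refine ⟨(κ π).2.1.take (8 * π.2.1.length), by rw [List.length_take]; omega, ?_⟩
    have a4 := hI.tree _ hb (κ π) ((hF E hE h).2.2.2.2.1 _ π (hO a) (hk π a))
    have a5 := List.take_append_drop (8 * π.2.1.length) (κ π).2.1
    rw [a3] at a5
    rw [a5, ← a1]
    exact Bool.eq_false_iff.2 fun e => mem_compl.1 (a4.1 e) (mem_image_of_mem _ a)

theorem ptloc (hF : ForStmt) (hE : E.Ok) (hI : E.Inv h b σ)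
    (hκ : κ ∈ Fintype.piFinset (ky E h b)) {O O' : Finset E.Nd} (hO : O ⊆ E.Pa h E.L)
    (hO' : O' ⊆ E.Pa h E.L) {t : ℕ} (e : ∀ r, E.rk r < t → (r ∈ O' ↔ r ∈ O)) {s : List Bool}
    (hs : s.length < t) : σ (pt κ O') s = σ (pt κ O) s := by
  have hK := keys hF hE hI
  have k1 : ∀ r ∈ E.Pa h E.L, E.rk (κ r) = E.rk r := fun r hr =>
    (hK.out r hr _ (Fintype.mem_piFinset.1 hκ r)).2
  refine Bool.eq_iff_iff.2 (cert_loc (hI.bits t s hs) (base hK hκ hO) (base hK hκ hO')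
    fun v hv => ?_)
  have a1 := (mem_filter.1 hv).2
  simp only [pt, mem_compl, mem_image]
  refine not_congr ⟨?_, ?_⟩ <;> rintro ⟨r, r1, rfl⟩
  · exact ⟨r, (e r (k1 r (hO' r1) ▸ a1)).1 r1, rfl⟩
  · exact ⟨r, (e r (k1 r (hO r1) ▸ a1)).2 r1, rfl⟩

variable {i : ℕ} {b' : Finset E.Nd} {O : Finset E.Nd → Finset E.Nd}

theorem rel {hE : E.Ok} (hS : St hE h σ κ i b' O) {y : Finset E.Nd} (hy : b' ⊆ y) :
    O y ⊆ E.Pa h E.L := fun r hr => by
  rcases hS.sub y hy r hr with a | ⟨u, a1, -, j, a2, rfl⟩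
  · exact fr_rel a
  · exact root_rel hE a1 a2

theorem hgt (hF : ForStmt) {hE : E.Ok} (hI : E.Inv h b σ) (hκ : κ ∈ Fintype.piFinset (ky E h b))
    (hS : St hE h σ κ i b' O) : E.Hgt (h + 1) b' fun y => σ (pt κ (O y)) := by
  refine ⟨fun y hy v hv => ?_, fun y y' t h1 h2 e s hs =>
    ptloc hF hE hI hκ (rel hS h1) (rel hS h2) (fun r hr => cert_loc (hS.cert r) h1 h2
      fun v hv => e v (by have := (mem_filter.1 hv).2; omega)) hs⟩
  obtain ⟨a1, a2⟩ := (mem_filter.1 hv).2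
  exact (tree hF hE hI hκ (rel hS hy) (by omega) a2).trans (hS.free y hy v hv)

theorem bits (hF : ForStmt) {hE : E.Ok} (hI : E.Inv h b σ) (hκ : κ ∈ Fintype.piFinset (ky E h b))
    (hS : St hE h σ κ i b' O) {t : ℕ} {s : List Bool} (hs : s.length < t) :
    Cert b' (low (E.Fr (h + 1)) E.rk t) (cw (h + 1) t) fun y => σ (pt κ (O y)) s = true := by
  have hK := keys hF hE hI
  have k1 := Fintype.mem_piFinset.1 hκ
  have a1 : ∀ x ∈ low (E.Fr h) E.rk t, Cert b' (low (E.Fr (h + 1)) E.rk t) t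
      fun y => x ∈ pt κ (O y) := fun x hx => by
    by_cases a : ∃ r ∈ E.Pa h E.L, κ r = x
    · obtain ⟨r, r1, rfl⟩ := a
      have r2 : E.rk r < t := (hK.out r r1 _ (k1 r)).2 ▸ (mem_filter.1 hx).2
      refine cert_congr (cert_not (cert_mono (hS.cert r) (low_mono r2) r2.le)) fun y hy => ?_
      simp only [pt, mem_compl, mem_image]
      refine not_congr ⟨fun a => ⟨r, a, rfl⟩, fun ⟨r', a, e⟩ => ?_⟩
      rwa [hK.disj r r1 r' (rel hS hy a) _ (k1 r) (e ▸ k1 r')]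
    · refine cert_congr (cert_const True) fun y hy => iff_of_true trivial (mem_compl.2 fun e => ?_)
      obtain ⟨r, r1, r2⟩ := mem_image.1 e
      exact a ⟨r, rel hS hy r1, r2⟩
  have a2 : ∀ y, b' ⊆ y → b ⊆ pt κ (O y) := fun y hy => base hK hκ (rel hS hy)
  exact cert_mono ⟨one_comp (hI.bits t s hs).1 a2 a1, one_comp (hI.bits t s hs).2 a2 a1⟩
    Subset.rfl ((mul_comm _ _).le.trans (cw_succ h t))

theorem leg (hF : ForStmt) {hE : E.Ok} (hI : E.Inv h b σ) (hκ : κ ∈ Fintype.piFinset (ky E h b))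
    (hS : St hE h σ κ i b' O) (y : Finset E.Nd) (hy : b' ⊆ y) (v : List Bool) (hv : v ∈ E.I)
    (h1 : E.lv v < h + 1 ∨ (E.lv v = h + 1 ∧ E.ly v < i))
    (h2 : E.nu v (σ (pt κ (O y))) = !E.mu v (σ (pt κ (O y)))) : E.Leg (σ (pt κ (O y))) v := by
  rcases h1 with h1 | ⟨h1, h3⟩
  · exact hI.code _ (base (keys hF hE hI) hκ (rel hS hy)) v hv (by omega) h2
  have a1 := hS.code ⟨v, hv⟩ (mem_filter.2 ⟨mem_univ _, h1⟩) h3 y hy (E.mu v (σ (pt κ (O y)))) (by
    unfold qu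
    cases e : E.mu v (σ (pt κ (O y)))
    · simpa [e] using h2
    · simpa using e)
  rw [Env.Leg, ← a1, prt, h1]
  congr 2
  exact filter_congr fun j _ => tree hF hE hI hκ (rel hS hy) (π := root hE ⟨v, hv⟩ j) h1.ge
    (by simp [root, h1])

/-- The gates of a row at the old point. -/
def gs (E : Env) (h : ℕ) (σ : Finset E.Nd → Lang) (o : E.I) :
    Set ((E.Nd → E.Nd) → Finset E.Nd → Prop) :=
  {γ | ∃ g ∈ E.G o h, γ = fun κ O => g (trunc (E.m o) (σ (pt κ O))) = true}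

theorem size (hE : E.Ok) (hd : h < E.d) {u : E.I} (hu : u ∈ cd E (h + 1)) :
    64 * ((5 * E.m u + 1) * (E.m u * cw (h + 1) (E.m u))) ≤ E.Q ∧
      6 * (E.m u * ((5 * E.m u + 1) * (E.m u * cw (h + 1) (E.m u)))) ≤ 6 * E.rl u := by
  have a1 : E.lv u = h + 1 := (mem_filter.1 hu).2
  have a2 := (hE.len u u.2).2.2.1
  have a3 := hE.pad u u.2 (by omega)
  have a4 := hE.hQ u u.2
  rw [a1] at a3
  have a5 := cw_mono a2 (show h + 1 ≤ E.d from hd)
  have a6 := cw_pos a2 E.d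
  generalize cw (h + 1) (E.m u) = c at *
  generalize cw E.d (E.m u) = c' at *
  generalize E.m u = m at *
  have a7 := Nat.mul_le_mul_right (m * c) (show 5 * m + 1 ≤ 6 * m by omega)
  refine ⟨le_trans ?_ a4, ?_⟩
  · have b1 : (m * c') ^ 2 ≤ (m * c') ^ 9 := Nat.pow_le_pow_right (Nat.mul_pos a2 a6) (by norm_num)
    have b2 := Nat.mul_le_mul (Nat.le_mul_of_pos_right m a6) (Nat.mul_le_mul_left m a5)
    nlinarith
  · have := Nat.mul_le_mul_left m a7
    nlinarith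

theorem chp_root (hE : E.Ok) (hI : E.Inv h b σ) (hd : h < E.d) {u : E.I} (hu : u ∈ cd E (h + 1))
    {j : ℕ} (hj : j < 5 * E.m u + 1) {W : Finset E.Nd} (h1 : W ⊆ low (E.Fr (h + 1)) E.rk (E.m u))
    (h2 : W.card ≤ (5 * E.m u + 1) * (E.m u * cw (h + 1) (E.m u))) :
    Chp (ky E h b) (E.Fr (h + 1)) E.rk (lm E (h + 1)) E.Q (root hE u j) W := by
  obtain ⟨-, -, a1, a2, -⟩ := hE.len u u.2
  have a3 : E.rl u ≤ E.rk (root hE u j) := rl_le (root hE u j)
  have a4 := (size hE hd hu).2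
  have a5 := Nat.mul_le_mul a1 h2
  have a6 := Nat.mul_le_mul_left (E.m u) h2
  refine ⟨h1.trans (low_mono (by omega)), by omega, ?_⟩
  have b1 : (2 : ℝ) ^ (7 * E.rl u) ≤ (ky E h b (root hE u j)).card := by
    have := card_ky hI (root_rel hE hu hj)
    simp only [root, h22p.length_rt] at this
    exact_mod_cast this
  have b2 : (1 / 2 : ℝ) ^ (3 * E.rl u) ≤ ∏ v ∈ W, lm E (h + 1) v := by
    refine le_trans ?_ (prod_le_prod (f := fun _ => (1 / 2 : ℝ) ^ (3 * E.m u))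
      (fun _ _ => by positivity) fun v hv => le_trans (pow_le_pow_of_le_one (by norm_num)
        (by norm_num) (Nat.mul_le_mul_left _ (mem_filter.1 (h1 hv)).2.le))
        (lm_ge hE (mem_filter.1 (h1 hv)).1))
    rw [prod_const, ← pow_mul]
    exact pow_le_pow_of_le_one (by norm_num) (by norm_num) (by nlinarith)
  have b3 : (E.Q : ℝ) ≤ 2 ^ E.rl u := by exact_mod_cast (Q_le hE u.2).2
  refine b3.trans (le_trans (le_of_eq ?_) (mul_le_mul b1 (pow_le_pow_left₀ (by positivity) b2 2)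
    (by positivity) (Nat.cast_nonneg _)))
  rw [← pow_mul, show 7 * E.rl u = E.rl u + 3 * E.rl u * 2 by ring, pow_add, mul_assoc, ← mul_pow]
  norm_num

theorem chp_free (hE : E.Ok) (hI : E.Inv h b σ) {v : E.Nd} (hv : v ∈ E.Fr (h + 1)) :
    1 ≤ E.rk v ∧ Chp (ky E h b) (E.Fr (h + 1)) E.rk (lm E (h + 1)) E.Q v {v} := by
  obtain ⟨-, -, a1, a2, -⟩ := hE.len _ v.1.2
  have a3 := rl_le v
  have a4 : E.rl v.1 ≤ v.2.1.length :=
    (Nat.le_mul_of_pos_left _ (by positivity)).trans (mem_filter.1 hv).2.2.ge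
  refine ⟨by omega, singleton_subset_iff.2 (mem_filter.2 ⟨hv, Nat.lt_succ_self _⟩),
    by rw [card_singleton]; omega, ?_⟩
  have b1 : (2 : ℝ) ^ (7 * v.2.1.length) ≤ (ky E h b v).card := by
    exact_mod_cast card_ky hI (fr_rel hv)
  have b2 : (1 / 2 : ℝ) ^ (3 * v.2.1.length) ≤ ∏ v ∈ {v}, lm E (h + 1) v := by
    rw [prod_singleton, lm, if_pos hv]
    exact pow_le_pow_of_le_one (by norm_num) (by norm_num) (by omega)
  have b3 : (E.Q : ℝ) ≤ 2 ^ v.2.1.length := by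
    exact_mod_cast (Q_le hE v.1.2).2.trans (Nat.pow_le_pow_right two_pos a4)
  refine b3.trans (le_trans (le_of_eq ?_) (mul_le_mul b1 (pow_le_pow_left₀ (by positivity) b2 2)
    (by positivity) (Nat.cast_nonneg _)))
  rw [← pow_mul, show 7 * v.2.1.length = v.2.1.length + 3 * v.2.1.length * 2 by ring, pow_add,
    mul_assoc, ← mul_pow]
  norm_num

theorem conv (hC : ConvStmt) (hX : CircStmt) (hF : ForStmt) (hE : E.Ok) (hI : E.Inv h b σ)
    (hd : h < E.d) (i : ℕ) (b' : Finset E.Nd) (On : (E.Nd → E.Nd) → Finset E.Nd → Finset E.Nd)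
    (s : ℕ) (h1 : Sys (E.Pa h E.L) b' On) (h2 : (E.Fr (h + 1))ᶜ ⊆ b')
    (h3 : Fat (E.Pa (h + 1) i) E.ch E.ft E.Q (s + 2) b') :
    ∃ b'', b' ⊆ b'' ∧ Fat (E.Pa (h + 1) i) E.ch E.ft E.Q s b'' ∧ ∃ B : Finset (E.Nd → E.Nd),
      (B.card : ℝ) ≤ 20 * (∑ o ∈ (univ.filter fun o : E.I => h + 1 ≤ E.lv o) with E.ly o.1 = i,
        (1 / 2) ^ (3 * E.m o.1)) * (Fintype.piFinset (ky E h b)).card ∧
      ∀ κ ∈ Fintype.piFinset (ky E h b), κ ∉ B →
        Cer (Chp (ky E h b) (E.Fr (h + 1)) E.rk (lm E (h + 1)) E.Q) b' (On κ) →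
        ∀ o ∈ univ.filter fun o : E.I => h + 1 ≤ E.lv o, E.ly o = i → ∀ γ ∈ gs E (h + 1) σ o,
          Cert b'' (low (E.Fr (h + 1)) E.rk (E.m o)) (cw (h + 1) (E.m o)) fun y => γ κ (On κ y) := by
  obtain ⟨b'', a1, a2, B, a3, a4⟩ := hC E.Nd (Σ _ : E.I, Lang → Bool) E.Nd (ky E h b) _ b _ b' E.rk
    _ On (((univ.filter fun o : E.I => h + 1 ≤ E.lv o).filter fun o : E.I => E.ly o = i).sigma
      fun o => E.G o (h + 1)) (fun t p => t.2 (trunc (E.m t.1) (σ p)) = true)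
    (fun t => low (E.Fr h) E.rk (E.m t.1)) (fun t => E.m t.1) (fun t => E.m t.1 * cw h (E.m t.1))
    _ E.ch E.ft E.Q s (keys hF hE hI) h1 h2 (by have := (Q_le hE hE.hx.1).1; omega)
    (fun t ht => by
      obtain ⟨t1, t2⟩ := mem_sigma.1 ht
      have t3 : h + 1 ≤ E.lv t.1 := (mem_filter.1 (mem_filter.1 t1).1).2
      have t4 := (hE.len _ t.1.2).2.2.1
      refine ⟨t4, Nat.le_mul_of_pos_right _ (cw_pos t4 h), le_trans (Nat.mul_le_mul_left _
        (Nat.pow_le_pow_left (Nat.mul_le_mul_left _ (cw_mono t4 hd.le)) _)) (hE.hQ _ t.1.2), ?_,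
        fun x hx => (mem_filter.1 hx).2⟩
      exact (hX E.Nd b _ _ _ (fun y => trunc (E.m t.1) (σ y)) (E.G t.1 h)
        (cert_trunc (hI.bits _)) (hI.gate _ t.1.2 (by omega))).2 _ (hE.gs _ t.1.2 h t3 hd _ t2))
    ((hF E hE (h + 1)).2.1 i) h3
  refine ⟨b'', a1, a2, B, a3.trans (mul_le_mul_of_nonneg_right ?_ (Nat.cast_nonneg _)),
    fun κ k1 k2 k3 o o1 o2 γ ⟨g, g1, g2⟩ =>
      g2 ▸ a4 κ k1 k2 k3 ⟨o, g⟩ (mem_sigma.2 ⟨mem_filter.2 ⟨o1, o2⟩, g1⟩)⟩
  rw [sum_sigma, show (20 : ℝ) = 10 * 2 by norm_num, mul_assoc, mul_sum _ _ 2]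
  refine mul_le_mul_of_nonneg_left (sum_le_sum fun o _ => ?_) (by norm_num)
  have c1 : ((E.G o (h + 1)).card : ℝ) ≤ 2 ^ (E.m o + 1) := by exact_mod_cast hE.gc _ o.2 (h + 1)
  simp only [sum_const, nsmul_eq_mul]
  refine (mul_le_mul_of_nonneg_right c1 (by positivity)).trans ?_
  have c2 : (2 : ℝ) ^ E.m o * (1 / 2) ^ E.m o = 1 := by
    rw [← mul_pow]
    norm_num
  have c3 : (1 / 2 : ℝ) ^ (4 * E.m o) ≤ (1 / 2) ^ (3 * E.m o) :=
    pow_le_pow_of_le_one (by norm_num) (by norm_num) (by omega)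
  rw [show 5 * E.m o = E.m o + 4 * E.m o by ring, pow_add, pow_add]
  calc _ = 2 * (1 / 2 : ℝ) ^ (4 * E.m o) * (2 ^ E.m o * (1 / 2) ^ E.m o) := by ring
    _ ≤ _ := by rw [c2]; linarith

end Step

open Step in
theorem stepS (hR : RoundStmt) (hC : ConvStmt) (hX : CircStmt) (hL : LegStmt) (hF : ForStmt) :
    StepStmt := by
  intro E hE h hd b σ hI
  have hK := keys hF hE hI
  have hlv : ∀ u ∈ cd E (h + 1), E.lv u = h + 1 := fun u hu => (mem_filter.1 hu).2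
  have hq : ∀ (u : E.I) β, Loc (E.m u) (bif β then E.mu u else E.nu u) := fun u β => by
    cases β
    exacts [(hE.loc u u.2).2, (hE.loc u u.2).1]
  obtain ⟨f1, f2, f3, f4, -⟩ := hF E hE (h + 1)
  obtain ⟨κ, hκ, b', O, hS, a1, a2⟩ := hR E.Nd E.I E.Nd (univ.filter fun o => h + 1 ≤ E.lv o)
    (cd E (h + 1)) (Fintype.piFinset (ky E h b)) (E.Pa h E.L) (E.Fr (h + 1)) E.rk (fun u => E.m u)
    (fun u => E.ly u) (fun u => E.m u * cw (h + 1) (E.m u)) (fun u => cw (h + 1) (E.m u))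
    (fun u => u.1.length) E.L E.Q (root hE) (qu E σ) (gs E (h + 1) σ)
    (Chp (ky E h b) (E.Fr (h + 1)) E.rk (lm E (h + 1)) E.Q) (E.Pa (h + 1)) E.ch E.ft
    (E.kill (h + 1)) (Fintype.piFinset_nonempty.2 hK.ne)
    (fun u hu => mem_filter.2 ⟨mem_univ _, (hlv u hu).ge⟩)
    (fun o _ => ⟨(hE.len o o.2).2.2.2.2.2.2.2, (hE.len o o.2).2.2.1⟩)
    (fun u hu j hj => ⟨fun a => absurd (mem_filter.1 a).2.1 (hlv u hu).not_gt,
      fun u' _ j' hj' e => ⟨congrArg Prod.fst e, by rw [← num_root hE u hj, e, num_root hE u' hj']⟩⟩)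
    (fun u hu => by
      obtain ⟨-, -, c1, c2, c3, -⟩ := hE.len u u.2
      obtain ⟨c4, c5⟩ := size hE hd hu
      have c6 := Nat.le_mul_of_pos_left ((5 * E.m u + 1) * (E.m u * cw (h + 1) (E.m u))) c1
      refine ⟨by omega, c4, fun j hj => ?_⟩
      have c7 : E.rl u ≤ E.rk (root hE u j) := rl_le (root hE u j)
      exact ⟨root_rel hE hu hj, by omega, by omega,
        fun o _ e => hE.lay o o.2 u u.2 (c7.trans_lt e), fun W => chp_root hE hI hd hu hj⟩)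
    fr_rel (fun v => chp_free hE hI)
    (fun u _ β κ k1 O o1 O' o2 e a =>
      (hq u β _ _ fun s hs => ptloc hF hE hI k1 o1 o2 e hs).trans a)
    (fun u _ β κ κ' O e a => by
      rwa [qu, pt, image_congr (g := κ) fun r hr => e r hr])
    (fun o _ γ ⟨g, _, e⟩ κ k1 O o1 O' o2 e' a => by
      subst e
      refine (congrArg g (funext fun s => ?_)).trans a
      by_cases hs : s.length < E.m o
      · simp only [trunc, ptloc hF hE hI k1 o1 o2 e' hs]
      · simp [trunc, hs])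
    (fun u hu κ k1 b' O hS hg β => by
      have c1 := hE.top u u.2 ((hlv u hu).trans_le hd)
      rw [hlv u hu] at c1
      refine one_congr ((hX E.Nd b' _ _ (E.m u) (fun y => trunc (E.m u) (σ (pt κ (O y))))
        (E.G u (h + 1)) (cert_trunc fun s => bits hF hI k1 hS)
        fun g g1 => hg _ ⟨g, g1, rfl⟩).2 (bif β then E.mu u else E.nu u) ?_) fun y _ => ?_
      · cases β
        exacts [c1.2, c1.1]
      · rw [loc_trunc (hq u β), qu])
    (by have := (Q_le hE hE.hx.1).1; omega) f1 f2 f3 f4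
    (((sum_le_sum_of_subset_of_nonneg (filter_subset _ _) fun _ _ _ => by positivity).trans
      (sum_coe_sort E.I fun u => (1 / 2 : ℝ) ^ (3 * E.m u)).le).trans hE.sum)
    (fun i _ b' On s c1 c2 c3 => by
      obtain ⟨b'', d1, d2, B, d3, d4⟩ := conv hC hX hF hE hI hd i b' On s c1 c2 c3
      exact ⟨b'', d1, d2, B, d3, fun κ k1 k2 _ => d4 κ k1 k2⟩)
    (fun u hu κ k1 b' O hS c1 x c2 T c3 => by
      have c4 := (size hE hd hu).1
      obtain ⟨y, y1, y2, y3⟩ := hL E hE (h + 1) (E.ly u) b' x T _ hd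
        (hE.len u u.2).2.2.2.2.2.2.2.le (hgt hF hI k1 hS)
        (fun y hy => hI.agl _ (base hK k1 (rel hS hy))) c1 (leg hF hI k1 hS) c2
        (c3.trans (by nlinarith))
      refine ⟨y, y1, y2, fun ⟨d1, d2⟩ => ?_⟩
      have d3 := y3 u u.2 ((hlv u hu).trans_le hd) le_rfl
      simp only [qu, cond_true, cond_false] at d1 d2
      rw [d1, d2] at d3
      simp at d3)
  exact ⟨b', fun y => σ (pt κ (O y)), fun y hy => hI.agl _ (base hK hκ (rel hS hy)),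
    (hgt hF hI hκ hS).tree, fun t s => bits hF hI hκ hS, fun y hy v hv c1 =>
      leg hF hI hκ hS y hy v hv (c1.lt_or_eq.imp_right fun e => ⟨e, (hE.len v hv).2.2.2.2.2.2.2⟩),
    fun o ho c1 g g1 => a2 ⟨o, ho⟩ (mem_filter.2 ⟨mem_univ _, c1⟩) _ ⟨g, g1, rfl⟩, a1⟩

end Pool.Agent.MP_a2d820_lc.h31p
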