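import Pool.Agent.MP_a2d820_lc.h31p.Spec

/-! Long readable chains are unlikely. -/

set_option autoImplicit false

namespace Pool.Agent.MP_a2d820_lc.h31p

open Finset

namespace UpRow

variable {V : Type} [Fintype V] [DecidableEq V]

theorem wt_nonneg {q : ℝ} (h0 : 0 < q) (h1 : q ≤ 1 / 2) (z : Finset V) : 0 ≤ wt q z :=
  mul_nonneg (pow_nonneg (by linarith) _) (pow_nonneg h0.le _)

theorem sum_wt (q : ℝ) : ∑ z : Finset V, wt q z = 1 := by
  have h := Finset.sum_pow_mul_eq_add_pow (1 - q) q (univ : Finset V)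
  rw [powerset_univ, sub_add_cancel, one_pow] at h
  rw [← h]
  exact sum_congr rfl fun z _ => by rw [wt, card_compl, card_univ]

theorem wt_le {q : ℝ} (h0 : 0 < q) (h1 : q ≤ 1 / 2) {z S : Finset V} (h : Disjoint z S) :
    wt q z ≤ wt q (z ∪ S) * (2 * q) ^ S.card := by
  have e1 : (z ∪ S).card = z.card + S.card := card_union_of_disjoint h
  have e2 : zᶜ.card = (z ∪ S)ᶜ.card + S.card := by
    have a1 := card_add_card_compl z
    have a2 := card_add_card_compl (z ∪ S)
    omega
  have e3 : (1 : ℝ) ≤ (2 * (1 - q)) ^ S.card := one_le_pow₀ (by linarith)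
  have e4 := wt_nonneg h0 h1 z
  have e5 : wt q (z ∪ S) * (2 * q) ^ S.card = wt q z * (2 * (1 - q)) ^ S.card := by
    rw [wt, wt, e1, e2, pow_add, pow_add, mul_pow, mul_pow]
    ring
  rw [e5]
  exact le_mul_of_one_le_right e4 e3

theorem pow_le {r : ℝ} (h0 : 0 ≤ r) : ∀ n : ℕ, 2 * r * n ≤ 1 → (r + 1) ^ n ≤ 1 + 2 * r * n
  | 0, _ => by simp
  | n + 1, h => by
    push_cast at h ⊢
    have h1 : 2 * r * n ≤ 1 := by nlinarith
    have h2 := mul_le_mul_of_nonneg_right (pow_le h0 n h1) (by linarith : 0 ≤ r + 1)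
    rw [pow_succ]
    nlinarith

theorem geo {r : ℝ} (h0 : 0 ≤ r) (A : Finset V) (h : 4 * r * A.card ≤ 1) :
    ∑ S ∈ A.powerset.erase ∅, r ^ S.card ≤ 1 / 2 := by
  have h1 := Finset.sum_pow_mul_eq_add_pow r 1 A
  simp only [one_pow, mul_one] at h1
  have h2 := add_sum_erase A.powerset (fun S => r ^ S.card) (empty_mem_powerset A)
  have h3 : 0 ≤ r * A.card := by positivity
  have h4 := pow_le h0 A.card (by linarith)
  simp only [card_empty, pow_zero] at h2
  linarith

end UpRow

open UpRow in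
theorem upS : UpStmt := by
  classical
  intro V _ _ q b U σ j h0 h1 h2 hU
  have hP : ∀ E : Finset V → Prop, Pr q E = ∑ z ∈ univ.filter E, wt q z := fun E => by
    rw [Pr, sum_filter]
  induction j with
  | zero =>
    rw [pow_zero, ← sum_wt (V := V) q, hP]
    exact sum_le_sum_of_subset_of_nonneg (filter_subset _ _) fun z _ _ => wt_nonneg h0 h1 z
  | succ j ih =>
    have key : ∀ z : Finset V, ∃ S : Finset V, Up U (j + 1) (b ∪ z) → Disjoint z S ∧
        Up U j (b ∪ (z ∪ S)) ∧ S ∈ (U (b ∪ (z ∪ S))).powerset.erase ∅ := by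
      intro z
      by_cases h : Up U (j + 1) (b ∪ z)
      · obtain ⟨c, c1, c2, c3⟩ := h
        have e : b ∪ (z ∪ c \ (b ∪ z)) = c := by
          rw [← union_assoc, union_sdiff_of_subset c1.subset]
        refine ⟨c \ (b ∪ z), fun _ => ⟨disjoint_sdiff.mono_left subset_union_right, ?_⟩⟩
        rw [e]
        exact ⟨c3, mem_erase.2 ⟨fun h => c1.not_subset (sdiff_eq_empty_iff_subset.1 h),
          mem_powerset.2 c2⟩⟩
      · exact ⟨∅, fun h' => absurd h' h⟩
    choose g hg using key
    let φ : Finset V → (Σ _ : Finset V, Finset V) := fun z => ⟨z ∪ g z, g z⟩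
    let F : (Σ _ : Finset V, Finset V) → ℝ := fun p => wt q p.1 * (2 * q) ^ p.2.card
    let A := univ.filter fun z => Up U (j + 1) (b ∪ z)
    let B := (univ.filter fun z => Up U j (b ∪ z)).sigma fun z => (U (b ∪ z)).powerset.erase ∅
    have hinj : Set.InjOn φ A := fun z hz z' hz' e => by
      have d1 := (hg z (mem_filter.1 hz).2).1
      have d2 := (hg z' (mem_filter.1 hz').2).1
      have e1 : z ∪ g z = z' ∪ g z' := congrArg Sigma.fst e
      have e2 : g z = g z' := congrArg (fun p : (Σ _ : Finset V, Finset V) => p.2) e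
      rw [← union_sdiff_cancel_right d1, e1, e2, union_sdiff_cancel_right d2]
    have hsub : A.image φ ⊆ B := fun p hp => by
      obtain ⟨z, hz, rfl⟩ := mem_image.1 hp
      have := (hg z (mem_filter.1 hz).2).2
      exact mem_sigma.2 ⟨mem_filter.2 ⟨mem_univ _, this.1⟩, this.2⟩
    rw [hP] at ih ⊢
    calc ∑ z ∈ A, wt q z ≤ ∑ z ∈ A, F (φ z) :=
          sum_le_sum fun z hz => wt_le h0 h1 (hg z (mem_filter.1 hz).2).1
      _ = ∑ p ∈ A.image φ, F p := (sum_image hinj).symm
      _ ≤ ∑ p ∈ B, F p := sum_le_sum_of_subset_of_nonneg hsub fun p _ _ =>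
          mul_nonneg (wt_nonneg h0 h1 _) (by positivity)
      _ ≤ ∑ z ∈ univ.filter fun z => Up U j (b ∪ z), wt q z * (1 / 2) := by
          rw [sum_sigma]
          refine sum_le_sum fun z _ => ?_
          simp only [F]
          rw [← mul_sum]
          refine mul_le_mul_of_nonneg_left (geo (by positivity) _ ?_) (wt_nonneg h0 h1 z)
          have a1 : ((U (b ∪ z)).card : ℝ) ≤ σ := by exact_mod_cast hU _
          nlinarith
      _ ≤ (1 / 2) ^ (j + 1) := by
          rw [← sum_mul, pow_succ]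
          linarith

end Pool.Agent.MP_a2d820_lc.h31p
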