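import Mathlib
import Pool.Agent.MP_a2d820_lc.h31p.Spec

/-!
Monotone functions with small positive certificates get negative certificates.
-/

set_option autoImplicit false

namespace Pool.Agent.MP_a2d820_lc.h31p

open Finset Pool.Agent.MP_a2d820_lc.h69

namespace Zero

variable {V : Type} [Fintype V] [DecidableEq V] {q : ℝ}

theorem wt_nonneg (h0 : 0 < q) (h1 : q ≤ 1) (z : Finset V) : 0 ≤ wt q z :=
  mul_nonneg (pow_nonneg (sub_nonneg.2 h1) _) (pow_nonneg h0.le _)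

theorem pr_union (h0 : 0 < q) (h1 : q ≤ 1) {ι : Type} (T : Finset ι) {E : Finset V → Prop}
    (F : ι → Finset V → Prop) (h : ∀ z, E z → ∃ i ∈ T, F i z) : Pr q E ≤ ∑ i ∈ T, Pr q (F i) := by
  classical
  unfold Pr
  rw [sum_comm]
  refine sum_le_sum fun z _ => ?_
  have n : ∀ i ∈ T, 0 ≤ if F i z then wt q z else 0 := fun i _ => by
    split_ifs
    exacts [wt_nonneg h0 h1 z, le_rfl]
  split_ifs with e
  · obtain ⟨i, hi, r⟩ := h z e
    exact (if_pos r).symm.le.trans (single_le_sum n hi)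
  · exact sum_nonneg n

theorem pr_mono (h0 : 0 < q) (h1 : q ≤ 1) {E F : Finset V → Prop} (h : ∀ z, E z → F z) :
    Pr q E ≤ Pr q F := by
  simpa using pr_union h0 h1 (univ : Finset Unit) (fun _ => F) fun z e => ⟨(), mem_univ _, h z e⟩

theorem pr_disj (Z : Finset V) : Pr q (fun z => Disjoint Z z) = q ^ Z.card := by
  have e := Fintype.prod_add (fun v : V => if v ∈ Z then 0 else 1 - q) fun _ => q
  rw [prod_congr rfl (g := fun v => if v ∈ Z then q else 1) fun v _ => by split_ifs <;> ring,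
    prod_ite_mem, univ_inter, prod_const] at e
  rw [e, Pr]
  refine sum_congr rfl fun z _ => ?_
  split_ifs with d
  · rw [prod_congr rfl (g := fun _ => 1 - q) fun v hv => if_neg (disjoint_right.1 d hv),
      prod_const, prod_const, wt]
  · obtain ⟨v, a, c⟩ := not_disjoint_iff.1 d
    rw [prod_eq_zero (f := fun v => if v ∈ Z then (0 : ℝ) else 1 - q) c (if_pos a), zero_mul]

/-- Descending paths that avoid `a`. -/
def Dn (Wf : Finset V → Finset V) : ℕ → Finset V → Finset V → Prop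
  | 0, _, _ => True
  | j + 1, Z, a => ∃ v ∈ Wf Z, v ∉ Z ∧ v ∉ a ∧ Dn Wf j (insert v Z) a

theorem pr_dn (h0 : 0 < q) (h1 : q ≤ 1) {Wf : Finset V → Finset V} {τ : ℕ}
    (hW : ∀ Z, (Wf Z).card ≤ τ) (b : Finset V) (j : ℕ) : ∀ Z : Finset V,
    Pr q (fun z => Disjoint Z z ∧ Dn Wf j Z (b ∪ z)) ≤ (q * τ) ^ j * q ^ Z.card := by
  induction j with
  | zero =>
    intro Z
    rw [pow_zero, one_mul, ← pr_disj]
    exact pr_mono h0 h1 fun _ e => e.1
  | succ j ih =>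
    intro Z
    refine (pr_union h0 h1 (Wf Z \ Z)
      (fun v z => Disjoint (insert v Z) z ∧ Dn Wf j (insert v Z) (b ∪ z)) ?_).trans ?_
    · rintro z ⟨d, v, a, c, e, f⟩
      exact ⟨v, mem_sdiff.2 ⟨a, c⟩, disjoint_insert_left.2 ⟨fun u => e (mem_union_right _ u), d⟩, f⟩
    refine (sum_le_card_nsmul _ _ ((q * τ) ^ j * q ^ (Z.card + 1)) fun v hv => ?_).trans ?_
    · rw [← card_insert_of_notMem (mem_sdiff.1 hv).2]
      exact ih _
    have c : ((Wf Z \ Z).card : ℝ) ≤ τ := by exact_mod_cast (card_le_card sdiff_subset).trans (hW Z)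
    rw [nsmul_eq_mul]
    calc _ ≤ (τ : ℝ) * ((q * τ) ^ j * q ^ (Z.card + 1)) := by gcongr
      _ = _ := by ring

theorem greedy {b S a y : Finset V} {f : Finset V → Prop} {Wf : Finset V → Finset V}
    (hm : ∀ y y', b ⊆ y → y ⊆ y' → f y → f y')
    (hW : ∀ Z, b ⊆ Zᶜ → f Zᶜ → Wf Z ⊆ S ∧ Wf Z ⊆ Zᶜ ∧ f (b ∪ Wf Z)) (hb : b ⊆ y) (ha : a ⊆ y)
    (hy : ¬f y) (j : ℕ) : ∀ Z, Z ⊆ S → Disjoint Z y → ¬Dn Wf j Z a →
      ∃ D ⊆ S, Disjoint D y ∧ D.card ≤ Z.card + j ∧ ¬f Dᶜ := by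
  induction j with
  | zero => exact fun _ _ _ h => absurd trivial h
  | succ j ih =>
    intro Z h1 h2 h3
    by_cases e : f Zᶜ
    · obtain ⟨c1, c2, c3⟩ := hW Z (fun v hv => mem_compl.2 (disjoint_right.1 h2 (hb hv))) e
      obtain ⟨v, d1, d2⟩ := not_subset.1 fun c : Wf Z ⊆ y =>
        hy (hm _ _ subset_union_left (union_subset hb c) c3)
      obtain ⟨D, e1, e2, e3, e4⟩ := ih (insert v Z) (insert_subset (c1 d1) h1)
        (disjoint_insert_left.2 ⟨d2, h2⟩) fun c => h3 ⟨v, d1, mem_compl.1 (c2 d1), fun u => d2 (ha u), c⟩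
      have := card_insert_le v Z
      exact ⟨D, e1, e2, by omega, e4⟩
    · exact ⟨Z, h1, h2, Nat.le_add_right _ _, e⟩

end Zero

theorem zeroS : ZeroStmt := by
  intro V _ _ q b S τ k f hm hs h0 h1 h2
  have ex : ∀ Z : Finset V, ∃ W : Finset V, W.card ≤ τ ∧
      (b ⊆ Zᶜ → f Zᶜ → W ⊆ S ∧ W ⊆ Zᶜ ∧ f (b ∪ W)) := fun Z => by
    by_cases e : b ⊆ Zᶜ ∧ f Zᶜ
    · obtain ⟨W, a1, a2, a3, a4⟩ := hs _ e.1 e.2
      exact ⟨W, a3, fun _ _ => ⟨a1, a2, a4⟩⟩
    · exact ⟨∅, Nat.zero_le _, fun u v => absurd ⟨u, v⟩ e⟩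
  choose Wf w1 w2 using ex
  have fin : Pr q (fun z => Disjoint ∅ z ∧ Zero.Dn Wf k ∅ (b ∪ z)) ≤ (1 / 2) ^ k := by
    refine (Zero.pr_dn h0 h1 w1 b k ∅).trans ?_
    rw [card_empty, pow_zero, mul_one]
    exact pow_le_pow_left₀ (by positivity) (by linarith) k
  refine (Zero.pr_mono h0 h1 fun z e => ⟨disjoint_empty_left z, by_contra fun n => e ?_⟩).trans fin
  refine ⟨fun y u v => ?_, fun y u v => ?_⟩
  · obtain ⟨W, a1, a2, a3, a4⟩ := hs y (subset_union_left.trans u) v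
    exact ⟨W, a1, a3.trans (le_max_left _ _), fun y' c d => hm _ _ subset_union_left
      (union_subset (subset_union_left.trans c) fun x hx => (d x hx).2 (a2 hx)) a4⟩
  · obtain ⟨D, e1, e2, e3, e4⟩ := Zero.greedy hm w2 (subset_union_left.trans u) u v k ∅
      (empty_subset _) (disjoint_empty_left _) n
    rw [card_empty, zero_add] at e3
    exact ⟨D, e1, e3.trans (le_max_right _ _), fun y' c d g => e4 (hm _ _
      (subset_union_left.trans c)
      (fun x hx => mem_compl.2 fun r => disjoint_left.1 e2 r ((d x r).1 hx)) g)⟩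

end Pool.Agent.MP_a2d820_lc.h31p
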