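import Pool.Agent.MP_a2d820_lc.h31p.Spec2
import Pool.Agent.MP_a2d820_lc.h31p.Base

/-! The round without keys, for pairs. -/

set_option autoImplicit false

namespace Pool.Agent.MP_a2d820_lc.h31p

open Finset Pool.Agent.MP_a2d820_lc.h69 Pool.Agent.PolyT Pool.Agent.H82 N487b59b3 Base

namespace Base2

variable {E : Env}

/-- The roots of a row. -/
def reg (hE : E.Ok2) (u : E.I) (j : ℕ) : E.Nd := Base.reg (E := E.triv) hE.ok u j

/-- The state after the layers below `i`. -/
abbrev St (hE : E.Ok2) (i : ℕ) (b : Finset E.Nd) (O : Finset E.Nd → Finset E.Nd) : Prop :=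
  Out (E.Fr 0) E.rk (Cd E) (fun u => E.ly u) (fun u => E.m u) (fun u => u.1.length) (reg hE)
    (AA E) i b O

variable {hE : E.Ok2} {i : ℕ} {b : Finset E.Nd} {O : Finset E.Nd → Finset E.Nd}

theorem bits (h : St hE i b O) {t : ℕ} {s : List Bool} (hs : s.length < t) :
    Cert b (low (E.Fr 0) E.rk t) t fun y => Om E (O y) s = true := by
  by_cases hv : ∃ v : E.Nd, v.2.1.length = E.rk v ∧ s = ad v.1 v.2.1 0
  · obtain ⟨v, hv, rfl⟩ := hv
    have h1 : E.rk v < t := hv ▸ (length_le_ad _ _ _).trans_lt hs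
    refine cert_mono (h.cert v) (fun w hw => ?_) h1.le fun y => (om_ad _ hv).symm
    rw [low, mem_filter] at hw ⊢
    exact ⟨hw.1, by omega⟩
  · exact cert_mono (cert_const b _ t (E.A₀ s = true)) subset_rfl le_rfl
      fun y => by rw [om_not _ hv]

theorem tbits (h : St hE i b O) (t : ℕ) (s : List Bool) :
    Cert b (low (E.Fr 0) E.rk t) t fun y => trunc t (Om E (O y)) s = true := by
  by_cases hs : s.length < t
  · exact cert_mono (bits h hs) subset_rfl le_rfl fun y => by simp [trunc, hs]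
  · exact cert_mono (cert_const b _ t False) subset_rfl le_rfl fun y => by simp [trunc, hs]

theorem hgt (h : St hE i b O) : E.Hgt 0 b fun y => Om E (O y) := by
  refine ⟨fun y hy v hv => ?_, fun y y' t hy hy' e => om_loc fun r hr => ?_⟩
  · rw [← h.free y hy v hv]
    exact om_ad _ (mem_filter.1 hv).2.2
  · exact cert_loc (h.cert r) hy hy' fun v hv => e v (by have := (mem_filter.1 hv).2; omega)

theorem code (h : St hE i b O) {y : Finset E.Nd} (hy : b ⊆ y) {v : List Bool} (hv : v ∈ E.I)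
    (h0 : E.lv v = 0) (hi : E.ly v < i) : E.Leg2 (Om E (O y)) v := fun e => by
  have h1 := h.code ⟨v, hv⟩ (mem_filter.2 ⟨mem_univ _, h0⟩) hi y hy (E.mu v (Om E (O y))) (by
    unfold AA
    cases hm : E.mu v (Om E (O y))
    · exact e.resolve_left (by simp [hm])
    · exact hm)
  rw [← h1, prt, h0]
  congr 2
  refine filter_congr fun j _ => om_ad (v := reg hE ⟨v, hv⟩ j) _ ?_
  simp [reg, Base.reg, Env.rk, h0]

end Base2

theorem base2S (hR : RoundStmt) (hC : CircStmt) (hL : Leg2Stmt) (hF : ForStmt) : Base2Stmt := by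
  intro E hE
  obtain ⟨f1, f2, f3, f4, -⟩ := hF E.triv hE.ok 0
  have hm : ∀ u : E.I, 1 ≤ E.m u := fun u => (hE.ok.len _ u.2).2.2.1
  have hQ : ∀ u : E.I, 10000 * E.m u ^ 4 ≤ E.Q := fun u => by
    refine le_trans (Nat.mul_le_mul_left _ ?_) (hE.ok.hQ _ u.2)
    exact (Nat.pow_le_pow_right (hm u) (by norm_num)).trans
      (Nat.pow_le_pow_left (Nat.le_mul_of_pos_right _ (one_le_cw _ (hm u))) 9)
  have hs : ∀ u : E.I, (5 * E.m u + 1) * (E.m u * cw 0 (E.m u)) ≤ 6 * E.m u ^ 4 := fun u => by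
    have := hm u
    calc (5 * E.m u + 1) * (E.m u * cw 0 (E.m u)) ≤ 6 * E.m u * (E.m u * E.m u ^ 2) :=
          Nat.mul_le_mul_right _ (by omega)
      _ = 6 * E.m u ^ 4 := by ring
  have h8 : 8 ≤ E.Q := by
    have h1 := hQ ⟨_, hE.ok.hx.1⟩
    have h2 := Nat.one_le_pow 4 _ (hm ⟨_, hE.ok.hx.1⟩)
    omega
  have hlv : ∀ u ∈ Cd E, E.lv u = 0 := fun u hu => (mem_filter.1 hu).2
  obtain ⟨κ, -, b, O, hO, hfat, hg⟩ := hR E.Nd E.I E.Nd univ (Cd E) {id} univ (E.Fr 0) E.rk
    (fun u => E.m u) (fun u => E.ly u) (fun u => E.m u * cw 0 (E.m u)) (fun u => cw 0 (E.m u))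
    (fun u => u.1.length) E.L E.Q (Base2.reg hE) (fun u β _ O => AA E u β O)
    (fun o => {γ | ∃ g ∈ E.G o 0, γ = fun _ O => g (trunc (E.m o) (Om E O)) = true})
    (fun _ _ => True) (E.Pa 0) E.ch E.ft (E.kill 0) (singleton_nonempty _) (subset_univ _)
    (fun o _ => ⟨(hE.ok.len _ o.2).2.2.2.2.2.2.2, hm o⟩)
    (fun u hu j hj => ⟨fun h => absurd (mem_filter.1 h).2.1 (by simp [Base2.reg, Base.reg, hlv u hu]),
      fun u' _ j' hj' e => by
        obtain rfl : u = u' := congrArg Prod.fst e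
        have e2 : h22p.rt (E.rl u) j = h22p.rt (E.rl u) j' := congrArg (fun v : E.Nd => v.2.1) e
        have key : ∀ k < u.1.length, ofBits (h22p.rt (E.rl u) k) = k := fun k hk =>
          ofBits_dig (by simpa using hk.trans_le (hE.ok.len _ u.2).2.2.2.2.2.1)
        exact ⟨rfl, by rw [← key j hj, e2, key j' hj']⟩⟩)
    (fun u hu => ⟨by
        have : 5 * E.m u + E.L + 2 ≤ u.1.length := (hE.ok.len _ u.2).2.2.2.2.1
        omega,
      by have := hs u; have := hQ u; omega, fun j _ => by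
        have e : E.rk (Base2.reg hE u j) = E.rl u := by simp [Base2.reg, Base.reg, Env.rk, hlv u hu]
        rw [e]
        refine ⟨mem_univ _, (hs u).trans (le_trans ?_ (hE.ok.pad _ u.2 (by rw [hlv u hu]; omega))),
          (hE.ok.len _ u.2).2.2.2.1, fun o _ h => hE.ok.lay _ o.2 _ u.2 h, fun _ _ _ => trivial⟩
        rw [hlv u hu, cw, mul_assoc, ← pow_add]
        exact Nat.mul_le_mul_left _ (Nat.pow_le_pow_right (hm u) (by norm_num))⟩)
    (subset_univ _)
    (fun v _ => ⟨by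
      have h1 : 8 * E.m v.1 ≤ E.rl v.1 := (hE.ok.len _ v.1.2).2.2.2.1
      have h2 := hm v.1
      exact Nat.mul_pos (by positivity) (by omega), trivial⟩)
    (fun u _ β _ _ O _ O' _ e h => by
      unfold AA at h ⊢
      rw [← h]
      cases β
      · exact (hE.loc _ u.2).2 _ _ (om_loc e)
      · exact (hE.loc _ u.2).1 _ _ (om_loc e))
    (fun _ _ _ _ _ _ _ h => h)
    (fun o _ γ hγ _ _ O _ O' _ e h => by
      obtain ⟨g, -, rfl⟩ := hγ
      show g _ = true
      rw [trunc_congr (om_loc e)]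
      exact h)
    (fun u hu κ _ b O hO hγ β => by
      have h1 := (hC E.Nd b (low (E.Fr 0) E.rk (E.m u)) (cw 0 (E.m u)) (E.m u)
        (fun y => trunc (E.m u) (Om E (O y))) (E.G u 0)
        (fun s => cert_mono (Base2.tbits hO _ s) subset_rfl (Nat.le_self_pow two_ne_zero _)
          fun _ => Iff.rfl) (fun g hg => hγ _ ⟨g, hg, rfl⟩)).2
      have h2 := hE.top _ u.2 (by rw [hlv u hu]; omega)
      rw [hlv u hu] at h2
      have h3 : ∀ y s, s.length < E.m u → trunc (E.m u) (Om E (O y)) s = Om E (O y) s :=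
        fun y s h => by simp [trunc, h]
      cases β
      · exact one_mono (h1 _ h2.2) subset_rfl le_rfl fun y => by
          rw [(hE.loc _ u.2).2 _ _ (h3 y)]; rfl
      · exact one_mono (h1 _ h2.1) subset_rfl le_rfl fun y => by
          rw [(hE.loc _ u.2).1 _ _ (h3 y)]; rfl)
    h8 f1 f2 f3 f4
    (by rw [sum_coe_sort E.I fun u => (1 / 2 : ℝ) ^ (3 * E.m u)]; exact hE.ok.sum)
    (fun i _ b On s' _ _ hb => ⟨b, subset_rfl, fun π hπ => le_trans
      (Nat.mul_le_mul_left _ (Nat.pow_le_pow_right (by omega) (by omega))) (hb π hπ), ∅,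
      by rw [card_empty, Nat.cast_zero]; positivity, fun κ _ _ hO _ o _ _ γ hγ => by
        obtain ⟨g, hg, rfl⟩ := hγ
        exact cert_mono ((hC E.Nd b (low (E.Fr 0) E.rk (E.m o)) (E.m o) (E.m o)
          (fun y => trunc (E.m o) (Om E (On κ y))) ∅ (Base2.tbits hO _) (fun _ h => h.elim)).1 g
          (hE.ok.g0 _ o.2 g hg)) subset_rfl (sq _).ge fun _ => Iff.rfl⟩)
    (fun u hu κ _ b O hO hb x hx T hT => by
      obtain ⟨y, h1, h2, h3⟩ := hL E hE 0 (E.ly u) b x T (fun y => Om E (O y))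
        (hE.ok.len _ u.2).2.2.2.2.2.2.2.le (Base2.hgt hO) (fun y _ => agl hE.ok _) hb
        (fun y hy v hv h => Base2.code hO hy hv (h.resolve_left (Nat.not_lt_zero _)).1
          (h.resolve_left (Nat.not_lt_zero _)).2) hx (by
          have a1 := hs u
          have a2 := hQ u
          have a3 : 2 * (E.m u * cw 0 (E.m u)) ≤ (5 * E.m u + 1) * (E.m u * cw 0 (E.m u)) :=
            Nat.mul_le_mul_right _ (by have := hm u; omega)
          omega)
      exact ⟨y, h1, h2, h3 _ u.2 (by rw [hlv u hu]; omega) le_rfl⟩)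
  exact ⟨b, fun y => Om E (O y), fun y _ => agl hE.ok _, (Base2.hgt hO).tree,
    fun t s h => cert_mono (Base2.bits hO h) subset_rfl (Nat.le_self_pow two_ne_zero _) fun _ => Iff.rfl,
    fun y hy v hv h => Base2.code hO hy hv (Nat.le_zero.1 h) (hE.ok.len _ hv).2.2.2.2.2.2.2,
    fun o ho _ g h => hg ⟨o, ho⟩ (mem_univ _) _ ⟨g, h, rfl⟩, hfat⟩

end Pool.Agent.MP_a2d820_lc.h31p
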