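import Pool.Agent.MP_a2d820_lc.h31p.Spec2
import Pool.Agent.MP_a2d820_lc.h31p.Core

/-!
The promise for pairs at a point that extends a small assignment, and the iteration of the rounds.
-/

set_option autoImplicit false

namespace Pool.Agent.MP_a2d820_lc.h31p

open Finset Pool.Agent.MP_a2d820_lc.h69 Cor

theorem leg2S (hF : FillStmt) : Leg2Stmt := by
  intro E hE h i b x T σ hi hH hA hfat hcode hx hT
  have hsp : ∀ v ∈ E.I, v.length - 1 - i + i + 1 = v.length ∧ v.length ≤ 2 ^ E.rl v := fun v hv => by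
    have : 5 * E.m v + E.L + 2 ≤ v.length := (hE.ok.len v hv).2.2.2.2.1
    exact ⟨by omega, (hE.ok.len v hv).2.2.2.2.2.1⟩
  have hf : ∀ π ∈ E.Pa h i, E.ft π ≤ (E.ch π \ b).card := fun π hπ => by simpa using hfat π hπ
  obtain ⟨y, hy, hag, hfill⟩ := hF E.triv hE.ok h b x T σ E.mu (fun v => prt v.length (E.rl v))
    (fun v => v.length - 1 - i) ⟨hH.tree, hH.loc⟩ (subset_union_left.trans hx) hT
    (fun v hv => (hE.loc v hv).1) (fun v _ a a' e => prt_congr e)
    (fun v hv a a' e e' => prt_flip (by have := (hsp v hv).1; omega) (hsp v hv).2 e e')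
    (fun (π : E.Nd) (h1 : h + 1 < E.lv π.1) h2 =>
      hf π (mem_filter.2 ⟨mem_univ _, by omega, h2, fun h3 => by omega⟩))
    fun (π : E.Nd) (h1 : E.lv π.1 = h + 1) (h2 : π.2.1 = h22p.rt (E.rl π.1) _) => by
      obtain ⟨h3, h4⟩ := hsp _ π.1.2
      have h5 : PolyT.ofBits π.2.1 = π.1.1.length - 1 - i := by rw [h2, ofBits_rt (by omega)]
      have h6 : π.2.1.length = E.rl π.1 := by rw [h2, h22p.length_rt]
      refine ⟨hf π (mem_filter.2 ⟨mem_univ _, by omega, ?_, fun h7 => by omega⟩),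
        fun (v : E.Nd) (hv : v ∈ E.ch π) => ?_⟩
      · rw [h6, h1, show h + 1 - h - 1 = 0 by omega, pow_zero, one_mul]
      · obtain ⟨-, h7, h8, h9⟩ := mem_filter.1 hv
        refine hx (mem_union_right _ (mem_filter.2 ⟨mem_univ _, ?_, ?_, ?_⟩))
        · rw [h7, h1]
        · rw [h7, h8, h6]
        · rw [h7, ← h6, h9, h5, h3]
  refine ⟨y, hy, hag, fun u hu h1 h2 => hE.prom _ (hA y hy) u hu h1 fun v hv _ h3 => ?_⟩
  by_cases h4 : h < E.lv v
  · exact fun _ => hfill v hv h4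
  · exact hcode y hy v hv (by omega)

theorem core2S (hB : Base2Stmt) (hS : Step2Stmt) (hF : FillStmt) : Core2Stmt := by
  classical
  intro E hE o ho hd f hf hl
  have ok := hE.ok
  have key : ∀ h ≤ E.d, ∃ b σ, E.Inv2 h b σ := by
    intro h
    induction h with
    | zero => exact fun _ => hB E hE
    | succ h ih =>
      intro hh
      obtain ⟨b, σ, H⟩ := ih (by omega)
      exact hS E hE h hh b σ H
  obtain ⟨b, σ, H⟩ := key E.d le_rfl
  have hc := H.gate o ho hd f hf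
  obtain ⟨T, t1, t2⟩ : ∃ T : Finset E.Nd, T.card ≤ cw E.d (E.m o) ∧
      ∀ y, b ⊆ y → Agr T univ y → f (σ y) = f (σ univ) := by
    simp only [loc_trunc hl] at hc
    by_cases h : f (σ univ) = true
    · obtain ⟨D, -, d1, d2⟩ := hc.1 univ (subset_univ _) h
      exact ⟨D, d1, fun y a1 a2 => (d2 y a1 a2).trans h.symm⟩
    · obtain ⟨D, -, d1, d2⟩ := hc.2 univ (subset_univ _) h
      exact ⟨D, d1, fun y a1 a2 => Bool.eq_iff_iff.2 (iff_of_false (d2 y a1 a2) h)⟩
  have hT : T.card ≤ E.Q := by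
    have h1 : 10000 * (E.m o * cw E.d (E.m o)) ^ 9 ≤ E.Q := ok.hQ o ho
    have h2 := Nat.le_self_pow (show 9 ≠ 0 by norm_num) (E.m o * cw E.d (E.m o))
    have h3 : _ ≤ E.m o * _ := Nat.le_mul_of_pos_left (cw E.d (E.m o)) (ok.len o ho).2.2.1
    omega
  have fat : ∀ π : E.Nd, π ∈ E.Pa E.d E.L → E.ft π ≤ (E.ch π \ b).card := fun π hπ => by
    simpa using H.fat π hπ
  obtain ⟨y, y1, y2, y3⟩ := hF E.triv ok E.d b univ T σ
    (fun v => if v = E.x then fun _ => !f (σ univ) else E.mu v)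
    (fun v a => if v = E.x then a (h22p.rt (E.rl v) 0) else prt v.length (E.rl v) a)
    (fun _ => 0) ⟨H.tree, fun _ _ t a1 a2 e s hs => Bool.eq_iff_iff.2
      (cert_loc (H.bits t s hs) a1 a2 fun v hv => e v (mem_filter.1 hv).2)⟩ (subset_univ _) hT
    (fun v hv => by
      split_ifs
      exacts [fun _ _ _ => rfl, (hE.loc v hv).1])
    (fun v _ a a' h => by
      split_ifs
      exacts [h _ (h22p.length_rt _ _), prt_congr h])
    (fun v hv a a' h h' => by
      obtain ⟨-, -, -, -, a1, a2, -⟩ := ok.len v hv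
      split_ifs
      exacts [h', prt_flip (by omega) a2 h h'])
    (fun (π : E.Nd) (a1 : E.d + 1 < E.lv π.1) a2 =>
      fat π (mem_filter.2 ⟨mem_univ _, by omega, a2, fun h => by omega⟩))
    (fun (π : E.Nd) (a1 : E.lv π.1 = E.d + 1) (a2 : π.2.1 = h22p.rt (E.rl π.1) 0) =>
      ⟨fat π (mem_filter.2 ⟨mem_univ _, by omega, by simp [a1, a2], fun h => by
        have : 5 * E.m π.1 + E.L + 2 ≤ π.1.1.length := (ok.len _ π.1.2).2.2.2.2.1
        rw [a2, ofBits_rt (by positivity)] at h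
        omega⟩), subset_univ _⟩)
  refine ⟨σ y, H.agl y y1, fun v hv hx => ?_, ?_⟩
  · rcases le_or_gt (E.lv v) E.d with h | h
    · exact H.code y y1 v hv h
    · exact fun _ => by simpa only [if_neg hx] using y3 v hv h
  have h := y3 E.x ok.hx.1 ok.hx.2
  simp only [if_true] at h
  rw [h, t2 y y1 y2]
  exact (Bool.not_ne_self _).symm

end Pool.Agent.MP_a2d820_lc.h31p
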