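import Pool.Agent.MP_a2d820_lc.h31p.Spec

/-!
Statements of the blocks for pairs of disjoint sets.
-/

set_option autoImplicit false

namespace Pool.Agent.MP_a2d820_lc.h31p

open Finset Pool.Agent.MP_a2d820_lc.h69

namespace Env

variable (E : Env)

/-- The same data with trivial questions. -/
abbrev triv : Env := { E with mu := fun _ _ => false, nu := fun _ _ => true }

/-- The row `v` stores the right bit if one of its two functions accepts. -/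
def Leg2 (A : Lang) (v : List Bool) : Prop :=
  E.mu v A = true ∨ E.nu v A = true →
    prt v.length (E.rl v) (nw (E.lv v) (rowOf A v)) = E.mu v A

/-- The hypotheses on the data of a stage. -/
structure Ok2 : Prop where
  ok : E.triv.Ok
  top : ∀ u ∈ E.I, E.lv u ≤ E.d →
    IsOr ((E.G u (E.lv u) : Set _) ∪ {g | DT 1 g}) (E.m u) (E.mu u) ∧
    IsOr ((E.G u (E.lv u) : Set _) ∪ {g | DT 1 g}) (E.m u) (E.nu u)
  loc : ∀ u ∈ E.I, Loc (E.m u) (E.mu u) ∧ Loc (E.m u) (E.nu u)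
  prom : ∀ A, h70.Agl E.n E.A₀ A → ∀ u ∈ E.I, E.lv u ≤ E.d →
    (∀ v ∈ E.I, v ≠ E.x → E.ly v < E.ly u → E.Leg2 A v) → ¬(E.mu u A = true ∧ E.nu u A = true)

/-- The invariant after the round `h`. -/
structure Inv2 (h : ℕ) (b : Finset E.Nd) (σ : Finset E.Nd → Lang) : Prop where
  agl : ∀ y, b ⊆ y → h70.Agl E.n E.A₀ (σ y)
  tree : ∀ y, b ⊆ y → ∀ v ∈ E.Fr h, nw h (rowOf (σ y) v.1) v.2.1 = true ↔ v ∈ y
  bits : ∀ t s, s.length < t → Cert b (low (E.Fr h) E.rk t) (cw h t) fun y => σ y s = true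
  code : ∀ y, b ⊆ y → ∀ v ∈ E.I, E.lv v ≤ h → E.Leg2 (σ y) v
  gate : ∀ o ∈ E.I, h ≤ E.lv o → ∀ g ∈ E.G o h,
    Cert b (low (E.Fr h) E.rk (E.m o)) (cw h (E.m o)) fun y => g (trunc (E.m o) (σ y)) = true
  fat : Fat (E.Pa h E.L) E.ch E.ft E.Q 0 b

end Env

/-- The promise holds at a point that extends a small assignment. -/
def Leg2Stmt : Prop :=
  ∀ (E : Env), E.Ok2 → ∀ (h i : ℕ) (b x T : Finset E.Nd) (σ : Finset E.Nd → Lang),
    i ≤ E.L → E.Hgt h b σ → (∀ y, b ⊆ y → h70.Agl E.n E.A₀ (σ y)) →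
    Fat (E.Pa h i) E.ch E.ft E.Q 0 b →
    (∀ y, b ⊆ y → ∀ v ∈ E.I, E.lv v < h ∨ (E.lv v = h ∧ E.ly v < i) → E.Leg2 (σ y) v) →
    b ∪ E.kill h i ⊆ x → T.card ≤ E.Q →
    ∃ y, b ⊆ y ∧ Agr T x y ∧ ∀ u ∈ E.I, E.lv u ≤ E.d → E.ly u ≤ i →
      ¬(E.mu u (σ y) = true ∧ E.nu u (σ y) = true)

/-- The round without keys. -/
def Base2Stmt : Prop := ∀ (E : Env), E.Ok2 → ∃ b σ, E.Inv2 0 b σ

/-- A round with keys. -/
def Step2Stmt : Prop :=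
  ∀ (E : Env), E.Ok2 → ∀ h < E.d, ∀ b σ, E.Inv2 h b σ → ∃ b' σ', E.Inv2 (h + 1) b' σ'

/-- The combinatorial core of a stage. -/
def Core2Stmt : Prop :=
  ∀ (E : Env), E.Ok2 → ∀ o ∈ E.I, E.d ≤ E.lv o → ∀ f ∈ E.G o E.d, Loc (E.m o) f →
    ∃ A, h70.Agl E.n E.A₀ A ∧ (∀ v ∈ E.I, v ≠ E.x → E.Leg2 A v) ∧
      f A ≠ nw (E.lv E.x) (rowOf A E.x) (h22p.rt (E.rl E.x) 0)

end Pool.Agent.MP_a2d820_lc.h31p
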