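import Pool.Agent.MP_a2d820_lc.h31p.Spec

/-! The choice of the next base point. -/

set_option autoImplicit false

namespace Pool.Agent.MP_a2d820_lc.h31p

open Finset

namespace Sparse

variable {V : Type} [Fintype V] [DecidableEq V]

theorem wt_pos {q : ℝ} (h0 : 0 < q) (h1 : q < 1) (z : Finset V) : 0 < wt q z :=
  mul_pos (pow_pos (by linarith) _) (pow_pos h0 _)

theorem sum_wt_pow (q t : ℝ) (D : Finset V) :
    ∑ z : Finset V, wt q z * t ^ (D \ z).card = (1 - q + q * t) ^ D.card := by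
  have h1 : ∏ v : V, ((1 - q) + q * (if v ∈ D then t else 1)) = (1 - q + q * t) ^ D.card := by
    have h2 : ∀ v : V, ((1 - q) + q * (if v ∈ D then t else 1)) =
        if v ∈ D then 1 - q + q * t else 1 := by
      intro v
      split_ifs <;> ring
    rw [prod_congr rfl fun v _ => h2 v, prod_ite_mem, univ_inter, prod_const]
  rw [← h1, Fintype.prod_add]
  refine sum_congr rfl fun z _ => ?_
  have h3 : zᶜ ∩ D = D \ z := by
    ext v
    simp only [mem_inter, mem_compl, mem_sdiff]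
    exact and_comm
  rw [prod_const, prod_mul_distrib, prod_const, prod_ite_mem, prod_const, h3, wt, mul_assoc]

theorem sum_wt (q : ℝ) : ∑ z : Finset V, wt q z = 1 := by
  have := sum_wt_pow q 1 (∅ : Finset V)
  simpa using this

open Classical in
theorem small (Q M : ℕ) (hQ : 8 ≤ Q) (D : Finset V) (hD : M * Q ≤ D.card) :
    ∑ z : Finset V, (if (D \ z).card < M then wt (4 / (Q : ℝ)) z else 0) ≤ (1 / 2) ^ M := by
  have hQ' : (8 : ℝ) ≤ Q := by exact_mod_cast hQ
  have hQ0 : (0 : ℝ) < Q := by linarith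
  have hq0 : 0 < 4 / (Q : ℝ) := by positivity
  have hq1 : 4 / (Q : ℝ) ≤ 1 / 2 := by
    rw [div_le_iff₀ hQ0]
    linarith
  have h1 : ∀ z : Finset V, (if (D \ z).card < M then wt (4 / (Q : ℝ)) z else 0) ≤
      2 ^ M * (wt (4 / (Q : ℝ)) z * (1 / 2) ^ (D \ z).card) := by
    intro z
    have hw := wt_pos hq0 (by linarith) z
    split_ifs with h
    · have h2 : (1 / 2 : ℝ) ^ M ≤ (1 / 2) ^ (D \ z).card :=
        pow_le_pow_of_le_one (by norm_num) (by norm_num) h.le
      have h3 : (2 : ℝ) ^ M * (1 / 2) ^ M = 1 := by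
        rw [← mul_pow]
        norm_num
      calc wt (4 / (Q : ℝ)) z = 2 ^ M * (wt (4 / (Q : ℝ)) z * (1 / 2) ^ M) := by
            rw [mul_left_comm, h3, mul_one]
        _ ≤ _ := by gcongr
    · positivity
  refine (sum_le_sum fun z _ => h1 z).trans ?_
  rw [← mul_sum, sum_wt_pow]
  have h4 : 1 - 4 / (Q : ℝ) + 4 / (Q : ℝ) * (1 / 2) = 1 - 2 / Q := by ring
  have h5 : 0 ≤ 1 - 2 / (Q : ℝ) := by
    rw [← h4]
    nlinarith
  have h6 : 1 - 2 / (Q : ℝ) ≤ 1 := by
    have : 0 ≤ 2 / (Q : ℝ) := by positivity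
    linarith
  have h7 : (1 - 2 / (Q : ℝ)) ^ Q ≤ 1 / 4 := by
    have h8 : 1 - 2 / (Q : ℝ) ≤ Real.exp (-(2 / Q)) := by
      have := Real.add_one_le_exp (-(2 / (Q : ℝ)))
      linarith
    have h9 : Real.exp (-(2 / (Q : ℝ))) ^ Q = Real.exp (-2) := by
      rw [← Real.exp_nat_mul]
      congr 1
      field_simp
    have h10 : Real.exp (-2) ≤ 1 / 4 := by
      have h11 : (2 : ℝ) ≤ Real.exp 1 := by
        have := Real.add_one_le_exp (1 : ℝ)
        linarith
      have h12 : Real.exp (-2) * (Real.exp 1 * Real.exp 1) = 1 := by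
        rw [← Real.exp_add, ← Real.exp_add]
        norm_num
      have h13 : 0 < Real.exp (-2) := Real.exp_pos _
      have h14 : (4 : ℝ) ≤ Real.exp 1 * Real.exp 1 := by nlinarith
      nlinarith
    calc (1 - 2 / (Q : ℝ)) ^ Q ≤ Real.exp (-(2 / (Q : ℝ))) ^ Q := pow_le_pow_left₀ h5 h8 _
      _ ≤ 1 / 4 := by rw [h9]; exact h10
  rw [h4]
  calc (2 : ℝ) ^ M * (1 - 2 / (Q : ℝ)) ^ D.card ≤ 2 ^ M * (1 - 2 / (Q : ℝ)) ^ (Q * M) := by
        have := pow_le_pow_of_le_one h5 h6 (show Q * M ≤ D.card by rwa [mul_comm])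
        gcongr
    _ ≤ 2 ^ M * (1 / 4) ^ M := by
        rw [pow_mul]
        gcongr
    _ = (1 / 2) ^ M := by
        rw [← mul_pow]
        norm_num

open Classical in
theorem not_fat {ι : Type} (P : Finset ι) (C : ι → Finset V) (f : ι → ℕ) (Q s : ℕ)
    (b : Finset V) (hQ : 8 ≤ Q) (hP : ∀ π ∈ P, 2 * P.card ≤ 2 ^ f π)
    (hF : Fat P C f Q (s + 1) b) :
    ∑ z : Finset V, (if Fat P C f Q s (b ∪ z) then 0 else wt (4 / (Q : ℝ)) z) ≤ 1 / 2 := by
  have hQ' : (8 : ℝ) ≤ Q := by exact_mod_cast hQ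
  have hQ0 : (0 : ℝ) < Q := by linarith
  have hq0 : 0 < 4 / (Q : ℝ) := by positivity
  have hq1 : 4 / (Q : ℝ) < 1 := by
    rw [div_lt_iff₀ hQ0]
    linarith
  have h1 : ∀ z : Finset V, (if Fat P C f Q s (b ∪ z) then 0 else wt (4 / (Q : ℝ)) z) ≤
      ∑ π ∈ P, if ((C π \ b) \ z).card < f π * Q ^ s then wt (4 / (Q : ℝ)) z else 0 := by
    intro z
    have hw := (wt_pos hq0 hq1 z).le
    have hn : ∀ π ∈ P,
        0 ≤ if ((C π \ b) \ z).card < f π * Q ^ s then wt (4 / (Q : ℝ)) z else 0 := by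
      intro π _
      split_ifs
      · exact hw
      · exact le_rfl
    split_ifs with h
    · exact sum_nonneg hn
    · unfold Fat at h
      push Not at h
      obtain ⟨π, hπ, hlt⟩ := h
      have h2 : (C π \ b) \ z = C π \ (b ∪ z) := by
        ext v
        simp only [mem_sdiff, mem_union, not_or, and_assoc]
      refine le_trans (le_of_eq ?_) (single_le_sum hn hπ)
      rw [h2, if_pos hlt]
  refine (sum_le_sum fun z _ => h1 z).trans ?_
  rw [sum_comm]
  have h3 : ∀ π ∈ P, ∑ z : Finset V, (if ((C π \ b) \ z).card < f π * Q ^ s then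
      wt (4 / (Q : ℝ)) z else 0) ≤ 1 / (2 * (P.card : ℝ)) := by
    intro π hπ
    have h4 := small Q (f π * Q ^ s) hQ (C π \ b) (by rw [mul_assoc, ← pow_succ]; exact hF π hπ)
    have h5 : f π ≤ f π * Q ^ s := Nat.le_mul_of_pos_right _ (pow_pos (by omega) _)
    have h6 : (0 : ℝ) < P.card := by exact_mod_cast card_pos.2 ⟨π, hπ⟩
    have h7 : (2 * (P.card : ℝ)) ≤ 2 ^ f π := by exact_mod_cast hP π hπ
    refine h4.trans ((pow_le_pow_of_le_one (by norm_num) (by norm_num) h5).trans ?_)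
    rw [one_div_pow]
    exact one_div_le_one_div_of_le (by linarith) h7
  refine (sum_le_sum h3).trans ?_
  rw [sum_const, nsmul_eq_mul]
  rcases Nat.eq_zero_or_pos P.card with h | h
  · rw [h]
    norm_num
  · have h6 : (0 : ℝ) < P.card := by exact_mod_cast h
    refine le_of_eq ?_
    field_simp

end Sparse

open Sparse in
theorem sparseS : SparseStmt := by
  classical
  intro V ι Ω _ _ 𝒦 P C f Q s b E ε hQ hP hF hε hE
  have hQ' : (8 : ℝ) ≤ Q := by exact_mod_cast hQ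
  have hQ0 : (0 : ℝ) < Q := by linarith
  have hq0 : 0 < 4 / (Q : ℝ) := by positivity
  have hq1 : 4 / (Q : ℝ) < 1 := by
    rw [div_lt_iff₀ hQ0]
    linarith
  by_contra hcon
  have hbig : ∀ z : Finset V, Fat P C f Q s (b ∪ z) →
      2 * ε * 𝒦.card < ((𝒦.filter fun κ => E κ (b ∪ z)).card : ℝ) := by
    intro z hz
    by_contra h
    exact hcon ⟨b ∪ z, subset_union_left, hz, 𝒦.filter fun κ => E κ (b ∪ z), not_lt.1 h,
      fun κ hκ h' => mem_filter.2 ⟨hκ, h'⟩⟩
  have hnf := not_fat P C f Q s b hQ hP hF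
  have hsum : ∑ z : Finset V, (if Fat P C f Q s (b ∪ z) then wt (4 / (Q : ℝ)) z else 0) +
      ∑ z : Finset V, (if Fat P C f Q s (b ∪ z) then 0 else wt (4 / (Q : ℝ)) z) = 1 := by
    rw [← sum_add_distrib, ← sum_wt (V := V) (4 / (Q : ℝ))]
    refine sum_congr rfl fun z _ => ?_
    split_ifs <;> simp
  have hfat : 1 / 2 ≤
      ∑ z : Finset V, (if Fat P C f Q s (b ∪ z) then wt (4 / (Q : ℝ)) z else 0) := by linarith
  have hex : ∃ z : Finset V, Fat P C f Q s (b ∪ z) := by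
    by_contra h
    push Not at h
    rw [sum_eq_zero fun z _ => if_neg (h z)] at hfat
    norm_num at hfat
  have havg : ∑ z : Finset V, wt (4 / (Q : ℝ)) z * ((𝒦.filter fun κ => E κ (b ∪ z)).card : ℝ) ≤
      ε * 𝒦.card := by
    have h1 : ∀ z : Finset V, wt (4 / (Q : ℝ)) z * ((𝒦.filter fun κ => E κ (b ∪ z)).card : ℝ) =
        ∑ κ ∈ 𝒦, if E κ (b ∪ z) then wt (4 / (Q : ℝ)) z else 0 := by
      intro z
      rw [← sum_filter, sum_const, nsmul_eq_mul, mul_comm]
    rw [sum_congr rfl fun z _ => h1 z, sum_comm]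
    refine (sum_le_sum fun κ hκ => hE κ hκ).trans ?_
    rw [sum_const, nsmul_eq_mul, mul_comm]
  have hlt : ∑ z : Finset V, (if Fat P C f Q s (b ∪ z) then wt (4 / (Q : ℝ)) z else 0) *
      (2 * ε * 𝒦.card) <
      ∑ z : Finset V, wt (4 / (Q : ℝ)) z * ((𝒦.filter fun κ => E κ (b ∪ z)).card : ℝ) := by
    refine sum_lt_sum (fun z _ => ?_) ?_
    · have hw := wt_pos hq0 hq1 z
      split_ifs with h
      · exact mul_le_mul_of_nonneg_left (hbig z h).le hw.le
      · rw [zero_mul]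
        positivity
    · obtain ⟨z, hz⟩ := hex
      refine ⟨z, mem_univ _, ?_⟩
      rw [if_pos hz]
      exact mul_lt_mul_of_pos_left (hbig z hz) (wt_pos hq0 hq1 z)
  rw [← sum_mul] at hlt
  have h2 : (0 : ℝ) ≤ 2 * ε * 𝒦.card := by positivity
  have h3 := mul_le_mul_of_nonneg_right hfat h2
  linarith

end Pool.Agent.MP_a2d820_lc.h31p
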